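import Mathlib

/-!
The cotangent bundle of a sphere, polynomial integrals, maximal superintegrability.
-/

set_option autoImplicit false

open scoped ContDiff

namespace Pool.Agent.MSup

section
variable {ι : Type} [Fintype ι]

/-- The Euclidean inner product of `ℝ^ι`. -/
def ip (x y : ι → ℝ) : ℝ := ∑ i, x i * y i

/-- The cotangent bundle of the unit sphere `S` of `ℝ^ι`: pairs `(x, p)` with `|x| = 1` and
`x · p = 0`.  The covector `p` acts on tangent vectors (vectors orthogonal to `x`) by the inner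
product. -/
def TS (ι : Type) [Fintype ι] : Set ((ι → ℝ) × (ι → ℝ)) := {z | ip z.1 z.1 = 1 ∧ ip z.1 z.2 = 0}

/-- The part of `p` orthogonal to `x`. -/
noncomputable def tproj (x p : ι → ℝ) : ι → ℝ := p - (ip x p / ip x x) • x

/-- The canonical projection of the cotangent bundle of `ℝ^ι ∖ 0 = S × (0,∞)` to the cotangent
bundle of `S`. -/
noncomputable def toTS (z : (ι → ℝ) × (ι → ℝ)) : (ι → ℝ) × (ι → ℝ) :=
  ((√(ip z.1 z.1))⁻¹ • z.1, √(ip z.1 z.1) • tproj z.1 z.2)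

/-- A function on the cotangent bundle of `S` as a function on the cotangent bundle of
`ℝ^ι ∖ 0 = S × (0,∞)`. -/
noncomputable def lift (F : (ι → ℝ) × (ι → ℝ) → ℝ) (z : (ι → ℝ) × (ι → ℝ)) : ℝ := F (toTS z)

/-- The function `F` on the cotangent bundle of `S` is polynomial in momenta, with smooth
coefficients. -/
def PolyInMomenta (F : (ι → ℝ) × (ι → ℝ) → ℝ) : Prop :=
  ∃ (d : ℕ) (K : (k : ℕ) → (Fin k → ι) → (ι → ℝ) → ℝ), (∀ k i, ContDiff ℝ ∞ (K k i)) ∧
    ∀ z ∈ TS ι, F z = ∑ k ∈ Finset.range (d + 1), ∑ i : Fin k → ι, K k i z.1 * ∏ j, z.2 (i j)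

variable [DecidableEq ι]

/-- The canonical Poisson bracket on `ℝ^ι × ℝ^ι` at the point `z`. -/
noncomputable def bracket (F G : (ι → ℝ) × (ι → ℝ) → ℝ) (z : (ι → ℝ) × (ι → ℝ)) : ℝ :=
  ∑ i, (fderiv ℝ F z (Pi.single i 1, 0) * fderiv ℝ G z (0, Pi.single i 1) -
    fderiv ℝ F z (0, Pi.single i 1) * fderiv ℝ G z (Pi.single i 1, 0))

/-- `F` is an integral of the Hamiltonian flow of `H` on the cotangent bundle of `S`: the Poisson
bracket vanishes (functions on the cotangent bundle of `S` being pulled back to the cotangent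
bundle of `S × (0,∞)`). -/
def IsIntegral (H F : (ι → ℝ) × (ι → ℝ) → ℝ) : Prop :=
  ∀ z ∈ TS ι, bracket (lift H) (lift F) z = 0

/-- The Hamiltonian flow of `H` on the cotangent bundle of the sphere `S` of dimension
`n = |ι| - 1` is maximally superintegrable in the polynomial class: there are `2n - 1` integrals,
polynomial in momenta, whose differentials are linearly independent on an open dense subset. -/
def MaxSuperintegrable (H : (ι → ℝ) × (ι → ℝ) → ℝ) : Prop :=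
  ∃ F : Fin (2 * (Fintype.card ι - 1) - 1) → ((ι → ℝ) × (ι → ℝ) → ℝ),
    (∀ i, PolyInMomenta (F i)) ∧ (∀ i, IsIntegral H (F i)) ∧
    ∃ U : Set ((ι → ℝ) × (ι → ℝ)), IsOpen U ∧ TS ι ⊆ closure (U ∩ TS ι) ∧
      ∀ z ∈ U ∩ TS ι, LinearIndependent ℝ (fun i => fderiv ℝ (lift (F i)) z)

/-- The Riemannian metric on `S` with Hamiltonian `H` (half the square of the dual norm) has a
smooth local isometry onto the round sphere of some radius `√C`: a smooth map `Φ` of `S` to itself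
such that the pull-back of covectors by `Φ` carries the dual norm of the round sphere to the one
of `H`. -/
def IsRound (H : (ι → ℝ) × (ι → ℝ) → ℝ) : Prop :=
  ∃ C : ℝ, 0 < C ∧ ∃ Φ : (ι → ℝ) → (ι → ℝ), ∀ x, ip x x = 1 →
    ContDiffAt ℝ ∞ Φ x ∧ ip (Φ x) (Φ x) = 1 ∧ ∀ π, ip (Φ x) π = 0 →
      H (x, tproj x (fun i => ip (fderiv ℝ Φ x (Pi.single i 1)) π)) = ip π π / C / 2

end

/-- The Hamiltonian of an `O(a) × O(b)`-invariant metric on the unit sphere of `ℝ^a × ℝ^b`: at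
`x = (y, z)`, for the covector `(η, ζ)` with `y·η + z·ζ = 0`,
`2H = P(|y|²) |η|² + Q(|y|²) |ζ|² + S(|y|²) (y·η)²`. -/
noncomputable def blockHam {a b : ℕ} (P Q S : ℝ → ℝ)
    (z : ((Fin a ⊕ Fin b) → ℝ) × ((Fin a ⊕ Fin b) → ℝ)) : ℝ :=
  (P (∑ i, z.1 (Sum.inl i) ^ 2) * ∑ i, z.2 (Sum.inl i) ^ 2 +
    Q (∑ i, z.1 (Sum.inl i) ^ 2) * ∑ i, z.2 (Sum.inr i) ^ 2 +
    S (∑ i, z.1 (Sum.inl i) ^ 2) * (∑ i, z.1 (Sum.inl i) * z.2 (Sum.inl i)) ^ 2) / 2

end Pool.Agent.MSup
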