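import Mathlib
import Pool.Agent.MSup.Defs

/-!
Basic properties of lifts: smoothness, kernel directions.
-/

set_option autoImplicit false

open Filter Topology Set
open scoped ContDiff

namespace Pool.Agent.MSup

section
variable {ι : Type} [Fintype ι]

theorem ip_add_left (x y z : ι → ℝ) : ip (x + y) z = ip x z + ip y z := by
  simp only [ip, Pi.add_apply, add_mul, Finset.sum_add_distrib]

theorem ip_add_right (x y z : ι → ℝ) : ip x (y + z) = ip x y + ip x z := by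
  simp only [ip, Pi.add_apply, mul_add, Finset.sum_add_distrib]

theorem ip_sub_right (x y z : ι → ℝ) : ip x (y - z) = ip x y - ip x z := by
  simp only [ip, Pi.sub_apply, mul_sub, Finset.sum_sub_distrib]

theorem ip_smul_left (c : ℝ) (x y : ι → ℝ) : ip (c • x) y = c * ip x y := by
  simp only [ip, Pi.smul_apply, smul_eq_mul, Finset.mul_sum, mul_assoc]

theorem ip_smul_right (c : ℝ) (x y : ι → ℝ) : ip x (c • y) = c * ip x y := by
  simp only [ip, Pi.smul_apply, smul_eq_mul, Finset.mul_sum]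
  exact Finset.sum_congr rfl fun i _ => by ring

theorem toTS_mem {z : (ι → ℝ) × (ι → ℝ)} (hz : 0 < ip z.1 z.1) : toTS z ∈ TS ι := by
  have hr : 0 < √(ip z.1 z.1) := Real.sqrt_pos.2 hz
  have hr2 : √(ip z.1 z.1) ^ 2 = ip z.1 z.1 := Real.sq_sqrt hz.le
  constructor
  · simp only [toTS, ip_smul_left, ip_smul_right]
    have : (√(ip z.1 z.1))⁻¹ * ((√(ip z.1 z.1))⁻¹ * ip z.1 z.1) =
        (√(ip z.1 z.1) ^ 2)⁻¹ * ip z.1 z.1 := by ring
    rw [this, hr2, inv_mul_cancel₀ hz.ne']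
  · simp only [toTS, ip_smul_left, ip_smul_right, tproj, ip_sub_right]
    have h1 := hz.ne'
    have h2 := hr.ne'
    field_simp
    ring

theorem toTS_eq {z : (ι → ℝ) × (ι → ℝ)} (hz : z ∈ TS ι) : toTS z = z := by
  obtain ⟨h1, h2⟩ := hz
  simp only [toTS, tproj]
  rw [h1, h2, Real.sqrt_one]
  simp

theorem lift_eq {F : (ι → ℝ) × (ι → ℝ) → ℝ} {z : (ι → ℝ) × (ι → ℝ)} (hz : z ∈ TS ι) :
    lift F z = F z := by
  rw [lift, toTS_eq hz]

theorem tproj_add_smul {x : ι → ℝ} (hx : ip x x ≠ 0) (p : ι → ℝ) (c : ℝ) :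
    tproj x (p + c • x) = tproj x p := by
  simp only [tproj, ip_add_right, ip_smul_right]
  rw [add_div, mul_div_assoc, div_self hx, mul_one, add_smul]
  abel

theorem lift_shift (F : (ι → ℝ) × (ι → ℝ) → ℝ) {x : ι → ℝ} (hx : ip x x ≠ 0) (p : ι → ℝ) (c : ℝ) :
    lift F (x, p + c • x) = lift F (x, p) := by
  simp only [lift, toTS, tproj_add_smul hx]

theorem lift_scale (F : (ι → ℝ) × (ι → ℝ) → ℝ) {x : ι → ℝ} (hx : 0 < ip x x) (p : ι → ℝ)
    {c : ℝ} (hc : 0 < c) : lift F (c • x, c⁻¹ • p) = lift F (x, p) := by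
  have h1 : √(ip (c • x) (c • x)) = c * √(ip x x) := by
    rw [ip_smul_left, ip_smul_right, ← mul_assoc, Real.sqrt_mul (by positivity),
      Real.sqrt_mul_self hc.le]
  have h2 : tproj (c • x) (c⁻¹ • p) = c⁻¹ • tproj x p := by
    simp only [tproj, ip_smul_left, ip_smul_right, smul_sub, smul_smul]
    congr 2
    field_simp
  simp only [lift, toTS]
  rw [h1, h2]
  congr 2
  · rw [smul_smul]
    congr 1
    have : 0 < √(ip x x) := Real.sqrt_pos.2 hx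
    field_simp
  · rw [smul_smul]
    congr 1
    field_simp

theorem contDiff_ip : ContDiff ℝ ∞ fun z : (ι → ℝ) × (ι → ℝ) => ip z.1 z.2 := by
  unfold ip
  fun_prop

theorem contDiff_ip11 : ContDiff ℝ ∞ fun z : (ι → ℝ) × (ι → ℝ) => ip z.1 z.1 := by
  unfold ip
  fun_prop

theorem contDiffAt_toTS {z : (ι → ℝ) × (ι → ℝ)} (hz : 0 < ip z.1 z.1) :
    ContDiffAt ℝ ∞ (toTS (ι := ι)) z := by
  have h1 : ContDiffAt ℝ ∞ (fun z : (ι → ℝ) × (ι → ℝ) => √(ip z.1 z.1)) z :=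
    contDiff_ip11.contDiffAt.sqrt hz.ne'
  have h2 : ContDiffAt ℝ ∞ (fun z : (ι → ℝ) × (ι → ℝ) => (√(ip z.1 z.1))⁻¹) z :=
    h1.inv (Real.sqrt_pos.2 hz).ne'
  have h3 : ContDiffAt ℝ ∞ (fun z : (ι → ℝ) × (ι → ℝ) => ip z.1 z.2 / ip z.1 z.1) z :=
    contDiff_ip.contDiffAt.div contDiff_ip11.contDiffAt hz.ne'
  unfold toTS tproj
  exact (h2.smul contDiffAt_fst).prodMk (h1.smul (contDiffAt_snd.sub (h3.smul contDiffAt_fst)))

theorem eventually_ip_pos {z : (ι → ℝ) × (ι → ℝ)} (hz : 0 < ip z.1 z.1) :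
    ∀ᶠ y in 𝓝 z, 0 < ip y.1 y.1 :=
  contDiff_ip11.continuous.continuousAt.eventually (lt_mem_nhds hz)

/-- the polynomial extension -/
noncomputable def ext (d : ℕ) (K : (k : ℕ) → (Fin k → ι) → (ι → ℝ) → ℝ)
    (z : (ι → ℝ) × (ι → ℝ)) : ℝ :=
  ∑ k ∈ Finset.range (d + 1), ∑ i : Fin k → ι, K k i z.1 * ∏ j, z.2 (i j)

theorem contDiff_ext {d : ℕ} {K : (k : ℕ) → (Fin k → ι) → (ι → ℝ) → ℝ}
    (hK : ∀ k i, ContDiff ℝ ∞ (K k i)) : ContDiff ℝ ∞ (ext d K) := by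
  unfold ext
  refine ContDiff.sum fun k _ => ContDiff.sum fun i _ => ?_
  refine ((hK k i).comp contDiff_fst).mul ?_
  refine contDiff_prod fun j _ => ?_
  fun_prop

theorem contDiffAt_lift {F : (ι → ℝ) × (ι → ℝ) → ℝ} (hF : PolyInMomenta F)
    {z : (ι → ℝ) × (ι → ℝ)} (hz : 0 < ip z.1 z.1) : ContDiffAt ℝ ∞ (lift F) z := by
  obtain ⟨d, K, hK, h⟩ := hF
  have h1 : ContDiffAt ℝ ∞ (fun y => ext d K (toTS y)) z :=
    (contDiff_ext hK).contDiffAt.comp z (contDiffAt_toTS hz)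
  refine h1.congr_of_eventuallyEq ?_
  filter_upwards [eventually_ip_pos hz] with y hy
  exact h _ (toTS_mem hy)

theorem TS_pos {z : (ι → ℝ) × (ι → ℝ)} (hz : z ∈ TS ι) : 0 < ip z.1 z.1 := by
  rw [hz.1]; exact one_pos

theorem fderiv_lift_shift {F : (ι → ℝ) × (ι → ℝ) → ℝ} {z : (ι → ℝ) × (ι → ℝ)}
    (hz : 0 < ip z.1 z.1) (hd : DifferentiableAt ℝ (lift F) z) :
    fderiv ℝ (lift F) z (0, z.1) = 0 := by
  have h1 : HasDerivAt (fun c : ℝ => (z.1, z.2 + c • z.1)) ((0 : ι → ℝ), z.1) 0 := by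
    have h2 : HasDerivAt (fun c : ℝ => z.2 + c • z.1) z.1 0 := by
      simpa using ((hasDerivAt_id (0 : ℝ)).smul_const z.1).const_add z.2
    exact (hasDerivAt_const (0 : ℝ) z.1).prodMk h2
  have h3 : HasDerivAt (fun c : ℝ => lift F (z.1, z.2 + c • z.1))
      (fderiv ℝ (lift F) z (0, z.1)) 0 := by
    have h4 : HasFDerivAt (lift F) (fderiv ℝ (lift F) z) (z.1, z.2 + (0 : ℝ) • z.1) := by
      rw [zero_smul, add_zero]
      exact hd.hasFDerivAt
    exact HasFDerivAt.comp_hasDerivAt (l := lift F) (0 : ℝ) h4 h1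
  have h5 : (fun c : ℝ => lift F (z.1, z.2 + c • z.1)) = fun _ => lift F z :=
    funext fun c => lift_shift F hz.ne' z.2 c
  rw [h5] at h3
  exact h3.unique (hasDerivAt_const _ _)

theorem fderiv_lift_scale {F : (ι → ℝ) × (ι → ℝ) → ℝ} {z : (ι → ℝ) × (ι → ℝ)}
    (hz : 0 < ip z.1 z.1) (hd : DifferentiableAt ℝ (lift F) z) :
    fderiv ℝ (lift F) z (z.1, -z.2) = 0 := by
  have h1 : HasDerivAt (fun c : ℝ => (c • z.1, c⁻¹ • z.2)) (z.1, -z.2) 1 := by
    have h2 : HasDerivAt (fun c : ℝ => c • z.1) z.1 1 := by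
      simpa using (hasDerivAt_id (1 : ℝ)).smul_const z.1
    have h3 : HasDerivAt (fun c : ℝ => c⁻¹ • z.2) (-z.2) 1 := by
      have h4 := (hasDerivAt_inv (one_ne_zero : (1 : ℝ) ≠ 0)).smul_const z.2
      simpa using h4
    exact h2.prodMk h3
  have h3 : HasDerivAt (fun c : ℝ => lift F (c • z.1, c⁻¹ • z.2))
      (fderiv ℝ (lift F) z (z.1, -z.2)) 1 := by
    have h4 : HasFDerivAt (lift F) (fderiv ℝ (lift F) z) ((1 : ℝ) • z.1, (1 : ℝ)⁻¹ • z.2) := by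
      rw [inv_one, one_smul, one_smul]
      exact hd.hasFDerivAt
    exact HasFDerivAt.comp_hasDerivAt (l := lift F) (1 : ℝ) h4 h1
  have h5 : (fun c : ℝ => lift F (c • z.1, c⁻¹ • z.2)) =ᶠ[𝓝 1] fun _ => lift F z := by
    filter_upwards [lt_mem_nhds (zero_lt_one : (0 : ℝ) < 1)] with c hc
    exact lift_scale F hz z.2 hc
  exact h3.unique ((hasDerivAt_const _ _).congr_of_eventuallyEq h5)

end

section
variable {ι : Type} [Fintype ι] [DecidableEq ι]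

theorem decomp (v : (ι → ℝ) × (ι → ℝ)) :
    v = ∑ i, (v.1 i • ((Pi.single i 1 : ι → ℝ), (0 : ι → ℝ)) +
      v.2 i • ((0 : ι → ℝ), (Pi.single i 1 : ι → ℝ))) := by
  refine Prod.ext ?_ ?_
  · rw [Prod.fst_sum]
    funext j
    rw [Finset.sum_apply]
    simp [Pi.single_apply]
  · rw [Prod.snd_sum]
    funext j
    rw [Finset.sum_apply]
    simp [Pi.single_apply]

theorem clm_decomp (T : ((ι → ℝ) × (ι → ℝ)) →L[ℝ] ℝ) (v : (ι → ℝ) × (ι → ℝ)) :
    T v = ∑ i, (v.1 i * T (Pi.single i 1, 0) + v.2 i * T (0, Pi.single i 1)) := by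
  conv_lhs => rw [decomp v]
  rw [map_sum]
  refine Finset.sum_congr rfl fun i _ => ?_
  rw [map_add, map_smul, map_smul, smul_eq_mul, smul_eq_mul]

/-- the Hamiltonian vector field of the lift -/
noncomputable def XH (H : (ι → ℝ) × (ι → ℝ) → ℝ) (z : (ι → ℝ) × (ι → ℝ)) :
    (ι → ℝ) × (ι → ℝ) :=
  (fun i => fderiv ℝ (lift H) z (0, Pi.single i 1),
    fun i => -fderiv ℝ (lift H) z (Pi.single i 1, 0))

theorem bracket_eq (H F : (ι → ℝ) × (ι → ℝ) → ℝ) (z : (ι → ℝ) × (ι → ℝ)) :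
    bracket (lift H) (lift F) z = -fderiv ℝ (lift F) z (XH H z) := by
  rw [clm_decomp (fderiv ℝ (lift F) z) (XH H z), bracket, ← Finset.sum_neg_distrib]
  refine Finset.sum_congr rfl fun i _ => ?_
  simp only [XH]
  ring

theorem fderiv_XH {H F : (ι → ℝ) × (ι → ℝ) → ℝ} (h : IsIntegral H F)
    {z : (ι → ℝ) × (ι → ℝ)} (hz : z ∈ TS ι) : fderiv ℝ (lift F) z (XH H z) = 0 := by
  have h1 := h z hz
  rw [bracket_eq] at h1
  linarith

end

end Pool.Agent.MSup
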