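import Mathlib
import Pool.Agent.MSup.Lift

/-!
The lift of the block Hamiltonian and its Hamiltonian vector field.
-/

set_option autoImplicit false

open Filter Topology Set
open scoped ContDiff

namespace Pool.Agent.MSup

/-- the lift in terms of six scalars -/
noncomputable def hh (P Q S : ℝ → ℝ) (A B a b e f : ℝ) : ℝ :=
  (P (A / (A + B)) * ((A + B) * (a - 2 * ((e + f) / (A + B)) * e + ((e + f) / (A + B)) ^ 2 * A)) +
    Q (A / (A + B)) * ((A + B) * (b - 2 * ((e + f) / (A + B)) * f + ((e + f) / (A + B)) ^ 2 * B)) +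
    S (A / (A + B)) * (e - ((e + f) / (A + B)) * A) ^ 2) / 2

/-- its differential at a point with `A + B = 1`, `e + f = 0` -/
noncomputable def dh (P Q S P' Q' S' A a b e f A' B' a' b' e' f' : ℝ) : ℝ :=
  ((P' * a + Q' * b + S' * e ^ 2) * (A' - A * (A' + B')) +
    P * ((A' + B') * a + a' - 2 * e * (e' + f')) +
    Q * ((A' + B') * b + b' - 2 * f * (e' + f')) +
    S * (2 * e * (e' - A * (e' + f')))) / 2

theorem hh_deriv {P Q S : ℝ → ℝ} {P' Q' S' : ℝ} {A B a b e f : ℝ → ℝ} {A' B' a' b' e' f' t : ℝ}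
    (hP : HasDerivAt P P' (A t)) (hQ : HasDerivAt Q Q' (A t)) (hS : HasDerivAt S S' (A t))
    (hA : HasDerivAt A A' t) (hB : HasDerivAt B B' t) (ha : HasDerivAt a a' t)
    (hb : HasDerivAt b b' t) (he : HasDerivAt e e' t) (hf : HasDerivAt f f' t)
    (h1 : A t + B t = 1) (h2 : e t + f t = 0) :
    HasDerivAt (fun t => hh P Q S (A t) (B t) (a t) (b t) (e t) (f t))
      (dh (P (A t)) (Q (A t)) (S (A t)) P' Q' S' (A t) (a t) (b t) (e t) (f t)
        A' B' a' b' e' f') t := by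
  have hN : HasDerivAt (fun t => A t + B t) (A' + B') t := hA.fun_add hB
  have hN0 : A t + B t ≠ 0 := by rw [h1]; exact one_ne_zero
  have hT : HasDerivAt (fun t => A t / (A t + B t)) (A' - A t * (A' + B')) t := by
    refine (hA.fun_div hN hN0).congr_deriv ?_
    rw [h1]
    ring
  have hc : HasDerivAt (fun t => (e t + f t) / (A t + B t)) (e' + f') t := by
    refine ((he.fun_add hf).fun_div hN hN0).congr_deriv ?_
    rw [h1, h2]
    ring
  have hT0 : A t / (A t + B t) = A t := by rw [h1, div_one]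
  have hc0 : (e t + f t) / (A t + B t) = 0 := by rw [h2, zero_div]
  have cP : HasDerivAt (fun t => P (A t / (A t + B t))) (P' * (A' - A t * (A' + B'))) t := by
    have := HasDerivAt.comp (h₂ := P) t (by rw [hT0]; exact hP) hT
    exact this
  have cQ : HasDerivAt (fun t => Q (A t / (A t + B t))) (Q' * (A' - A t * (A' + B'))) t := by
    have := HasDerivAt.comp (h₂ := Q) t (by rw [hT0]; exact hQ) hT
    exact this
  have cS : HasDerivAt (fun t => S (A t / (A t + B t))) (S' * (A' - A t * (A' + B'))) t := by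
    have := HasDerivAt.comp (h₂ := S) t (by rw [hT0]; exact hS) hT
    exact this
  have t1 := cP.fun_mul (hN.fun_mul ((ha.fun_sub ((hc.const_mul 2).fun_mul he)).fun_add
    ((hc.fun_pow 2).fun_mul hA)))
  have t2 := cQ.fun_mul (hN.fun_mul ((hb.fun_sub ((hc.const_mul 2).fun_mul hf)).fun_add
    ((hc.fun_pow 2).fun_mul hB)))
  have t3 := cS.fun_mul ((he.fun_sub (hc.fun_mul hA)).fun_pow 2)
  have t4 := ((t1.fun_add t2).fun_add t3).div_const 2
  unfold hh
  refine t4.congr_deriv ?_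
  rw [hT0, hc0, h1]
  unfold dh
  push_cast
  ring

/-- the phase space -/
abbrev Ph (a b : ℕ) := ((Fin a ⊕ Fin b) → ℝ) × ((Fin a ⊕ Fin b) → ℝ)

variable {a b : ℕ}

def sA (z : Ph a b) : ℝ := ∑ i, z.1 (Sum.inl i) ^ 2
def sB (z : Ph a b) : ℝ := ∑ i, z.1 (Sum.inr i) ^ 2
def sa (z : Ph a b) : ℝ := ∑ i, z.2 (Sum.inl i) ^ 2
def sb (z : Ph a b) : ℝ := ∑ i, z.2 (Sum.inr i) ^ 2
def se (z : Ph a b) : ℝ := ∑ i, z.1 (Sum.inl i) * z.2 (Sum.inl i)
def sf (z : Ph a b) : ℝ := ∑ i, z.1 (Sum.inr i) * z.2 (Sum.inr i)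

theorem ip11 (z : Ph a b) : ip z.1 z.1 = sA z + sB z := by
  simp only [ip, Fintype.sum_sum_type, sA, sB, pow_two]

theorem ip12 (z : Ph a b) : ip z.1 z.2 = se z + sf z := by
  simp only [ip, Fintype.sum_sum_type, se, sf]

theorem lift_block (P Q S : ℝ → ℝ) {z : Ph a b} (hz : 0 < ip z.1 z.1) :
    lift (blockHam P Q S) z = hh P Q S (sA z) (sB z) (sa z) (sb z) (se z) (sf z) := by
  have hr : 0 < √(ip z.1 z.1) := Real.sqrt_pos.2 hz
  have hr2 : √(ip z.1 z.1) ^ 2 = sA z + sB z := by rw [Real.sq_sqrt hz.le, ip11]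
  have hc : ip z.1 z.2 / ip z.1 z.1 = (se z + sf z) / (sA z + sB z) := by rw [ip11, ip12]
  have hpos : 0 < sA z + sB z := by rw [← ip11]; exact hz
  simp only [lift, blockHam, toTS, tproj, hc]
  set r := √(ip z.1 z.1) with hrdef
  set c := (se z + sf z) / (sA z + sB z) with hcdef
  have e1 : ∑ i, (r⁻¹ • z.1) (Sum.inl i) ^ 2 = sA z / (sA z + sB z) := by
    rw [← hr2, div_eq_inv_mul, sA, Finset.mul_sum]
    refine Finset.sum_congr rfl fun i _ => ?_
    simp only [Pi.smul_apply, smul_eq_mul]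
    rw [mul_pow, inv_pow]
  have e2 : ∑ i, (r • (z.2 - c • z.1)) (Sum.inl i) ^ 2 =
      (sA z + sB z) * (sa z - 2 * c * se z + c ^ 2 * sA z) := by
    rw [← hr2, sa, se, sA, Finset.mul_sum, Finset.mul_sum, ← Finset.sum_sub_distrib,
      ← Finset.sum_add_distrib, Finset.mul_sum]
    refine Finset.sum_congr rfl fun i _ => ?_
    simp only [Pi.smul_apply, Pi.sub_apply, smul_eq_mul]
    ring
  have e3 : ∑ i, (r • (z.2 - c • z.1)) (Sum.inr i) ^ 2 =
      (sA z + sB z) * (sb z - 2 * c * sf z + c ^ 2 * sB z) := by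
    rw [← hr2, sb, sf, sB, Finset.mul_sum, Finset.mul_sum, ← Finset.sum_sub_distrib,
      ← Finset.sum_add_distrib, Finset.mul_sum]
    refine Finset.sum_congr rfl fun i _ => ?_
    simp only [Pi.smul_apply, Pi.sub_apply, smul_eq_mul]
    ring
  have e4 : ∑ i, (r⁻¹ • z.1) (Sum.inl i) * (r • (z.2 - c • z.1)) (Sum.inl i) =
      se z - c * sA z := by
    rw [se, sA, Finset.mul_sum, ← Finset.sum_sub_distrib]
    refine Finset.sum_congr rfl fun i _ => ?_
    simp only [Pi.smul_apply, Pi.sub_apply, smul_eq_mul]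
    field_simp
  rw [e1, e2, e3, e4]
  rfl

theorem contDiff_block {P Q S : ℝ → ℝ} (hP : ContDiff ℝ ∞ P) (hQ : ContDiff ℝ ∞ Q)
    (hS : ContDiff ℝ ∞ S) : ContDiff ℝ ∞ (blockHam P Q S : Ph a b → ℝ) := by
  unfold blockHam
  fun_prop

theorem contDiffAt_lift_block {P Q S : ℝ → ℝ} (hP : ContDiff ℝ ∞ P) (hQ : ContDiff ℝ ∞ Q)
    (hS : ContDiff ℝ ∞ S) {z : Ph a b} (hz : 0 < ip z.1 z.1) :
    ContDiffAt ℝ ∞ (lift (blockHam P Q S)) z :=
  (contDiff_block hP hQ hS).contDiffAt.comp z (contDiffAt_toTS hz)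

theorem fderiv_lift_block {P Q S : ℝ → ℝ} (hP : ContDiff ℝ ∞ P) (hQ : ContDiff ℝ ∞ Q)
    (hS : ContDiff ℝ ∞ S) {z : Ph a b} (hz : z ∈ TS (Fin a ⊕ Fin b)) (v : Ph a b) :
    fderiv ℝ (lift (blockHam P Q S)) z v =
      dh (P (sA z)) (Q (sA z)) (S (sA z)) (deriv P (sA z)) (deriv Q (sA z)) (deriv S (sA z))
        (sA z) (sa z) (sb z) (se z) (sf z)
        (∑ i, 2 * z.1 (Sum.inl i) * v.1 (Sum.inl i)) (∑ i, 2 * z.1 (Sum.inr i) * v.1 (Sum.inr i))
        (∑ i, 2 * z.2 (Sum.inl i) * v.2 (Sum.inl i)) (∑ i, 2 * z.2 (Sum.inr i) * v.2 (Sum.inr i))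
        (∑ i, (v.1 (Sum.inl i) * z.2 (Sum.inl i) + z.1 (Sum.inl i) * v.2 (Sum.inl i)))
        (∑ i, (v.1 (Sum.inr i) * z.2 (Sum.inr i) + z.1 (Sum.inr i) * v.2 (Sum.inr i))) := by
  have hz0 := TS_pos hz
  have hd : DifferentiableAt ℝ (lift (blockHam P Q S)) z :=
    (contDiffAt_lift_block hP hQ hS hz0).differentiableAt (by simp)
  have hl : HasDerivAt (fun t : ℝ => z + t • v) v 0 := by
    simpa using ((hasDerivAt_id (0 : ℝ)).smul_const v).const_add z
  have h1 : HasDerivAt (fun t : ℝ => lift (blockHam P Q S) (z + t • v))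
      (fderiv ℝ (lift (blockHam P Q S)) z v) 0 := by
    have h4 : HasFDerivAt (lift (blockHam P Q S)) (fderiv ℝ (lift (blockHam P Q S)) z)
        (z + (0 : ℝ) • v) := by
      rw [zero_smul, add_zero]
      exact hd.hasFDerivAt
    exact HasFDerivAt.comp_hasDerivAt (l := lift (blockHam P Q S)) (0 : ℝ) h4 hl
  have hc1 : ∀ i, HasDerivAt (fun t : ℝ => (z + t • v).1 i) (v.1 i) 0 := by
    intro i
    have := ((hasDerivAt_id (0 : ℝ)).mul_const (v.1 i)).const_add (z.1 i)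
    simpa using this
  have hc2 : ∀ i, HasDerivAt (fun t : ℝ => (z + t • v).2 i) (v.2 i) 0 := by
    intro i
    have := ((hasDerivAt_id (0 : ℝ)).mul_const (v.2 i)).const_add (z.2 i)
    simpa using this
  have z0 : z + (0 : ℝ) • v = z := by rw [zero_smul, add_zero]
  have dA : HasDerivAt (fun t : ℝ => sA (z + t • v))
      (∑ i, 2 * z.1 (Sum.inl i) * v.1 (Sum.inl i)) 0 := by
    have := HasDerivAt.fun_sum (u := Finset.univ)
      fun i _ => (hc1 (Sum.inl i : Fin a ⊕ Fin b)).fun_pow 2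
    refine this.congr_deriv (Finset.sum_congr rfl fun i _ => ?_)
    rw [z0]; push_cast; ring
  have dB : HasDerivAt (fun t : ℝ => sB (z + t • v))
      (∑ i, 2 * z.1 (Sum.inr i) * v.1 (Sum.inr i)) 0 := by
    have := HasDerivAt.fun_sum (u := Finset.univ)
      fun i _ => (hc1 (Sum.inr i : Fin a ⊕ Fin b)).fun_pow 2
    refine this.congr_deriv (Finset.sum_congr rfl fun i _ => ?_)
    rw [z0]; push_cast; ring
  have da : HasDerivAt (fun t : ℝ => sa (z + t • v))
      (∑ i, 2 * z.2 (Sum.inl i) * v.2 (Sum.inl i)) 0 := by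
    have := HasDerivAt.fun_sum (u := Finset.univ)
      fun i _ => (hc2 (Sum.inl i : Fin a ⊕ Fin b)).fun_pow 2
    refine this.congr_deriv (Finset.sum_congr rfl fun i _ => ?_)
    rw [z0]; push_cast; ring
  have db : HasDerivAt (fun t : ℝ => sb (z + t • v))
      (∑ i, 2 * z.2 (Sum.inr i) * v.2 (Sum.inr i)) 0 := by
    have := HasDerivAt.fun_sum (u := Finset.univ)
      fun i _ => (hc2 (Sum.inr i : Fin a ⊕ Fin b)).fun_pow 2
    refine this.congr_deriv (Finset.sum_congr rfl fun i _ => ?_)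
    rw [z0]; push_cast; ring
  have de : HasDerivAt (fun t : ℝ => se (z + t • v))
      (∑ i, (v.1 (Sum.inl i) * z.2 (Sum.inl i) + z.1 (Sum.inl i) * v.2 (Sum.inl i))) 0 := by
    have := HasDerivAt.fun_sum (u := Finset.univ)
      fun i _ => (hc1 (Sum.inl i : Fin a ⊕ Fin b)).fun_mul (hc2 (Sum.inl i))
    refine this.congr_deriv (Finset.sum_congr rfl fun i _ => ?_)
    rw [z0]
  have df : HasDerivAt (fun t : ℝ => sf (z + t • v))
      (∑ i, (v.1 (Sum.inr i) * z.2 (Sum.inr i) + z.1 (Sum.inr i) * v.2 (Sum.inr i))) 0 := by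
    have := HasDerivAt.fun_sum (u := Finset.univ)
      fun i _ => (hc1 (Sum.inr i : Fin a ⊕ Fin b)).fun_mul (hc2 (Sum.inr i))
    refine this.congr_deriv (Finset.sum_congr rfl fun i _ => ?_)
    rw [z0]
  have hP' : HasDerivAt P (deriv P (sA (z + (0 : ℝ) • v))) (sA (z + (0 : ℝ) • v)) :=
    (hP.differentiable (by simp) _).hasDerivAt
  have hQ' : HasDerivAt Q (deriv Q (sA (z + (0 : ℝ) • v))) (sA (z + (0 : ℝ) • v)) :=
    (hQ.differentiable (by simp) _).hasDerivAt
  have hS' : HasDerivAt S (deriv S (sA (z + (0 : ℝ) • v))) (sA (z + (0 : ℝ) • v)) :=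
    (hS.differentiable (by simp) _).hasDerivAt
  have h2 := hh_deriv hP' hQ' hS' dA dB da db de df (by rw [z0, ← ip11]; exact hz.1)
    (by rw [z0, ← ip12]; exact hz.2)
  have h3 : (fun t : ℝ => lift (blockHam P Q S) (z + t • v)) =ᶠ[𝓝 0]
      fun t => hh P Q S (sA (z + t • v)) (sB (z + t • v)) (sa (z + t • v)) (sb (z + t • v))
        (se (z + t • v)) (sf (z + t • v)) := by
    have h4 : ContinuousAt (fun t : ℝ => z + t • v) 0 := hl.continuousAt
    have h5 : ∀ᶠ t : ℝ in 𝓝 0, 0 < ip (z + t • v).1 (z + t • v).1 := by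
      refine h4.eventually (p := fun y : Ph a b => 0 < ip y.1 y.1) ?_
      change ∀ᶠ y : Ph a b in 𝓝 (z + (0 : ℝ) • v), 0 < ip y.1 y.1
      rw [z0]
      exact eventually_ip_pos hz0
    filter_upwards [h5] with t ht using lift_block P Q S ht
  have h6 := h1.unique (h2.congr_of_eventuallyEq h3)
  rw [h6, z0]

/-- scalar coefficients of the Hamiltonian vector field -/
noncomputable def MM (P Q S : ℝ → ℝ) (z : Ph a b) : ℝ :=
  deriv P (sA z) * sa z + deriv Q (sA z) * sb z + deriv S (sA z) * se z ^ 2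

theorem XH_block_fst_inl {P Q S : ℝ → ℝ} (hP : ContDiff ℝ ∞ P) (hQ : ContDiff ℝ ∞ Q)
    (hS : ContDiff ℝ ∞ S) {z : Ph a b} (hz : z ∈ TS (Fin a ⊕ Fin b)) (j : Fin a) :
    (XH (blockHam P Q S) z).1 (Sum.inl j) = P (sA z) * z.2 (Sum.inl j) +
      (-P (sA z) + Q (sA z) + S (sA z) * (1 - sA z)) * se z * z.1 (Sum.inl j) := by
  have h2 : sf z = -se z := by
    have := hz.2
    rw [ip12] at this
    linarith
  simp only [XH]
  rw [fderiv_lift_block hP hQ hS hz]
  simp only [Pi.single_apply, Sum.inl.injEq, reduceCtorEq, if_false, mul_zero,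
    mul_ite, mul_one, Finset.sum_ite_eq', Finset.mem_univ, if_true, Pi.zero_apply, zero_mul,
    zero_add, Finset.sum_const_zero, add_zero, dh, h2]
  ring

theorem XH_block_fst_inr {P Q S : ℝ → ℝ} (hP : ContDiff ℝ ∞ P) (hQ : ContDiff ℝ ∞ Q)
    (hS : ContDiff ℝ ∞ S) {z : Ph a b} (hz : z ∈ TS (Fin a ⊕ Fin b)) (j : Fin b) :
    (XH (blockHam P Q S) z).1 (Sum.inr j) = Q (sA z) * z.2 (Sum.inr j) +
      (-P (sA z) + Q (sA z) - S (sA z) * sA z) * se z * z.1 (Sum.inr j) := by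
  have h2 : sf z = -se z := by
    have := hz.2
    rw [ip12] at this
    linarith
  simp only [XH]
  rw [fderiv_lift_block hP hQ hS hz]
  simp only [Pi.single_apply, Sum.inr.injEq, reduceCtorEq, if_false, mul_zero,
    mul_ite, mul_one, Finset.sum_ite_eq', Finset.mem_univ, if_true, Pi.zero_apply, zero_mul,
    zero_add, Finset.sum_const_zero, add_zero, dh, h2]
  ring

theorem XH_block_snd_inl {P Q S : ℝ → ℝ} (hP : ContDiff ℝ ∞ P) (hQ : ContDiff ℝ ∞ Q)
    (hS : ContDiff ℝ ∞ S) {z : Ph a b} (hz : z ∈ TS (Fin a ⊕ Fin b)) (j : Fin a) :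
    (XH (blockHam P Q S) z).2 (Sum.inl j) =
      -(MM P Q S z * (1 - sA z) + P (sA z) * sa z + Q (sA z) * sb z) * z.1 (Sum.inl j) +
      (P (sA z) - Q (sA z) - S (sA z) * (1 - sA z)) * se z * z.2 (Sum.inl j) := by
  have h2 : sf z = -se z := by
    have := hz.2
    rw [ip12] at this
    linarith
  simp only [XH]
  rw [fderiv_lift_block hP hQ hS hz]
  simp only [Pi.single_apply, Sum.inl.injEq, reduceCtorEq, if_false, mul_zero, ite_mul, one_mul,
    mul_ite, mul_one, Finset.sum_ite_eq', Finset.mem_univ, if_true, Pi.zero_apply, zero_mul,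
    Finset.sum_const_zero, add_zero, dh, h2, MM]
  ring

theorem XH_block_snd_inr {P Q S : ℝ → ℝ} (hP : ContDiff ℝ ∞ P) (hQ : ContDiff ℝ ∞ Q)
    (hS : ContDiff ℝ ∞ S) {z : Ph a b} (hz : z ∈ TS (Fin a ⊕ Fin b)) (j : Fin b) :
    (XH (blockHam P Q S) z).2 (Sum.inr j) =
      (MM P Q S z * sA z - P (sA z) * sa z - Q (sA z) * sb z) * z.1 (Sum.inr j) +
      (P (sA z) - Q (sA z) + S (sA z) * sA z) * se z * z.2 (Sum.inr j) := by
  have h2 : sf z = -se z := by
    have := hz.2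
    rw [ip12] at this
    linarith
  simp only [XH]
  rw [fderiv_lift_block hP hQ hS hz]
  simp only [Pi.single_apply, Sum.inr.injEq, reduceCtorEq, if_false, mul_zero, ite_mul, one_mul,
    mul_ite, mul_one, Finset.sum_ite_eq', Finset.mem_univ, if_true, Pi.zero_apply, zero_mul,
    zero_add, Finset.sum_const_zero, add_zero, dh, h2, MM]
  ring

end Pool.Agent.MSup
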