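import Mathlib
import Pool.Agent.MSup.Block

/-!
Coordinates on the invariant three-spheres.
-/

set_option autoImplicit false

open Filter Topology Set
open scoped ContDiff

namespace Pool.Agent.MSup

/-- Orthonormal pairs in the two blocks. -/
structure Frame (a b : ℕ) where
  e1 : Fin a → ℝ
  e2 : Fin a → ℝ
  f1 : Fin b → ℝ
  f2 : Fin b → ℝ
  he11 : ∑ i, e1 i * e1 i = 1
  he22 : ∑ i, e2 i * e2 i = 1
  he12 : ∑ i, e1 i * e2 i = 0
  hf11 : ∑ i, f1 i * f1 i = 1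
  hf22 : ∑ i, f2 i * f2 i = 1
  hf12 : ∑ i, f1 i * f2 i = 0

namespace Frame

variable {a b : ℕ} (R : Frame a b)

noncomputable def er (θ : ℝ) (j : Fin a) : ℝ := Real.cos θ * R.e1 j + Real.sin θ * R.e2 j
noncomputable def et (θ : ℝ) (j : Fin a) : ℝ := -Real.sin θ * R.e1 j + Real.cos θ * R.e2 j
noncomputable def fr (φ : ℝ) (j : Fin b) : ℝ := Real.cos φ * R.f1 j + Real.sin φ * R.f2 j
noncomputable def ft (φ : ℝ) (j : Fin b) : ℝ := -Real.sin φ * R.f1 j + Real.cos φ * R.f2 j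

theorem sum_er_er (θ : ℝ) : ∑ j, R.er θ j * R.er θ j = 1 := by
  have h : ∀ j, R.er θ j * R.er θ j = Real.cos θ ^ 2 * (R.e1 j * R.e1 j) +
      2 * (Real.cos θ * Real.sin θ) * (R.e1 j * R.e2 j) + Real.sin θ ^ 2 * (R.e2 j * R.e2 j) :=
    fun j => by unfold er; ring
  simp only [h, Finset.sum_add_distrib, ← Finset.mul_sum, R.he11, R.he22, R.he12]
  linarith [Real.sin_sq_add_cos_sq θ]

theorem sum_et_et (θ : ℝ) : ∑ j, R.et θ j * R.et θ j = 1 := by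
  have h : ∀ j, R.et θ j * R.et θ j = Real.sin θ ^ 2 * (R.e1 j * R.e1 j) +
      -2 * (Real.cos θ * Real.sin θ) * (R.e1 j * R.e2 j) + Real.cos θ ^ 2 * (R.e2 j * R.e2 j) :=
    fun j => by unfold et; ring
  simp only [h, Finset.sum_add_distrib, ← Finset.mul_sum, R.he11, R.he22, R.he12]
  linarith [Real.sin_sq_add_cos_sq θ]

theorem sum_er_et (θ : ℝ) : ∑ j, R.er θ j * R.et θ j = 0 := by
  have h : ∀ j, R.er θ j * R.et θ j = -(Real.cos θ * Real.sin θ) * (R.e1 j * R.e1 j) +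
      (Real.cos θ ^ 2 - Real.sin θ ^ 2) * (R.e1 j * R.e2 j) +
      (Real.cos θ * Real.sin θ) * (R.e2 j * R.e2 j) :=
    fun j => by unfold er et; ring
  simp only [h, Finset.sum_add_distrib, ← Finset.mul_sum, R.he11, R.he22, R.he12]
  ring

theorem sum_fr_fr (φ : ℝ) : ∑ j, R.fr φ j * R.fr φ j = 1 := by
  have h : ∀ j, R.fr φ j * R.fr φ j = Real.cos φ ^ 2 * (R.f1 j * R.f1 j) +
      2 * (Real.cos φ * Real.sin φ) * (R.f1 j * R.f2 j) + Real.sin φ ^ 2 * (R.f2 j * R.f2 j) :=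
    fun j => by unfold fr; ring
  simp only [h, Finset.sum_add_distrib, ← Finset.mul_sum, R.hf11, R.hf22, R.hf12]
  linarith [Real.sin_sq_add_cos_sq φ]

theorem sum_ft_ft (φ : ℝ) : ∑ j, R.ft φ j * R.ft φ j = 1 := by
  have h : ∀ j, R.ft φ j * R.ft φ j = Real.sin φ ^ 2 * (R.f1 j * R.f1 j) +
      -2 * (Real.cos φ * Real.sin φ) * (R.f1 j * R.f2 j) + Real.cos φ ^ 2 * (R.f2 j * R.f2 j) :=
    fun j => by unfold ft; ring
  simp only [h, Finset.sum_add_distrib, ← Finset.mul_sum, R.hf11, R.hf22, R.hf12]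
  linarith [Real.sin_sq_add_cos_sq φ]

theorem sum_fr_ft (φ : ℝ) : ∑ j, R.fr φ j * R.ft φ j = 0 := by
  have h : ∀ j, R.fr φ j * R.ft φ j = -(Real.cos φ * Real.sin φ) * (R.f1 j * R.f1 j) +
      (Real.cos φ ^ 2 - Real.sin φ ^ 2) * (R.f1 j * R.f2 j) +
      (Real.cos φ * Real.sin φ) * (R.f2 j * R.f2 j) :=
    fun j => by unfold fr ft; ring
  simp only [h, Finset.sum_add_distrib, ← Finset.mul_sum, R.hf11, R.hf22, R.hf12]
  ring

/-- the point of the sphere -/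
noncomputable def X (ψ θ φ : ℝ) : (Fin a ⊕ Fin b) → ℝ :=
  Sum.elim (fun j => Real.sin ψ * R.er θ j) (fun j => Real.cos ψ * R.fr φ j)

/-- the covector -/
noncomputable def Pm (ψ θ φ p L K : ℝ) : (Fin a ⊕ Fin b) → ℝ :=
  Sum.elim (fun j => p * (Real.cos ψ * R.er θ j) + L / Real.sin ψ * R.et θ j)
    (fun j => p * (-Real.sin ψ * R.fr φ j) + K / Real.cos ψ * R.ft φ j)

noncomputable def Psi (ψ θ φ p L K : ℝ) : Ph a b := (R.X ψ θ φ, R.Pm ψ θ φ p L K)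

theorem sA_Psi (ψ θ φ p L K : ℝ) : sA (R.Psi ψ θ φ p L K) = Real.sin ψ ^ 2 := by
  have h : ∀ j, (Real.sin ψ * R.er θ j) ^ 2 = Real.sin ψ ^ 2 * (R.er θ j * R.er θ j) :=
    fun j => by ring
  simp only [sA, Psi, X, Sum.elim_inl, h, ← Finset.mul_sum, sum_er_er, mul_one]

theorem sB_Psi (ψ θ φ p L K : ℝ) : sB (R.Psi ψ θ φ p L K) = Real.cos ψ ^ 2 := by
  have h : ∀ j, (Real.cos ψ * R.fr φ j) ^ 2 = Real.cos ψ ^ 2 * (R.fr φ j * R.fr φ j) :=
    fun j => by ring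
  simp only [sB, Psi, X, Sum.elim_inr, h, ← Finset.mul_sum, sum_fr_fr, mul_one]

theorem sa_Psi (ψ θ φ p L K : ℝ) : sa (R.Psi ψ θ φ p L K) =
    p ^ 2 * Real.cos ψ ^ 2 + (L / Real.sin ψ) ^ 2 := by
  have h : ∀ j, (p * (Real.cos ψ * R.er θ j) + L / Real.sin ψ * R.et θ j) ^ 2 =
      p ^ 2 * Real.cos ψ ^ 2 * (R.er θ j * R.er θ j) +
      2 * p * Real.cos ψ * (L / Real.sin ψ) * (R.er θ j * R.et θ j) +
      (L / Real.sin ψ) ^ 2 * (R.et θ j * R.et θ j) := fun j => by ring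
  simp only [sa, Psi, Pm, Sum.elim_inl, h, Finset.sum_add_distrib, ← Finset.mul_sum, sum_er_er,
    sum_et_et, sum_er_et, mul_one, mul_zero, add_zero]

theorem sb_Psi (ψ θ φ p L K : ℝ) : sb (R.Psi ψ θ φ p L K) =
    p ^ 2 * Real.sin ψ ^ 2 + (K / Real.cos ψ) ^ 2 := by
  have h : ∀ j, (p * (-Real.sin ψ * R.fr φ j) + K / Real.cos ψ * R.ft φ j) ^ 2 =
      p ^ 2 * Real.sin ψ ^ 2 * (R.fr φ j * R.fr φ j) +
      -2 * p * Real.sin ψ * (K / Real.cos ψ) * (R.fr φ j * R.ft φ j) +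
      (K / Real.cos ψ) ^ 2 * (R.ft φ j * R.ft φ j) := fun j => by ring
  simp only [sb, Psi, Pm, Sum.elim_inr, h, Finset.sum_add_distrib, ← Finset.mul_sum, sum_fr_fr,
    sum_ft_ft, sum_fr_ft, mul_one, mul_zero, add_zero]

theorem se_Psi (ψ θ φ p L K : ℝ) : se (R.Psi ψ θ φ p L K) = p * Real.sin ψ * Real.cos ψ := by
  have h : ∀ j, Real.sin ψ * R.er θ j * (p * (Real.cos ψ * R.er θ j) +
      L / Real.sin ψ * R.et θ j) = p * Real.sin ψ * Real.cos ψ * (R.er θ j * R.er θ j) +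
      Real.sin ψ * (L / Real.sin ψ) * (R.er θ j * R.et θ j) := fun j => by ring
  simp only [se, Psi, X, Pm, Sum.elim_inl, h, Finset.sum_add_distrib, ← Finset.mul_sum, sum_er_er,
    sum_er_et, mul_one, mul_zero, add_zero]

theorem sf_Psi (ψ θ φ p L K : ℝ) : sf (R.Psi ψ θ φ p L K) = -(p * Real.sin ψ * Real.cos ψ) := by
  have h : ∀ j, Real.cos ψ * R.fr φ j * (p * (-Real.sin ψ * R.fr φ j) +
      K / Real.cos ψ * R.ft φ j) = -(p * Real.sin ψ * Real.cos ψ) * (R.fr φ j * R.fr φ j) +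
      Real.cos ψ * (K / Real.cos ψ) * (R.fr φ j * R.ft φ j) := fun j => by ring
  simp only [sf, Psi, X, Pm, Sum.elim_inr, h, Finset.sum_add_distrib, ← Finset.mul_sum, sum_fr_fr,
    sum_fr_ft, mul_one, mul_zero, add_zero]

theorem Psi_mem (ψ θ φ p L K : ℝ) : R.Psi ψ θ φ p L K ∈ TS (Fin a ⊕ Fin b) := by
  constructor
  · rw [ip11, sA_Psi, sB_Psi, Real.sin_sq_add_cos_sq]
  · rw [ip12, se_Psi, sf_Psi]; ring

/-- derivative of `Psi` along a straight line in the coordinates, `L` and `K` being fixed -/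
noncomputable def dPsi (ψ θ φ p L K dψ dθ dφ dp : ℝ) : Ph a b :=
  (Sum.elim (fun j => Real.cos ψ * dψ * R.er θ j + Real.sin ψ * dθ * R.et θ j)
    (fun j => -Real.sin ψ * dψ * R.fr φ j + Real.cos ψ * dφ * R.ft φ j),
   Sum.elim (fun j => (dp * Real.cos ψ - p * Real.sin ψ * dψ - L / Real.sin ψ * dθ) * R.er θ j +
      (p * Real.cos ψ * dθ - L * Real.cos ψ / Real.sin ψ ^ 2 * dψ) * R.et θ j)
    (fun j => (-(dp * Real.sin ψ) - p * Real.cos ψ * dψ - K / Real.cos ψ * dφ) * R.fr φ j +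
      (-(p * Real.sin ψ * dφ) + K * Real.sin ψ / Real.cos ψ ^ 2 * dψ) * R.ft φ j))

theorem hasDerivAt_Psi {ψ : ℝ} (hs : Real.sin ψ ≠ 0) (hc : Real.cos ψ ≠ 0)
    (θ φ p L K dψ dθ dφ dp : ℝ) :
    HasDerivAt (fun t : ℝ => R.Psi (ψ + t * dψ) (θ + t * dθ) (φ + t * dφ) (p + t * dp) L K)
      (R.dPsi ψ θ φ p L K dψ dθ dφ dp) 0 := by
  have hlin : ∀ x dx : ℝ, HasDerivAt (fun t : ℝ => x + t * dx) dx 0 := by
    intro x dx
    simpa using ((hasDerivAt_id (0 : ℝ)).mul_const dx).const_add x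
  have h0 : ∀ x dx : ℝ, x + (0 : ℝ) * dx = x := fun x dx => by ring
  have hsψ := (hlin ψ dψ).sin
  have hcψ := (hlin ψ dψ).cos
  have hsθ := (hlin θ dθ).sin
  have hcθ := (hlin θ dθ).cos
  have hsφ := (hlin φ dφ).sin
  have hcφ := (hlin φ dφ).cos
  have hp := hlin p dp
  rw [h0] at hsψ hcψ hsθ hcθ hsφ hcφ
  have her : ∀ j, HasDerivAt (fun t : ℝ => R.er (θ + t * dθ) j) (dθ * R.et θ j) 0 := by
    intro j
    have := (hcθ.mul_const (R.e1 j)).fun_add (hsθ.mul_const (R.e2 j))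
    refine this.congr_deriv ?_
    unfold et
    ring
  have het : ∀ j, HasDerivAt (fun t : ℝ => R.et (θ + t * dθ) j) (-(dθ * R.er θ j)) 0 := by
    intro j
    have := (hsθ.fun_neg.mul_const (R.e1 j)).fun_add (hcθ.mul_const (R.e2 j))
    refine this.congr_deriv ?_
    unfold er
    ring
  have hfr : ∀ j, HasDerivAt (fun t : ℝ => R.fr (φ + t * dφ) j) (dφ * R.ft φ j) 0 := by
    intro j
    have := (hcφ.mul_const (R.f1 j)).fun_add (hsφ.mul_const (R.f2 j))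
    refine this.congr_deriv ?_
    unfold ft
    ring
  have hft : ∀ j, HasDerivAt (fun t : ℝ => R.ft (φ + t * dφ) j) (-(dφ * R.fr φ j)) 0 := by
    intro j
    have := (hsφ.fun_neg.mul_const (R.f1 j)).fun_add (hcφ.mul_const (R.f2 j))
    refine this.congr_deriv ?_
    unfold fr
    ring
  refine HasDerivAt.prodMk ?_ ?_
  · rw [hasDerivAt_pi]
    rintro (j | j)
    · refine (hsψ.fun_mul (her j)).congr_deriv ?_
      simp only [Sum.elim_inl, h0]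
      ring
    · refine (hcψ.fun_mul (hfr j)).congr_deriv ?_
      simp only [Sum.elim_inr, h0]
      ring
  · rw [hasDerivAt_pi]
    rintro (j | j)
    · have hs' : Real.sin (ψ + 0 * dψ) ≠ 0 := by rw [h0]; exact hs
      refine ((hp.fun_mul (hcψ.fun_mul (her j))).fun_add
        (((hasDerivAt_const (0 : ℝ) L).fun_div hsψ hs').fun_mul (het j))).congr_deriv ?_
      simp only [Sum.elim_inl, h0]
      field_simp
      ring
    · have hc' : Real.cos (ψ + 0 * dψ) ≠ 0 := by rw [h0]; exact hc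
      refine ((hp.fun_mul (hsψ.fun_neg.fun_mul (hfr j))).fun_add
        (((hasDerivAt_const (0 : ℝ) K).fun_div hcψ hc').fun_mul (hft j))).congr_deriv ?_
      simp only [Sum.elim_inr, h0]
      field_simp
      ring

end Frame

/-! ### The reduced Hamiltonian -/

section
variable (P Q S : ℝ → ℝ)

noncomputable def wF (ψ : ℝ) : ℝ :=
  P (Real.sin ψ ^ 2) * Real.cos ψ ^ 2 + Q (Real.sin ψ ^ 2) * Real.sin ψ ^ 2 +
    S (Real.sin ψ ^ 2) * (Real.sin ψ ^ 2 * Real.cos ψ ^ 2)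

noncomputable def w1F (ψ : ℝ) : ℝ :=
  2 * Real.sin ψ * Real.cos ψ * (deriv P (Real.sin ψ ^ 2) * Real.cos ψ ^ 2 - P (Real.sin ψ ^ 2) +
    deriv Q (Real.sin ψ ^ 2) * Real.sin ψ ^ 2 + Q (Real.sin ψ ^ 2) +
    deriv S (Real.sin ψ ^ 2) * (Real.sin ψ ^ 2 * Real.cos ψ ^ 2) +
    S (Real.sin ψ ^ 2) * (Real.cos ψ ^ 2 - Real.sin ψ ^ 2))

noncomputable def uF (ψ : ℝ) : ℝ := P (Real.sin ψ ^ 2) / Real.sin ψ ^ 2

noncomputable def u1F (ψ : ℝ) : ℝ :=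
  2 * Real.cos ψ * (deriv P (Real.sin ψ ^ 2) * Real.sin ψ ^ 2 - P (Real.sin ψ ^ 2)) /
    Real.sin ψ ^ 3

noncomputable def vF (ψ : ℝ) : ℝ := Q (Real.sin ψ ^ 2) / Real.cos ψ ^ 2

noncomputable def v1F (ψ : ℝ) : ℝ :=
  2 * Real.sin ψ * (deriv Q (Real.sin ψ ^ 2) * Real.cos ψ ^ 2 + Q (Real.sin ψ ^ 2)) /
    Real.cos ψ ^ 3

end

theorem dPsi_eq_XH {a b : ℕ} (R : Frame a b) {P Q S : ℝ → ℝ} (hP : ContDiff ℝ ∞ P)
    (hQ : ContDiff ℝ ∞ Q) (hS : ContDiff ℝ ∞ S) {ψ : ℝ} (hs : Real.sin ψ ≠ 0)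
    (hc : Real.cos ψ ≠ 0) (θ φ p L K : ℝ) :
    R.dPsi ψ θ φ p L K (wF P Q S ψ * p) (uF P ψ * L) (vF Q ψ * K)
      (-(w1F P Q S ψ * p ^ 2 + (u1F P ψ * L ^ 2 + v1F Q ψ * K ^ 2)) / 2) =
      XH (blockHam P Q S) (R.Psi ψ θ φ p L K) := by
  have hz := R.Psi_mem ψ θ φ p L K
  have c2 : Real.cos ψ ^ 2 = 1 - Real.sin ψ ^ 2 := Real.cos_sq' ψ
  have c3 : Real.cos ψ ^ 3 = Real.cos ψ * (1 - Real.sin ψ ^ 2) := by rw [← c2]; ring
  have c4 : Real.cos ψ ^ 4 = (1 - Real.sin ψ ^ 2) ^ 2 := by rw [← c2]; ring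
  have c5 : Real.cos ψ ^ 5 = Real.cos ψ * (1 - Real.sin ψ ^ 2) ^ 2 := by rw [← c2]; ring
  have c6 : Real.cos ψ ^ 6 = (1 - Real.sin ψ ^ 2) ^ 3 := by rw [← c2]; ring
  have c7 : Real.cos ψ ^ 7 = Real.cos ψ * (1 - Real.sin ψ ^ 2) ^ 3 := by rw [← c2]; ring
  have c8 : Real.cos ψ ^ 8 = (1 - Real.sin ψ ^ 2) ^ 4 := by rw [← c2]; ring
  refine Prod.ext (funext ?_) (funext ?_)
  · rintro (j | j)
    · rw [XH_block_fst_inl hP hQ hS hz, R.sA_Psi, R.se_Psi]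
      simp only [Frame.dPsi, Frame.Psi, Frame.X, Frame.Pm, Sum.elim_inl, wF, uF]
      field_simp
      ring_nf
      simp only [c2, c3, c4, c5]
      ring
    · rw [XH_block_fst_inr hP hQ hS hz, R.sA_Psi, R.se_Psi]
      simp only [Frame.dPsi, Frame.Psi, Frame.X, Frame.Pm, Sum.elim_inr, wF, vF]
      field_simp
      ring_nf
      simp only [c2, c3, c4, c5]
      ring
  · rintro (j | j)
    · rw [XH_block_snd_inl hP hQ hS hz, MM, R.sA_Psi, R.se_Psi, R.sa_Psi, R.sb_Psi]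
      simp only [Frame.dPsi, Frame.Psi, Frame.X, Frame.Pm, Sum.elim_inl, wF, uF, w1F, u1F, v1F]
      field_simp
      ring_nf
      simp only [c2, c3, c4, c5, c6, c7, c8]
      ring
    · rw [XH_block_snd_inr hP hQ hS hz, MM, R.sA_Psi, R.se_Psi, R.sa_Psi, R.sb_Psi]
      simp only [Frame.dPsi, Frame.Psi, Frame.X, Frame.Pm, Sum.elim_inr, wF, vF, w1F, u1F, v1F]
      field_simp
      ring_nf
      simp only [c2, c3, c4, c5, c6, c7, c8]
      ring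

end Pool.Agent.MSup
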