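import Mathlib
import Pool.Agent.MSup.Psi

/-!
Linear algebra at a generic point.
-/

set_option autoImplicit false

open Filter Topology Set
open scoped ContDiff

namespace Pool.Agent.MSup

variable {a b : ℕ}

namespace Frame

variable (R : Frame a b)

theorem er_et_indep (θ x y : ℝ) (h : ∀ j, x * R.er θ j + y * R.et θ j = 0) : x = 0 ∧ y = 0 := by
  constructor
  · have h1 : ∑ j, (x * R.er θ j + y * R.et θ j) * R.er θ j = 0 :=
      Finset.sum_eq_zero fun j _ => by rw [h j, zero_mul]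
    have h2 : ∑ j, (x * R.er θ j + y * R.et θ j) * R.er θ j =
        x * ∑ j, R.er θ j * R.er θ j + y * ∑ j, R.er θ j * R.et θ j := by
      rw [Finset.mul_sum, Finset.mul_sum, ← Finset.sum_add_distrib]
      exact Finset.sum_congr rfl fun j _ => by ring
    rw [h2, R.sum_er_er, R.sum_er_et] at h1
    linarith
  · have h1 : ∑ j, (x * R.er θ j + y * R.et θ j) * R.et θ j = 0 :=
      Finset.sum_eq_zero fun j _ => by rw [h j, zero_mul]
    have h2 : ∑ j, (x * R.er θ j + y * R.et θ j) * R.et θ j =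
        x * ∑ j, R.er θ j * R.et θ j + y * ∑ j, R.et θ j * R.et θ j := by
      rw [Finset.mul_sum, Finset.mul_sum, ← Finset.sum_add_distrib]
      exact Finset.sum_congr rfl fun j _ => by ring
    rw [h2, R.sum_et_et, R.sum_er_et] at h1
    linarith

theorem fr_ft_indep (φ x y : ℝ) (h : ∀ j, x * R.fr φ j + y * R.ft φ j = 0) : x = 0 ∧ y = 0 := by
  constructor
  · have h1 : ∑ j, (x * R.fr φ j + y * R.ft φ j) * R.fr φ j = 0 :=
      Finset.sum_eq_zero fun j _ => by rw [h j, zero_mul]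
    have h2 : ∑ j, (x * R.fr φ j + y * R.ft φ j) * R.fr φ j =
        x * ∑ j, R.fr φ j * R.fr φ j + y * ∑ j, R.fr φ j * R.ft φ j := by
      rw [Finset.mul_sum, Finset.mul_sum, ← Finset.sum_add_distrib]
      exact Finset.sum_congr rfl fun j _ => by ring
    rw [h2, R.sum_fr_fr, R.sum_fr_ft] at h1
    linarith
  · have h1 : ∑ j, (x * R.fr φ j + y * R.ft φ j) * R.ft φ j = 0 :=
      Finset.sum_eq_zero fun j _ => by rw [h j, zero_mul]
    have h2 : ∑ j, (x * R.fr φ j + y * R.ft φ j) * R.ft φ j =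
        x * ∑ j, R.fr φ j * R.ft φ j + y * ∑ j, R.ft φ j * R.ft φ j := by
      rw [Finset.mul_sum, Finset.mul_sum, ← Finset.sum_add_distrib]
      exact Finset.sum_congr rfl fun j _ => by ring
    rw [h2, R.sum_ft_ft, R.sum_fr_ft] at h1
    linarith

theorem dPsi_indep {ψ : ℝ} (hs : Real.sin ψ ≠ 0) (hc : Real.cos ψ ≠ 0)
    (θ φ p L K c1 c2 dψ dθ dφ dp : ℝ)
    (h : c1 • ((R.Psi ψ θ φ p L K).1, -(R.Psi ψ θ φ p L K).2) +
      c2 • ((0 : (Fin a ⊕ Fin b) → ℝ), (R.Psi ψ θ φ p L K).1) +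
      R.dPsi ψ θ φ p L K dψ dθ dφ dp = 0) :
    c1 = 0 ∧ c2 = 0 ∧ dψ = 0 ∧ dθ = 0 ∧ dφ = 0 := by
  have hsc := Real.sin_sq_add_cos_sq ψ
  have k1 : ∀ j, (c1 * Real.sin ψ + Real.cos ψ * dψ) * R.er θ j +
      (Real.sin ψ * dθ) * R.et θ j = 0 := by
    intro j
    have h1 := congrFun (congrArg Prod.fst h) (Sum.inl j)
    simp only [Prod.fst_add, Prod.smul_fst, Pi.add_apply, Pi.smul_apply, smul_eq_mul, Psi, X,
      Sum.elim_inl, dPsi, Prod.fst_zero, Pi.zero_apply, smul_zero, add_zero] at h1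
    linarith
  have k2 : ∀ j, (c1 * Real.cos ψ - Real.sin ψ * dψ) * R.fr φ j +
      (Real.cos ψ * dφ) * R.ft φ j = 0 := by
    intro j
    have h1 := congrFun (congrArg Prod.fst h) (Sum.inr j)
    simp only [Prod.fst_add, Prod.smul_fst, Pi.add_apply, Pi.smul_apply, smul_eq_mul, Psi, X,
      Sum.elim_inr, dPsi, Prod.fst_zero, Pi.zero_apply, smul_zero, add_zero] at h1
    linarith
  obtain ⟨a1, a2⟩ := R.er_et_indep θ _ _ k1
  obtain ⟨a3, a4⟩ := R.fr_ft_indep φ _ _ k2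
  have hθ : dθ = 0 := (mul_eq_zero.1 a2).resolve_left hs
  have hφ : dφ = 0 := (mul_eq_zero.1 a4).resolve_left hc
  have hc1 : c1 = 0 := by
    have : c1 * (Real.sin ψ ^ 2 + Real.cos ψ ^ 2) = 0 := by
      linear_combination Real.sin ψ * a1 + Real.cos ψ * a3
    rwa [hsc, mul_one] at this
  have hψ : dψ = 0 := by
    have : dψ * (Real.sin ψ ^ 2 + Real.cos ψ ^ 2) = 0 := by
      linear_combination Real.cos ψ * a1 - Real.sin ψ * a3
    rwa [hsc, mul_one] at this
  subst hc1 hψ hθ hφ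
  have k3 : ∀ j, (c2 * Real.sin ψ + dp * Real.cos ψ) * R.er θ j + 0 * R.et θ j = 0 := by
    intro j
    have h1 := congrFun (congrArg Prod.snd h) (Sum.inl j)
    simp only [Prod.snd_add, Prod.smul_snd, Pi.add_apply, Pi.smul_apply, smul_eq_mul, Psi, X,
      Sum.elim_inl, dPsi, Prod.snd_zero, Pi.zero_apply, mul_zero, sub_zero, add_zero,
      Pi.neg_apply, zero_mul, zero_add] at h1
    linarith
  have k4 : ∀ j, (c2 * Real.cos ψ - dp * Real.sin ψ) * R.fr φ j + 0 * R.ft φ j = 0 := by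
    intro j
    have h1 := congrFun (congrArg Prod.snd h) (Sum.inr j)
    simp only [Prod.snd_add, Prod.smul_snd, Pi.add_apply, Pi.smul_apply, smul_eq_mul, Psi, X,
      Sum.elim_inr, dPsi, Prod.snd_zero, Pi.zero_apply, mul_zero, sub_zero, add_zero,
      Pi.neg_apply, zero_mul, zero_add, neg_zero] at h1
    linarith
  obtain ⟨a5, -⟩ := R.er_et_indep θ _ _ k3
  obtain ⟨a6, -⟩ := R.fr_ft_indep φ _ _ k4
  have hc2 : c2 = 0 := by
    have : c2 * (Real.sin ψ ^ 2 + Real.cos ψ ^ 2) = 0 := by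
      linear_combination Real.sin ψ * a5 + Real.cos ψ * a6
    rwa [hsc, mul_one] at this
  exact ⟨rfl, hc2, rfl, rfl, rfl⟩

theorem dPsi_comb (ψ θ φ p L K c d dψ dθ dφ dp eψ eθ eφ ep : ℝ) :
    c • R.dPsi ψ θ φ p L K dψ dθ dφ dp + d • R.dPsi ψ θ φ p L K eψ eθ eφ ep =
      R.dPsi ψ θ φ p L K (c * dψ + d * eψ) (c * dθ + d * eθ) (c * dφ + d * eφ)
        (c * dp + d * ep) := by
  refine Prod.ext (funext ?_) (funext ?_) <;> rintro (j | j) <;>
    simp only [dPsi, Prod.fst_add, Prod.smul_fst, Prod.snd_add, Prod.smul_snd, Pi.add_apply,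
      Pi.smul_apply, smul_eq_mul, Sum.elim_inl, Sum.elim_inr] <;> ring

end Frame

theorem rank_contra {V : Type} [NormedAddCommGroup V] [NormedSpace ℝ V] [FiniteDimensional ℝ V]
    {N M : ℕ} (φ : Fin N → (V →L[ℝ] ℝ)) (hφ : LinearIndependent ℝ φ) (v : Fin M → V)
    (hv : LinearIndependent ℝ v) (hdim : Module.finrank ℝ V < N + M)
    (h : ∀ i j, φ i (v j) = 0) : False := by
  have h1 : LinearIndependent ℝ fun i => ((φ i : V →ₗ[ℝ] ℝ) : Module.Dual ℝ V) := by
    have h2 := hφ.map' (ContinuousLinearMap.coeLM ℝ : (V →L[ℝ] ℝ) →ₗ[ℝ] (V →ₗ[ℝ] ℝ))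
      (LinearMap.ker_eq_bot.2 ContinuousLinearMap.coe_injective)
    exact h2
  set W : Subspace ℝ (Module.Dual ℝ V) :=
    Submodule.span ℝ (Set.range fun i => ((φ i : V →ₗ[ℝ] ℝ) : Module.Dual ℝ V)) with hW
  have h3 : Module.finrank ℝ W = N := by
    rw [hW, finrank_span_eq_card h1, Fintype.card_fin]
  have h4 := Subspace.finrank_add_finrank_dualCoannihilator_eq W
  have h5 : Submodule.span ℝ (Set.range v) ≤ W.dualCoannihilator := by
    rw [Submodule.span_le]
    rintro _ ⟨j, rfl⟩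
    rw [SetLike.mem_coe, Submodule.mem_dualCoannihilator]
    intro f hf
    have h6 : W ≤ (LinearMap.ker (Module.Dual.eval ℝ V (v j))) := by
      rw [hW, Submodule.span_le]
      rintro _ ⟨i, rfl⟩
      exact h i j
    exact h6 hf
  have h7 := Submodule.finrank_mono h5
  rw [finrank_span_eq_card hv, Fintype.card_fin] at h7
  omega

end Pool.Agent.MSup
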