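import Mathlib

/-!
The resonance lemma: a triangular linear system for the coefficients of a polynomial integral near
a relative equilibrium forces the frequency to be an integer multiple of the frequency of small
oscillations.
-/

set_option autoImplicit false

open Filter Topology Asymptotics Finset

namespace Pool.Agent.MSup

/-- If a solution of the linear recursion is closed up and nonzero and `Ω = 0`, then `B = 0`. -/
theorem reson_zero {N : ℕ} {b : ℕ → ℂ} {B : ℝ} (hb0 : b 0 ≠ 0)
    (hrec : ∀ k ≤ N, ((k : ℂ) + 1) * b (k + 1) = - Complex.I * B * b k) (hend : b (N + 1) = 0) :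
    B = 0 := by
  by_contra hB
  have hBc : (B : ℂ) ≠ 0 := by exact_mod_cast hB
  have h : ∀ k ≤ N + 1, b (N + 1 - k) = 0 := by
    intro k
    induction k with
    | zero => intro _; simpa using hend
    | succ k ih =>
      intro hk
      have h1 := ih (by omega)
      have h2 := hrec (N - k) (by omega)
      have e1 : N + 1 - k = N - k + 1 := by omega
      have e2 : N + 1 - (k + 1) = N - k := by omega
      rw [e1] at h1
      rw [h1, mul_zero] at h2
      rw [e2]
      have h3 : - Complex.I * (B : ℂ) ≠ 0 := mul_ne_zero (neg_ne_zero.2 Complex.I_ne_zero) hBc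
      exact (mul_eq_zero.1 h2.symm).resolve_left h3
  have := h (N + 1) le_rfl
  rw [Nat.sub_self] at this
  exact hb0 this

/-- shifted sequence `b' k = b (k-1)` with `b' 0 = 0` -/
def prev (b : ℕ → ℂ) : ℕ → ℂ
  | 0 => 0
  | k + 1 => b k

/-- If a solution of the linear recursion is closed up and nonzero and `Ω > 0`, then `B / Ω` is an
integer. -/
theorem reson_pos {N : ℕ} {b : ℕ → ℂ} {B Ω : ℝ} (hΩ : 0 < Ω) (hb0 : b 0 ≠ 0)
    (hrec : ∀ k ≤ N, ((k : ℂ) + 1) * b (k + 1) =
      Ω ^ 2 * ((N : ℂ) - k + 1) * prev b k - Complex.I * B * b k) (hend : b (N + 1) = 0) :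
    ∃ n : ℤ, B = n * Ω := by
  -- the functions
  let s : ℝ → ℂ := fun t => ((Real.sin (Ω * t) / Ω : ℝ) : ℂ)
  let c : ℝ → ℂ := fun t => ((Real.cos (Ω * t) : ℝ) : ℂ)
  have hs : ∀ t, HasDerivAt s (c t) t := by
    intro t
    have h1 : HasDerivAt (fun t : ℝ => Real.sin (Ω * t) / Ω) (Real.cos (Ω * t)) t := by
      have h2 : HasDerivAt (fun t : ℝ => Ω * t) Ω t := by
        simpa using (hasDerivAt_id t).const_mul Ω
      have h3 := (h2.sin).div_const Ω
      rw [mul_div_assoc, div_self hΩ.ne', mul_one] at h3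
      exact h3
    exact h1.ofReal_comp
  have hc : ∀ t, HasDerivAt c (-(Ω : ℂ) ^ 2 * s t) t := by
    intro t
    have h1 : HasDerivAt (fun t : ℝ => Real.cos (Ω * t)) (-Ω ^ 2 * (Real.sin (Ω * t) / Ω)) t := by
      have h2 : HasDerivAt (fun t : ℝ => Ω * t) Ω t := by
        simpa using (hasDerivAt_id t).const_mul Ω
      have h3 := h2.cos
      have e : -Ω ^ 2 * (Real.sin (Ω * t) / Ω) = -Real.sin (Ω * t) * Ω := by
        have := hΩ.ne'
        field_simp
      rw [e]
      exact h3
    have h4 := h1.ofReal_comp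
    convert h4 using 1
    simp only [s]
    push_cast
    ring
  let G : ℝ → ℂ := fun t => ∑ k ∈ range (N + 1), b k * (s t ^ k * c t ^ (N - k))
  have hG : ∀ t, HasDerivAt G (-Complex.I * B * G t) t := by
    intro t
    have h1 : ∀ k ∈ range (N + 1), HasDerivAt (fun t => b k * (s t ^ k * c t ^ (N - k)))
        (b k * ((k : ℂ) * s t ^ (k - 1) * c t * c t ^ (N - k) +
          s t ^ k * (((N - k : ℕ) : ℂ) * c t ^ (N - k - 1) * (-(Ω : ℂ) ^ 2 * s t)))) t := by
      intro k _
      exact (((hs t).fun_pow k).mul ((hc t).fun_pow (N - k))).const_mul (b k)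
    have h2 := HasDerivAt.fun_sum h1
    have h3 : (∑ k ∈ range (N + 1), b k * ((k : ℂ) * s t ^ (k - 1) * c t * c t ^ (N - k) +
          s t ^ k * (((N - k : ℕ) : ℂ) * c t ^ (N - k - 1) * (-(Ω : ℂ) ^ 2 * s t)))) =
        -Complex.I * B * G t := by
      -- split
      have e1 : ∑ k ∈ range (N + 1), b k * ((k : ℂ) * s t ^ (k - 1) * c t * c t ^ (N - k)) =
          ∑ k ∈ range (N + 1), ((k : ℂ) + 1) * b (k + 1) * (s t ^ k * c t ^ (N - k)) := by
        rw [sum_range_succ', sum_range_succ (fun k : ℕ =>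
          ((k : ℂ) + 1) * b (k + 1) * (s t ^ k * c t ^ (N - k))), hend]
        simp only [Nat.cast_zero, zero_mul, mul_zero, add_zero]
        refine sum_congr rfl fun k hk => ?_
        have hk' : k < N := mem_range.1 hk
        have e2 : N - k = N - (k + 1) + 1 := by omega
        rw [e2]
        push_cast
        ring
      have e3 : ∑ k ∈ range (N + 1), b k * (s t ^ k *
          (((N - k : ℕ) : ℂ) * c t ^ (N - k - 1) * (-(Ω : ℂ) ^ 2 * s t))) =
          -∑ k ∈ range (N + 1), (Ω : ℂ) ^ 2 * ((N : ℂ) - k + 1) * prev b k *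
            (s t ^ k * c t ^ (N - k)) := by
        rw [sum_range_succ, sum_range_succ' (fun k : ℕ => (Ω : ℂ) ^ 2 * ((N : ℂ) - k + 1) *
          prev b k * (s t ^ k * c t ^ (N - k)))]
        simp only [Nat.sub_self, Nat.cast_zero, zero_mul, mul_zero, add_zero, prev]
        rw [← sum_neg_distrib]
        refine sum_congr rfl fun k hk => ?_
        have hk' : k < N := mem_range.1 hk
        have e4 : N - (k + 1) = N - k - 1 := by omega
        rw [e4, Nat.cast_sub hk'.le]
        push_cast
        ring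
      calc _ = ∑ k ∈ range (N + 1), b k * ((k : ℂ) * s t ^ (k - 1) * c t * c t ^ (N - k)) +
            ∑ k ∈ range (N + 1), b k * (s t ^ k *
          (((N - k : ℕ) : ℂ) * c t ^ (N - k - 1) * (-(Ω : ℂ) ^ 2 * s t))) := by
            rw [← sum_add_distrib]
            exact sum_congr rfl fun k _ => by ring
        _ = _ := by
            rw [e1, e3, ← sub_eq_add_neg, ← sum_sub_distrib]
            simp only [G]
            rw [mul_sum]
            refine sum_congr rfl fun k hk => ?_
            have hk' : k ≤ N := Nat.lt_succ_iff.1 (mem_range.1 hk)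
            rw [hrec k hk']
            ring
    rw [h3] at h2
    exact h2
  -- constancy of `G(t) e^{iBt}`
  have hE : ∀ t, HasDerivAt (fun t : ℝ => G t * Complex.exp (Complex.I * B * t)) 0 t := by
    intro t
    have h1 : HasDerivAt (fun t : ℝ => Complex.I * (B : ℂ) * (t : ℂ)) (Complex.I * B) t := by
      have := (hasDerivAt_id t).ofReal_comp.const_mul (Complex.I * (B : ℂ))
      simpa using this
    have h2 := (hG t).mul h1.cexp
    have e : -Complex.I * ↑B * G t * Complex.exp (Complex.I * ↑B * ↑t) +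
        G t * (Complex.exp (Complex.I * ↑B * ↑t) * (Complex.I * ↑B)) = 0 := by ring
    rw [e] at h2
    exact h2
  have hconst := is_const_of_deriv_eq_zero (f := fun t : ℝ => G t * Complex.exp (Complex.I * B * t))
    (fun t => (hE t).differentiableAt) (fun t => (hE t).deriv) (2 * Real.pi / Ω) 0
  have hG0 : G 0 = b 0 * 0 + (∑ k ∈ range (N + 1), b k * ((0 : ℂ) ^ k * 1 ^ (N - k))) := by
    simp [G, s, c]
  have hsT : s (2 * Real.pi / Ω) = 0 := by
    simp only [s]
    rw [mul_div_cancel₀ _ hΩ.ne']
    simp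
  have hcT : c (2 * Real.pi / Ω) = 1 := by
    simp only [c]
    rw [mul_div_cancel₀ _ hΩ.ne']
    simp
  have hs0 : s 0 = 0 := by simp [s]
  have hc0 : c 0 = 1 := by simp [c]
  have hGT : G (2 * Real.pi / Ω) = G 0 := by
    simp only [G]
    rw [hsT, hcT, hs0, hc0]
  have hG0' : G 0 = b 0 := by
    simp only [G]
    rw [hs0, hc0, sum_range_succ']
    simp
  rw [hGT, hG0'] at hconst
  simp only [Complex.ofReal_zero, mul_zero, Complex.exp_zero, mul_one] at hconst
  have h5 : Complex.exp (Complex.I * B * ((2 * Real.pi / Ω : ℝ) : ℂ)) = 1 :=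
    mul_left_cancel₀ hb0 (hconst.trans (mul_one _).symm)
  obtain ⟨n, hn⟩ := Complex.exp_eq_one_iff.1 h5
  refine ⟨n, ?_⟩
  have h6 : ((B * (2 * Real.pi / Ω) : ℝ) : ℂ) = ((n * (2 * Real.pi) : ℝ) : ℂ) := by
    apply mul_left_cancel₀ Complex.I_ne_zero
    push_cast
    push_cast at hn
    linear_combination hn
  have h7 : B * (2 * Real.pi / Ω) = n * (2 * Real.pi) := by exact_mod_cast h6
  have hpi : (2 * Real.pi) ≠ 0 := by positivity
  field_simp at h7
  rw [h7]; ring

end Pool.Agent.MSup
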