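import Mathlib
import Pool.Agent.MSup.Reson

/-!
Leading coefficients at a relative equilibrium.
-/

set_option autoImplicit false

open Filter Topology Asymptotics Finset

namespace Pool.Agent.MSup

theorem littleO_integrate {g g' : ℝ → ℂ} {x₀ : ℝ} {c : ℂ} {k : ℕ}
    (hg : ∀ᶠ x in 𝓝 x₀, HasDerivAt g (g' x) x) (h0 : g x₀ = 0)
    (h : (fun x => g' x - c * ((x - x₀ : ℝ) : ℂ) ^ k) =o[𝓝 x₀] fun x => (x - x₀) ^ k) :
    (fun x => g x - c / (k + 1) * ((x - x₀ : ℝ) : ℂ) ^ (k + 1)) =o[𝓝 x₀]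
      fun x => (x - x₀) ^ (k + 1) := by
  rw [isLittleO_iff]
  intro ε hε
  have h1 := (isLittleO_iff.1 h hε).and hg
  rw [Metric.eventually_nhds_iff] at h1 ⊢
  obtain ⟨r, hr, h2⟩ := h1
  refine ⟨r, hr, fun x hx => ?_⟩
  have hk : (k : ℂ) + 1 ≠ 0 := by exact_mod_cast Nat.succ_ne_zero k
  let H : ℝ → ℂ := fun y => g y - c / (k + 1) * ((y - x₀ : ℝ) : ℂ) ^ (k + 1)
  have hH : ∀ y ∈ Set.uIcc x₀ x, HasDerivWithinAt H (g' y - c * ((y - x₀ : ℝ) : ℂ) ^ k)
      (Set.uIcc x₀ x) y := by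
    intro y hy
    have hy' : dist y x₀ < r := by
      refine lt_of_le_of_lt ?_ hx
      rw [Real.dist_eq, Real.dist_eq]
      exact Set.abs_sub_left_of_mem_uIcc hy
    have h3 := (h2 hy').2
    have h4 : HasDerivAt (fun y : ℝ => ((y - x₀ : ℝ) : ℂ)) 1 y := by
      have := ((hasDerivAt_id y).sub_const x₀).ofReal_comp
      simpa using this
    have h5 := (h4.fun_pow (k + 1)).const_mul (c / ((k : ℂ) + 1))
    have e : c / ((k : ℂ) + 1) * (((k + 1 : ℕ) : ℂ) * ((y - x₀ : ℝ) : ℂ) ^ (k + 1 - 1) * 1) =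
        c * ((y - x₀ : ℝ) : ℂ) ^ k := by
      push_cast
      field_simp
      try simp
    rw [e] at h5
    exact (h3.sub h5).hasDerivWithinAt
  have hb : ∀ y ∈ Set.uIcc x₀ x, ‖g' y - c * ((y - x₀ : ℝ) : ℂ) ^ k‖ ≤ ε * |x - x₀| ^ k := by
    intro y hy
    have hyx : |y - x₀| ≤ |x - x₀| := Set.abs_sub_left_of_mem_uIcc hy
    have hy' : dist y x₀ < r := by
      refine lt_of_le_of_lt ?_ hx
      rw [Real.dist_eq, Real.dist_eq]
      exact hyx
    refine (h2 hy').1.trans ?_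
    rw [norm_pow, Real.norm_eq_abs]
    exact mul_le_mul_of_nonneg_left (pow_le_pow_left₀ (abs_nonneg _) hyx k) hε.le
  have h6 := (convex_uIcc x₀ x).norm_image_sub_le_of_norm_hasDerivWithin_le hH hb
    Set.left_mem_uIcc Set.right_mem_uIcc
  have hH0 : H x₀ = 0 := by simp [H, h0]
  rw [hH0, sub_zero] at h6
  refine h6.trans (le_of_eq ?_)
  rw [norm_pow, Real.norm_eq_abs, pow_succ]
  ring

/-- the two-term sequence -/
noncomputable def bseq (N : ℕ) (A' B₀ : ℝ) (b₀ : ℂ) : ℕ → ℂ × ℂ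
  | 0 => (b₀, 0)
  | k + 1 => (((A' : ℂ) * ((N : ℂ) - k + 1) * (bseq N A' B₀ b₀ k).2 -
      Complex.I * B₀ * (bseq N A' B₀ b₀ k).1) / (k + 1), (bseq N A' B₀ b₀ k).1)

theorem bseq_snd (N : ℕ) (A' B₀ : ℝ) (b₀ : ℂ) (k : ℕ) :
    (bseq N A' B₀ b₀ k).2 = prev (fun k => (bseq N A' B₀ b₀ k).1) k := by
  cases k with
  | zero => rfl
  | succ k => rfl

section
variable {x₀ : ℝ}

theorem mul_zero_lead {A : ℝ → ℝ} {A' : ℝ} {f : ℝ → ℂ} {p : ℂ} {k : ℕ}
    (hA0 : A x₀ = 0) (hA : HasDerivAt A A' x₀)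
    (hf : (fun x => ((x - x₀ : ℝ) : ℂ) * f x - p * ((x - x₀ : ℝ) : ℂ) ^ k) =o[𝓝 x₀]
      fun x => (x - x₀) ^ k) :
    (fun x => (A x : ℂ) * f x - A' * p * ((x - x₀ : ℝ) : ℂ) ^ k) =o[𝓝 x₀]
      fun x => (x - x₀) ^ k := by
  have h1 : (fun x => ((A x - A' * (x - x₀) : ℝ) : ℂ)) =o[𝓝 x₀] fun x => ((x - x₀ : ℝ) : ℂ) := by
    have h2 := hasDerivAt_iff_isLittleO.1 hA
    rw [hA0] at h2
    refine (Asymptotics.isLittleO_norm_norm.1 ?_)
    have h3 := Asymptotics.isLittleO_norm_norm.2 h2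
    refine h3.congr (fun x => ?_) (fun x => ?_)
    · rw [Complex.norm_real, smul_eq_mul, sub_zero, mul_comm]
    · rw [Complex.norm_real]
  have h2 : (fun x => ((x - x₀ : ℝ) : ℂ) * f x) =O[𝓝 x₀] fun x => (x - x₀) ^ k := by
    have h3 : (fun x => p * ((x - x₀ : ℝ) : ℂ) ^ k) =O[𝓝 x₀] fun x => (x - x₀) ^ k := by
      refine IsBigO.const_mul_left ?_ p
      refine IsBigO.of_bound 1 (Eventually.of_forall fun x => ?_)
      rw [one_mul, norm_pow, norm_pow, Complex.norm_real]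
    have h4 := hf.isBigO.add h3
    simpa using h4
  have h3 : (fun x => ((A x - A' * (x - x₀) : ℝ) : ℂ) * f x) =o[𝓝 x₀] fun x => (x - x₀) ^ k :=
    (h1.mul_isBigO (isBigO_refl f _)).trans_isBigO h2
  have h4 := h3.add (hf.const_mul_left (A' : ℂ))
  refine h4.congr (fun x => ?_) (fun x => rfl)
  push_cast
  ring

theorem mul_cont_lead {B : ℝ → ℝ} {f : ℝ → ℂ} {q : ℂ} {k : ℕ}
    (hB : ContinuousAt B x₀)
    (hf : (fun x => f x - q * ((x - x₀ : ℝ) : ℂ) ^ k) =o[𝓝 x₀] fun x => (x - x₀) ^ k) :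
    (fun x => (B x : ℂ) * f x - B x₀ * q * ((x - x₀ : ℝ) : ℂ) ^ k) =o[𝓝 x₀]
      fun x => (x - x₀) ^ k := by
  have h1 : (fun x => ((B x - B x₀ : ℝ) : ℂ)) =o[𝓝 x₀] fun _ => (1 : ℂ) := by
    rw [isLittleO_one_iff]
    have : Tendsto (fun x => ((B x - B x₀ : ℝ) : ℂ)) (𝓝 x₀) (𝓝 (((B x₀ - B x₀ : ℝ)) : ℂ)) :=
      (Complex.continuous_ofReal.tendsto _).comp (hB.sub_const (B x₀))
    simpa using this
  have h2 : f =O[𝓝 x₀] fun x => (x - x₀) ^ k := by
    have h3 : (fun x => q * ((x - x₀ : ℝ) : ℂ) ^ k) =O[𝓝 x₀] fun x => (x - x₀) ^ k := by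
      refine IsBigO.const_mul_left ?_ q
      refine IsBigO.of_bound 1 (Eventually.of_forall fun x => ?_)
      rw [one_mul, norm_pow, norm_pow, Complex.norm_real]
    have h4 := hf.isBigO.add h3
    simpa using h4
  have h3 : (fun x => ((B x - B x₀ : ℝ) : ℂ) * f x) =o[𝓝 x₀] fun x => (x - x₀) ^ k := by
    have h4 := h1.mul_isBigO (isBigO_refl f (𝓝 x₀))
    simp only [one_mul] at h4
    exact h4.trans_isBigO h2
  have h4 := h3.add (hf.const_mul_left (B x₀ : ℂ))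
  refine h4.congr (fun x => ?_) (fun x => rfl)
  push_cast
  ring

theorem leading {g : ℕ → ℝ → ℂ} {A B : ℝ → ℝ} {A' : ℝ} {N : ℕ}
    (hg : ∀ j, ∀ᶠ x in 𝓝 x₀, HasDerivAt (g j)
      (((j : ℂ) + 2) * (A x * g (j + 2) x) - Complex.I * (B x * g (j + 1) x)) x)
    (hc : ∀ᶠ x in 𝓝 x₀, (A x : ℂ) * g 1 x = Complex.I * (B x * g 0 x))
    (hA0 : A x₀ = 0) (hA : HasDerivAt A A' x₀) (hB : ContinuousAt B x₀)
    (hN : g N x₀ ≠ 0) (hlt : ∀ j < N, g j x₀ = 0) :
    ∃ b : ℕ → ℂ, b 0 ≠ 0 ∧ (∀ k ≤ N, ((k : ℂ) + 1) * b (k + 1) =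
      A' * ((N : ℂ) - k + 1) * prev b k - Complex.I * B x₀ * b k) ∧ b (N + 1) = 0 := by
  set b : ℕ → ℂ := fun k => (bseq N A' (B x₀) (g N x₀) k).1 with hb
  have hrec : ∀ k : ℕ, ((k : ℂ) + 1) * b (k + 1) =
      A' * ((N : ℂ) - k + 1) * prev b k - Complex.I * B x₀ * b k := by
    intro k
    have hk : (k : ℂ) + 1 ≠ 0 := by exact_mod_cast Nat.succ_ne_zero k
    have h1 : b (k + 1) = ((A' : ℂ) * ((N : ℂ) - k + 1) * (bseq N A' (B x₀) (g N x₀) k).2 -
      Complex.I * B x₀ * (bseq N A' (B x₀) (g N x₀) k).1) / (k + 1) := rfl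
    rw [h1, bseq_snd, mul_div_cancel₀ _ hk]
  have hcont : ∀ j, ContinuousAt (g j) x₀ := fun j => (hg j).self_of_nhds.continuousAt
  have hP : ∀ k ≤ N, ((fun x => g (N - k) x - b k * ((x - x₀ : ℝ) : ℂ) ^ k) =o[𝓝 x₀]
        fun x => (x - x₀) ^ k) ∧
      ((fun x => ((x - x₀ : ℝ) : ℂ) * g (N - k + 1) x - prev b k * ((x - x₀ : ℝ) : ℂ) ^ k)
        =o[𝓝 x₀] fun x => (x - x₀) ^ k) := by
    intro k
    induction k with
    | zero =>
      intro _
      simp only [pow_zero, Nat.sub_zero, mul_one]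
      constructor
      · rw [isLittleO_one_iff]
        have h1 := (hcont N).sub (continuousAt_const (y := b 0))
        have h2 : b 0 = g N x₀ := rfl
        have h3 : Tendsto (fun x => g N x - b 0) (𝓝 x₀) (𝓝 (g N x₀ - b 0)) := h1
        rw [h2, sub_self] at h3
        exact h3
      · rw [isLittleO_one_iff]
        simp only [prev, sub_zero]
        have h1 : Tendsto (fun x => ((x - x₀ : ℝ) : ℂ)) (𝓝 x₀) (𝓝 ((x₀ - x₀ : ℝ) : ℂ)) :=
          (Complex.continuous_ofReal.tendsto _).comp (tendsto_id.sub_const x₀)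
        have h2 := h1.mul (hcont (N + 1)).tendsto
        simpa using h2
    | succ k ih =>
      intro hk
      obtain ⟨ih1, ih2⟩ := ih (by omega)
      constructor
      · have e1 : N - k = N - (k + 1) + 1 := by omega
        have e2 : N - k + 1 = N - (k + 1) + 2 := by omega
        have h1 := hg (N - (k + 1))
        have h2 := mul_zero_lead hA0 hA ih2
        have h3 := mul_cont_lead hB ih1
        rw [e2] at h2
        rw [e1] at h3
        have h4 := (h2.const_mul_left (((N - (k + 1) : ℕ) : ℂ) + 2)).sub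
          (h3.const_mul_left Complex.I)
        have hkc : (k : ℂ) + 1 ≠ 0 := by exact_mod_cast Nat.succ_ne_zero k
        have h5 := littleO_integrate (c := ((k : ℂ) + 1) * b (k + 1)) (k := k) h1
          (hlt _ (by omega)) (by
            refine h4.congr (fun x => ?_) (fun x => rfl)
            rw [hrec k, Nat.cast_sub hk]
            push_cast
            ring)
        refine h5.congr (fun x => ?_) (fun x => rfl)
        rw [mul_div_assoc, mul_comm ((k : ℂ) + 1), div_mul_cancel₀ _ hkc]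
      · have e1 : N - (k + 1) + 1 = N - k := by omega
        rw [e1]
        have h1 : (fun x => ((x - x₀ : ℝ) : ℂ)) =O[𝓝 x₀] fun x => (x - x₀) :=
          IsBigO.of_bound 1 (Eventually.of_forall fun x => by rw [one_mul, Complex.norm_real])
        have h2 := h1.mul_isLittleO ih1
        refine h2.congr (fun x => ?_) (fun x => ?_)
        · simp only [prev]
          ring
        · ring
  refine ⟨b, hN, fun k _ => hrec k, ?_⟩
  obtain ⟨h1, h2⟩ := hP N le_rfl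
  rw [Nat.sub_self] at h1 h2
  have h3 := mul_zero_lead hA0 hA h2
  have h4 := (mul_cont_lead hB h1).const_mul_left Complex.I
  have h5 := h3.sub h4
  have h6 : (fun x => (-(A' * prev b N - Complex.I * B x₀ * b N)) * ((x - x₀ : ℝ) : ℂ) ^ N)
      =o[𝓝 x₀] fun x => (x - x₀) ^ N := by
    refine h5.congr' ?_ EventuallyEq.rfl
    filter_upwards [hc] with x hx
    rw [zero_add, hx]
    ring
  have h7 : (A' : ℂ) * prev b N - Complex.I * B x₀ * b N = 0 := by
    by_contra hne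
    have hne' : 0 < ‖(A' : ℂ) * prev b N - Complex.I * B x₀ * b N‖ := norm_pos_iff.2 hne
    have h8 := isLittleO_iff.1 h6 (half_pos hne')
    obtain ⟨r, hr, h9⟩ := Metric.eventually_nhds_iff.1 h8
    have h10 := h9 (y := x₀ + r / 2) (by
      rw [Real.dist_eq, add_sub_cancel_left, abs_of_pos (half_pos hr)]; linarith)
    rw [norm_mul, norm_neg, norm_pow, norm_pow, Complex.norm_real, add_sub_cancel_left] at h10
    have h11 : 0 < ‖r / 2‖ ^ N := by
      apply pow_pos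
      rw [Real.norm_eq_abs, abs_of_pos (half_pos hr)]
      exact half_pos hr
    nlinarith
  have h8 := hrec N
  have hNc : (N : ℂ) + 1 ≠ 0 := by exact_mod_cast Nat.succ_ne_zero N
  have h9 : ((N : ℂ) + 1) * b (N + 1) = 0 := by
    rw [h8, ← h7]; ring
  exact (mul_eq_zero.1 h9).resolve_left hNc

end

/-- **Resonance lemma.** -/
theorem resonance {g : ℕ → ℝ → ℂ} {A B : ℝ → ℝ} {x₀ A' : ℝ}
    (hg : ∀ j, ∀ᶠ x in 𝓝 x₀, HasDerivAt (g j)
      (((j : ℂ) + 2) * (A x * g (j + 2) x) - Complex.I * (B x * g (j + 1) x)) x)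
    (hc : ∀ᶠ x in 𝓝 x₀, (A x : ℂ) * g 1 x = Complex.I * (B x * g 0 x))
    (hA0 : A x₀ = 0) (hA : HasDerivAt A A' x₀) (hB : ContinuousAt B x₀)
    (hN : ∃ j, g j x₀ ≠ 0) :
    (A' = 0 → B x₀ = 0) ∧ (0 < A' → ∃ n : ℤ, B x₀ = n * √A') := by
  classical
  have hN1 : g (Nat.find hN) x₀ ≠ 0 := Nat.find_spec hN
  have hN2 : ∀ j < Nat.find hN, g j x₀ = 0 := fun j hj => not_not.1 (Nat.find_min hN hj)
  obtain ⟨b, hb0, hrec, hend⟩ := leading hg hc hA0 hA hB hN1 hN2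
  constructor
  · intro hA'
    refine reson_zero hb0 (fun k hk => ?_) hend
    rw [hrec k hk, hA']
    push_cast
    ring
  · intro hA'
    refine reson_pos (Real.sqrt_pos.2 hA') hb0 (fun k hk => ?_) hend
    rw [hrec k hk]
    have : ((√A' : ℝ) : ℂ) ^ 2 = (A' : ℂ) := by
      rw [← Complex.ofReal_pow, Real.sq_sqrt hA'.le]
    rw [this]

end Pool.Agent.MSup
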