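import Mathlib
import Pool.Agent.MSup.Lead

/-!
Fourier modes of polynomial integrals: the triangular system of the coefficients and its
consequences at circular orbits.
-/

set_option autoImplicit false

open Filter Topology Asymptotics Finset Polynomial

namespace Pool.Agent.MSup

/-- The reduced Hamiltonian data on the interval `I`: `2H = w p² + u L² + v K²`, with first
derivatives `w1, u1, v1` and second derivatives `u2, v2`. -/
structure Red (I : Set ℝ) where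
  w : ℝ → ℝ
  u : ℝ → ℝ
  v : ℝ → ℝ
  w1 : ℝ → ℝ
  u1 : ℝ → ℝ
  v1 : ℝ → ℝ
  u2 : ℝ → ℝ
  v2 : ℝ → ℝ
  w_pos : ∀ x ∈ I, 0 < w x
  u_pos : ∀ x ∈ I, 0 < u x
  v_pos : ∀ x ∈ I, 0 < v x
  dw : ∀ x ∈ I, HasDerivAt w (w1 x) x
  du : ∀ x ∈ I, HasDerivAt u (u1 x) x
  dv : ∀ x ∈ I, HasDerivAt v (v1 x) x
  du1 : ∀ x ∈ I, HasDerivAt u1 (u2 x) x
  dv1 : ∀ x ∈ I, HasDerivAt v1 (v2 x) x
  cu2 : ContinuousOn u2 I
  cv2 : ContinuousOn v2 I

/-- The data of a mode `e^{i(mθ+nφ)} f(x,p,L,K)` which is an integral of the reduced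
Hamiltonian; `f` is polynomial in `p, L, K`. -/
structure Mode {I : Set ℝ} (D : Red I) (m n : ℤ) where
  ι : Type
  [fin : Fintype ι]
  e1 : ι → ℕ
  e2 : ι → ℕ
  e3 : ι → ℕ
  c : ι → ℝ → ℂ
  c' : ι → ℝ → ℂ
  dc : ∀ i, ∀ x ∈ I, HasDerivAt (c i) (c' i x) x
  pde : ∀ x ∈ I, ∀ p L K : ℝ,
    (D.w x : ℂ) * p * (∑ i, c' i x * p ^ e1 i * L ^ e2 i * K ^ e3 i) -
      ((D.w1 x * p ^ 2 + (D.u1 x * L ^ 2 + D.v1 x * K ^ 2)) / 2) *
        (∑ i, c i x * (e1 i * p ^ (e1 i - 1)) * L ^ e2 i * K ^ e3 i) +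
      Complex.I * (m * D.u x * L + n * D.v x * K) *
        (∑ i, c i x * p ^ e1 i * L ^ e2 i * K ^ e3 i) = 0
  x₁ : ℝ
  hx₁ : x₁ ∈ I
  p₁ : ℝ
  L₁ : ℝ
  K₁ : ℝ
  ne : (∑ i, c i x₁ * p₁ ^ e1 i * L₁ ^ e2 i * K₁ ^ e3 i) ≠ 0

attribute [instance] Mode.fin

namespace Mode

variable {I : Set ℝ} {D : Red I} {m n : ℤ} (M : Mode D m n)

/-- `f(x, ·, L, K)` as a polynomial in `p` -/
noncomputable def pol (L K x : ℝ) : ℂ[X] :=
  ∑ i, monomial (M.e1 i) (M.c i x * L ^ M.e2 i * K ^ M.e3 i)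

/-- the derivative in `x` -/
noncomputable def pol' (L K x : ℝ) : ℂ[X] :=
  ∑ i, monomial (M.e1 i) (M.c' i x * L ^ M.e2 i * K ^ M.e3 i)

theorem pol_identity {x : ℝ} (hx : x ∈ I) (L K : ℝ) :
    C (D.w x : ℂ) * X * M.pol' L K x -
      (C ((D.w1 x / 2 : ℝ) : ℂ) * X ^ 2 + C (((D.u1 x * L ^ 2 + D.v1 x * K ^ 2) / 2 : ℝ) : ℂ)) *
        derivative (M.pol L K x) +
      C (Complex.I * (m * D.u x * L + n * D.v x * K)) * M.pol L K x = 0 := by
  apply Polynomial.eq_of_infinite_eval_eq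
  refine Set.Infinite.mono (s := Set.range ((↑) : ℝ → ℂ)) ?_ ?_
  · rintro _ ⟨p, rfl⟩
    have h := M.pde x hx p L K
    change eval (p : ℂ) _ = eval (p : ℂ) _
    simp only [eval_zero, eval_add, eval_sub, eval_mul, eval_C, eval_X, eval_pow,
      pol, pol', eval_finsetSum, eval_monomial, derivative_sum, derivative_monomial]
    rw [← h]
    have e1 : ∑ i, M.c' i x * L ^ M.e2 i * K ^ M.e3 i * (p : ℂ) ^ M.e1 i =
        ∑ i, M.c' i x * p ^ M.e1 i * L ^ M.e2 i * K ^ M.e3 i :=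
      sum_congr rfl fun i _ => by ring
    have e2 : ∑ i, M.c i x * L ^ M.e2 i * K ^ M.e3 i * (p : ℂ) ^ M.e1 i =
        ∑ i, M.c i x * p ^ M.e1 i * L ^ M.e2 i * K ^ M.e3 i :=
      sum_congr rfl fun i _ => by ring
    have e3 : ∑ i, M.c i x * L ^ M.e2 i * K ^ M.e3 i * (M.e1 i : ℂ) * (p : ℂ) ^ (M.e1 i - 1) =
        ∑ i, M.c i x * (M.e1 i * p ^ (M.e1 i - 1)) * L ^ M.e2 i * K ^ M.e3 i :=
      sum_congr rfl fun i _ => by ring
    rw [e1, e2, e3]
    push_cast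
    ring
  · exact Set.infinite_range_of_injective Complex.ofReal_injective

/-- the coefficient functions -/
noncomputable def g (L K : ℝ) (j : ℕ) (x : ℝ) : ℂ := (M.pol L K x).coeff j

noncomputable def g' (L K : ℝ) (j : ℕ) (x : ℝ) : ℂ := (M.pol' L K x).coeff j

theorem g_eq (L K : ℝ) (j : ℕ) (x : ℝ) :
    M.g L K j x = ∑ i, if M.e1 i = j then M.c i x * L ^ M.e2 i * K ^ M.e3 i else 0 := by
  simp only [g, pol, finsetSum_coeff, coeff_monomial]

theorem g'_eq (L K : ℝ) (j : ℕ) (x : ℝ) :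
    M.g' L K j x = ∑ i, if M.e1 i = j then M.c' i x * L ^ M.e2 i * K ^ M.e3 i else 0 := by
  simp only [g', pol', finsetSum_coeff, coeff_monomial]

theorem hasDerivAt_g (L K : ℝ) (j : ℕ) {x : ℝ} (hx : x ∈ I) :
    HasDerivAt (M.g L K j) (M.g' L K j x) x := by
  have h1 : M.g L K j = fun x => ∑ i, if M.e1 i = j then M.c i x * L ^ M.e2 i * K ^ M.e3 i
      else 0 := funext fun x => M.g_eq L K j x
  rw [h1, g'_eq]
  refine HasDerivAt.fun_sum fun i _ => ?_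
  by_cases h : M.e1 i = j
  · simp only [h, if_true]
    exact ((M.dc i x hx).mul_const _).mul_const _
  · simp only [h, if_false]
    exact hasDerivAt_const _ _

theorem ode_coeff (L K : ℝ) (j : ℕ) {x : ℝ} (hx : x ∈ I) :
    (D.w x : ℂ) * M.g' L K j x = ((D.w1 x / 2 : ℝ) : ℂ) * (j * M.g L K j x) +
      (((D.u1 x * L ^ 2 + D.v1 x * K ^ 2) / 2 : ℝ) : ℂ) * ((j + 2) * M.g L K (j + 2) x) -
      Complex.I * (m * D.u x * L + n * D.v x * K) * M.g L K (j + 1) x := by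
  have h := congrArg (fun q => coeff q (j + 1)) (M.pol_identity hx L K)
  simp only [coeff_add, coeff_sub, coeff_zero] at h
  rw [mul_assoc (C (D.w x : ℂ)), coeff_C_mul, coeff_X_mul, add_mul, coeff_add,
    mul_assoc (C _) (X ^ 2),
    coeff_C_mul, coeff_C_mul, coeff_C_mul, coeff_derivative] at h
  have h2 : (X ^ 2 * derivative (M.pol L K x)).coeff (j + 1) = j * (M.pol L K x).coeff j := by
    cases j with
    | zero =>
      rw [pow_two, mul_assoc, coeff_X_mul, mul_coeff_zero, coeff_X_zero]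
      simp
    | succ j =>
      have : j + 1 + 1 = j + 2 := rfl
      rw [this, coeff_X_pow_mul, coeff_derivative]
      push_cast
      ring
  rw [h2] at h
  have e : M.g L K (j + 2) x = (M.pol L K x).coeff (j + 1 + 1) := rfl
  rw [e]
  simp only [g, g']
  push_cast at h ⊢
  linear_combination h

theorem ode_zero (L K : ℝ) {x : ℝ} (hx : x ∈ I) :
    (((D.u1 x * L ^ 2 + D.v1 x * K ^ 2) / 2 : ℝ) : ℂ) * M.g L K 1 x =
      Complex.I * (m * D.u x * L + n * D.v x * K) * M.g L K 0 x := by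
  have h := congrArg (fun q => coeff q 0) (M.pol_identity hx L K)
  simp only [coeff_add, coeff_sub, coeff_zero, mul_coeff_zero, coeff_C_zero, coeff_X_zero,
    mul_zero, zero_mul, coeff_derivative, pow_two] at h
  simp only [g]
  push_cast at h ⊢
  linear_combination -h

/-- the rescaled coefficients -/
noncomputable def gh (L K : ℝ) (j : ℕ) (x : ℝ) : ℂ :=
  (((√(D.w x))⁻¹ : ℝ) : ℂ) ^ j * M.g L K j x

theorem hasDerivAt_gh (L K : ℝ) (j : ℕ) {x : ℝ} (hx : x ∈ I) :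
    HasDerivAt (M.gh L K j)
      (((j : ℂ) + 2) * ((((D.u1 x * L ^ 2 + D.v1 x * K ^ 2) / 2 : ℝ) : ℂ) * M.gh L K (j + 2) x) -
        Complex.I * ((((m * D.u x * L + n * D.v x * K) / √(D.w x) : ℝ) : ℂ) *
          M.gh L K (j + 1) x)) x := by
  have hw := D.w_pos x hx
  have hr : 0 < √(D.w x) := Real.sqrt_pos.2 hw
  have h1 : HasDerivAt (fun x => (√(D.w x))⁻¹) (-(D.w1 x / 2) * ((√(D.w x))⁻¹) ^ 3) x := by
    refine (((D.dw x hx).sqrt hw.ne').fun_inv hr.ne').congr_deriv ?_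
    field_simp
  have h2 := h1.ofReal_comp
  have h3 := (h2.fun_pow j).fun_mul (M.hasDerivAt_g L K j hx)
  have h4 : M.gh L K j = fun x => (((√(D.w x))⁻¹ : ℝ) : ℂ) ^ j * M.g L K j x := rfl
  rw [h4]
  refine h3.congr_deriv ?_
  have h5 := M.ode_coeff L K j hx
  have hwc : ((D.w x : ℝ) : ℂ) = ((√(D.w x) : ℝ) : ℂ) ^ 2 := by
    rw [← Complex.ofReal_pow, Real.sq_sqrt hw.le]
  have hrc : ((√(D.w x) : ℝ) : ℂ) ≠ 0 := by exact_mod_cast hr.ne'
  have h6 : M.g' L K j x = (((D.w1 x / 2 : ℝ) : ℂ) * (j * M.g L K j x) +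
      (((D.u1 x * L ^ 2 + D.v1 x * K ^ 2) / 2 : ℝ) : ℂ) * ((j + 2) * M.g L K (j + 2) x) -
      Complex.I * (m * D.u x * L + n * D.v x * K) * M.g L K (j + 1) x) *
        (((√(D.w x))⁻¹ : ℝ) : ℂ) ^ 2 := by
    rw [← h5, hwc]
    push_cast
    field_simp
  rw [h6]
  simp only [gh]
  rw [div_eq_mul_inv (m * D.u x * L + n * D.v x * K) (√(D.w x))]
  generalize (√(D.w x))⁻¹ = s
  push_cast
  cases j with
  | zero =>
    simp only [Nat.cast_zero]
    ring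
  | succ j =>
    simp only [Nat.add_sub_cancel]
    push_cast
    ring

theorem gh_ne_iff (L K : ℝ) (j : ℕ) {x : ℝ} (hx : x ∈ I) :
    M.gh L K j x = 0 ↔ M.g L K j x = 0 := by
  have hr : 0 < √(D.w x) := Real.sqrt_pos.2 (D.w_pos x hx)
  have hrc : ((((√(D.w x))⁻¹ : ℝ) : ℂ)) ^ j ≠ 0 := by
    apply pow_ne_zero
    exact_mod_cast (inv_pos.2 hr).ne'
  simp only [gh, mul_eq_zero, hrc, false_or]

end Mode

end Pool.Agent.MSup
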