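import Mathlib

/-!
Fourier modes on the two-dimensional torus: differentiation under the integral, integration by
parts, uniqueness.
-/

set_option autoImplicit false

open Filter Topology Set MeasureTheory intervalIntegral

namespace Pool.Agent.MSup

/-- Differentiation under an interval integral, for jointly continuous functions. -/
theorem hasDerivAt_paramInt {f f' : ℝ → ℝ → ℂ} (hf : Continuous (Function.uncurry f))
    (hf' : Continuous (Function.uncurry f')) (hd : ∀ x t, HasDerivAt (fun x => f x t) (f' x t) x)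
    (a b x₀ : ℝ) :
    HasDerivAt (fun x => ∫ t in a..b, f x t) (∫ t in a..b, f' x₀ t) x₀ := by
  have hK : IsCompact (Icc (x₀ - 1) (x₀ + 1) ×ˢ uIcc a b) := isCompact_Icc.prod isCompact_uIcc
  obtain ⟨C, hC⟩ := hK.exists_bound_of_continuousOn hf'.continuousOn
  have h1 : ∀ x, Continuous (f x) := fun x => hf.comp (by fun_prop : Continuous fun t => (x, t))
  have h2 : ∀ x, Continuous (f' x) := fun x => hf'.comp (by fun_prop : Continuous fun t => (x, t))
  refine (intervalIntegral.hasDerivAt_integral_of_dominated_loc_of_deriv_le (F' := f')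
    (s := Icc (x₀ - 1) (x₀ + 1)) (bound := fun _ => C) (Icc_mem_nhds (by linarith) (by linarith))
    (Eventually.of_forall fun x => (h1 x).aestronglyMeasurable) ((h1 x₀).intervalIntegrable _ _)
    (h2 x₀).aestronglyMeasurable (Eventually.of_forall fun t ht x hx => ?_)
    intervalIntegrable_const (Eventually.of_forall fun t _ x _ => hd x t)).2
  exact hC (x, t) ⟨hx, uIoc_subset_uIcc ht⟩

/-- A continuous `2π`-periodic function all of whose Fourier coefficients vanish is zero. -/
theorem fourier_unique {h : ℝ → ℂ} (hc : Continuous h) (hp : Function.Periodic h (2 * Real.pi))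
    (hz : ∀ n : ℤ, ∫ t in (0 : ℝ)..(2 * Real.pi), h t * Complex.exp (-(Complex.I * (n * t))) = 0) :
    ∀ t, h t = 0 := by
  have : Fact (0 < 2 * Real.pi) := ⟨Real.two_pi_pos⟩
  let f : C(AddCircle (2 * Real.pi), ℂ) := ⟨hp.lift, continuous_coinduced_dom.mpr hc⟩
  have hf : ∀ t : ℝ, f (t : AddCircle (2 * Real.pi)) = h t := fun t => hp.lift_coe t
  have hcoef : ∀ n : ℤ, fourierCoeff f n = 0 := by
    intro n
    rw [fourierCoeff_eq_intervalIntegral f n 0, zero_add]
    have e : ∫ x in (0 : ℝ)..(2 * Real.pi), (fourier (-n) (x : AddCircle (2 * Real.pi))) •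
        f (x : AddCircle (2 * Real.pi)) = 0 := by
      rw [← hz n]
      refine integral_congr fun x _ => ?_
      simp only [hf, fourier_coe_apply, smul_eq_mul]
      rw [mul_comm]
      congr 2
      have hpi : (Real.pi : ℂ) ≠ 0 := by exact_mod_cast Real.pi_ne_zero
      push_cast
      field_simp
    rw [e, smul_zero]
  have hsum : Summable (fourierCoeff f) := by
    have : fourierCoeff f = fun _ => 0 := funext hcoef
    rw [this]
    exact summable_zero
  have h1 := hasSum_fourier_series_of_summable hsum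
  simp only [hcoef, zero_smul] at h1
  have h2 : f = 0 := h1.unique hasSum_zero
  intro t
  rw [← hf t, h2]
  rfl

/-- The mode `(m, n)` of a function on `ℝ × ℝ × ℝ`, at the first coordinate `x`. -/
noncomputable def fc (m n : ℤ) (c : ℝ × ℝ × ℝ → ℝ) (x : ℝ) : ℂ :=
  ∫ θ in (0 : ℝ)..(2 * Real.pi), ∫ φ in (0 : ℝ)..(2 * Real.pi),
    (c (x, θ, φ) : ℂ) * Complex.exp (-(Complex.I * (m * θ + n * φ)))

theorem hasDerivAt_fc (m n : ℤ) {c c' : ℝ × ℝ × ℝ → ℝ} (hc : Continuous c) (hc' : Continuous c')
    (hd : ∀ x θ φ, HasDerivAt (fun x => c (x, θ, φ)) (c' (x, θ, φ)) x) (x : ℝ) :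
    HasDerivAt (fc m n c) (fc m n c' x) x := by
  have e1 : ∀ (d : ℝ × ℝ × ℝ → ℝ), Continuous d → Continuous (Function.uncurry
      fun x θ : ℝ => ∫ φ in (0 : ℝ)..(2 * Real.pi),
        (d (x, θ, φ) : ℂ) * Complex.exp (-(Complex.I * (m * θ + n * φ)))) := by
    intro d hd
    apply continuous_parametric_intervalIntegral_of_continuous'
    unfold Function.uncurry
    fun_prop
  unfold fc
  refine hasDerivAt_paramInt (e1 c hc) (e1 c' hc') (fun x θ => ?_) _ _ _
  refine hasDerivAt_paramInt (f := fun x φ => (c (x, θ, φ) : ℂ) *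
    Complex.exp (-(Complex.I * (m * θ + n * φ)))) (f' := fun x φ => (c' (x, θ, φ) : ℂ) *
    Complex.exp (-(Complex.I * (m * θ + n * φ)))) ?_ ?_ (fun x φ => ?_) _ _ _
  · unfold Function.uncurry
    fun_prop
  · unfold Function.uncurry
    fun_prop
  · exact ((hd x θ φ).ofReal_comp).mul_const _

theorem fc_theta (m n : ℤ) {c c' : ℝ × ℝ × ℝ → ℝ} (hc : Continuous c) (hc' : Continuous c')
    (hd : ∀ x θ φ, HasDerivAt (fun θ => c (x, θ, φ)) (c' (x, θ, φ)) θ)
    (hper : ∀ x θ φ, c (x, θ + 2 * Real.pi, φ) = c (x, θ, φ)) (x : ℝ) :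
    fc m n c' x = Complex.I * m * fc m n c x := by
  -- inner integrals
  let E : ℝ → ℝ → ℂ := fun θ φ => Complex.exp (-(Complex.I * (m * θ + n * φ)))
  have hE : ∀ θ φ, HasDerivAt (fun θ => E θ φ) (-(Complex.I * m) * E θ φ) θ := by
    intro θ φ
    have h1 : HasDerivAt (fun θ : ℝ => -(Complex.I * (m * (θ : ℂ) + n * φ)))
        (-(Complex.I * m)) θ := by
      have := ((((hasDerivAt_id θ).ofReal_comp).const_mul (m : ℂ)).add_const
        ((n : ℂ) * φ)).const_mul Complex.I
      simpa using this.fun_neg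
    have h2 := h1.cexp
    refine h2.congr_deriv ?_
    simp only [E]
    ring
  let J : ℝ → ℂ := fun θ => ∫ φ in (0 : ℝ)..(2 * Real.pi), (c (x, θ, φ) : ℂ) * E θ φ
  let J' : ℝ → ℂ := fun θ => ∫ φ in (0 : ℝ)..(2 * Real.pi),
    ((c' (x, θ, φ) : ℂ) * E θ φ + (c (x, θ, φ) : ℂ) * (-(Complex.I * m) * E θ φ))
  have hJ : ∀ θ, HasDerivAt J (J' θ) θ := by
    intro θ
    refine hasDerivAt_paramInt (f := fun θ φ => (c (x, θ, φ) : ℂ) * E θ φ)
      (f' := fun θ φ => ((c' (x, θ, φ) : ℂ) * E θ φ + (c (x, θ, φ) : ℂ) *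
        (-(Complex.I * m) * E θ φ))) ?_ ?_ (fun θ φ => ?_) _ _ _
    · simp only [E]
      unfold Function.uncurry
      fun_prop
    · simp only [E]
      unfold Function.uncurry
      fun_prop
    · exact ((hd x θ φ).ofReal_comp).mul (hE θ φ)
  have hJc : Continuous J' := by
    apply continuous_parametric_intervalIntegral_of_continuous'
    simp only [E]
    unfold Function.uncurry
    fun_prop
  have h1 : ∫ θ in (0 : ℝ)..(2 * Real.pi), J' θ = J (2 * Real.pi) - J 0 :=
    integral_eq_sub_of_hasDerivAt (fun θ _ => hJ θ) (hJc.intervalIntegrable _ _)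
  have h2 : J (2 * Real.pi) = J 0 := by
    refine integral_congr fun φ _ => ?_
    have e1 : c (x, 2 * Real.pi, φ) = c (x, 0, φ) := by
      have := hper x 0 φ
      rwa [zero_add] at this
    have e2 : E (2 * Real.pi) φ = E 0 φ := by
      simp only [E]
      have : -(Complex.I * (m * ((2 * Real.pi : ℝ) : ℂ) + n * φ)) =
          -(Complex.I * (m * ((0 : ℝ) : ℂ) + n * φ)) +
            ((-m : ℤ) : ℂ) * (2 * Real.pi * Complex.I) := by
        push_cast
        ring
      rw [this, Complex.exp_add, Complex.exp_int_mul_two_pi_mul_I, mul_one]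
    simp only [e1, e2]
  rw [h2, sub_self] at h1
  have h3 : ∀ θ, J' θ = (∫ φ in (0 : ℝ)..(2 * Real.pi), (c' (x, θ, φ) : ℂ) * E θ φ) -
      Complex.I * m * ∫ φ in (0 : ℝ)..(2 * Real.pi), (c (x, θ, φ) : ℂ) * E θ φ := by
    intro θ
    simp only [J']
    rw [← intervalIntegral.integral_const_mul, ← intervalIntegral.integral_sub]
    · refine integral_congr fun φ _ => ?_
      ring
    · apply Continuous.intervalIntegrable
      simp only [E]
      fun_prop
    · apply Continuous.intervalIntegrable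
      simp only [E]
      fun_prop
  simp only [h3] at h1
  rw [intervalIntegral.integral_sub, intervalIntegral.integral_const_mul, sub_eq_zero] at h1
  · exact h1
  · apply Continuous.intervalIntegrable
    apply continuous_parametric_intervalIntegral_of_continuous'
    simp only [E]
    unfold Function.uncurry
    fun_prop
  · apply Continuous.intervalIntegrable
    refine continuous_const.mul ?_
    apply continuous_parametric_intervalIntegral_of_continuous'
    simp only [E]
    unfold Function.uncurry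
    fun_prop

theorem fc_phi (m n : ℤ) {c c' : ℝ × ℝ × ℝ → ℝ} (hc : Continuous c) (hc' : Continuous c')
    (hd : ∀ x θ φ, HasDerivAt (fun φ => c (x, θ, φ)) (c' (x, θ, φ)) φ)
    (hper : ∀ x θ φ, c (x, θ, φ + 2 * Real.pi) = c (x, θ, φ)) (x : ℝ) :
    fc m n c' x = Complex.I * n * fc m n c x := by
  let E : ℝ → ℝ → ℂ := fun θ φ => Complex.exp (-(Complex.I * (m * θ + n * φ)))
  have hE : ∀ θ φ, HasDerivAt (fun φ => E θ φ) (-(Complex.I * n) * E θ φ) φ := by
    intro θ φ
    have h1 : HasDerivAt (fun φ : ℝ => -(Complex.I * (m * (θ : ℂ) + n * φ)))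
        (-(Complex.I * n)) φ := by
      have := ((((hasDerivAt_id φ).ofReal_comp).const_mul (n : ℂ)).const_add
        ((m : ℂ) * θ)).const_mul Complex.I
      simpa using this.fun_neg
    have h2 := h1.cexp
    refine h2.congr_deriv ?_
    simp only [E]
    ring
  have key : ∀ θ : ℝ, (∫ φ in (0 : ℝ)..(2 * Real.pi), (c' (x, θ, φ) : ℂ) * E θ φ) =
      Complex.I * n * ∫ φ in (0 : ℝ)..(2 * Real.pi), (c (x, θ, φ) : ℂ) * E θ φ := by
    intro θ
    have h1 : ∫ φ in (0 : ℝ)..(2 * Real.pi),
        ((c' (x, θ, φ) : ℂ) * E θ φ + (c (x, θ, φ) : ℂ) * (-(Complex.I * n) * E θ φ)) =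
        (c (x, θ, 2 * Real.pi) : ℂ) * E θ (2 * Real.pi) - (c (x, θ, 0) : ℂ) * E θ 0 := by
      refine integral_eq_sub_of_hasDerivAt
        (f := fun φ => (c (x, θ, φ) : ℂ) * E θ φ) (fun φ _ => ?_) ?_
      · exact ((hd x θ φ).ofReal_comp).mul (hE θ φ)
      · apply Continuous.intervalIntegrable
        simp only [E]
        fun_prop
    have e1 : c (x, θ, 2 * Real.pi) = c (x, θ, 0) := by
      have := hper x θ 0
      rwa [zero_add] at this
    have e2 : E θ (2 * Real.pi) = E θ 0 := by
      simp only [E]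
      have : -(Complex.I * (m * (θ : ℂ) + n * ((2 * Real.pi : ℝ) : ℂ))) =
          -(Complex.I * (m * (θ : ℂ) + n * ((0 : ℝ) : ℂ))) +
            ((-n : ℤ) : ℂ) * (2 * Real.pi * Complex.I) := by
        push_cast
        ring
      rw [this, Complex.exp_add, Complex.exp_int_mul_two_pi_mul_I, mul_one]
    rw [e1, e2, sub_self, intervalIntegral.integral_add] at h1
    · have h2 : ∫ φ in (0 : ℝ)..(2 * Real.pi), (c (x, θ, φ) : ℂ) * (-(Complex.I * n) * E θ φ) =
          -(Complex.I * n) * ∫ φ in (0 : ℝ)..(2 * Real.pi), (c (x, θ, φ) : ℂ) * E θ φ := by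
        rw [← intervalIntegral.integral_const_mul]
        refine integral_congr fun φ _ => ?_
        ring
      rw [h2] at h1
      linear_combination h1
    · apply Continuous.intervalIntegrable
      simp only [E]
      fun_prop
    · apply Continuous.intervalIntegrable
      simp only [E]
      fun_prop
  unfold fc
  rw [← intervalIntegral.integral_const_mul]
  exact integral_congr fun θ _ => key θ

/-- Uniqueness on the torus. -/
theorem fc_unique {c : ℝ × ℝ × ℝ → ℝ} (hc : Continuous c)
    (hper1 : ∀ x θ φ, c (x, θ + 2 * Real.pi, φ) = c (x, θ, φ))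
    (hper2 : ∀ x θ φ, c (x, θ, φ + 2 * Real.pi) = c (x, θ, φ)) (x : ℝ)
    (hz : ∀ m n : ℤ, fc m n c x = 0) : ∀ θ φ, c (x, θ, φ) = 0 := by
  have h1 : ∀ (n : ℤ) (θ : ℝ), ∫ φ in (0 : ℝ)..(2 * Real.pi),
      (c (x, θ, φ) : ℂ) * Complex.exp (-(Complex.I * (n * φ))) = 0 := by
    intro n
    apply fourier_unique
    · apply continuous_parametric_intervalIntegral_of_continuous'
      unfold Function.uncurry
      fun_prop
    · intro θ
      simp only [hper1]
    · intro m
      rw [← hz m n]
      unfold fc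
      refine integral_congr fun θ _ => ?_
      rw [← intervalIntegral.integral_mul_const]
      refine integral_congr fun φ _ => ?_
      rw [mul_assoc, ← Complex.exp_add]
      congr 2
      ring
  intro θ φ
  have h2 := fourier_unique (h := fun φ => (c (x, θ, φ) : ℂ)) (by fun_prop)
    (fun φ => by simp only [hper2]) (fun n => h1 n θ) φ
  exact_mod_cast h2

end Pool.Agent.MSup
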