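import Mathlib
import Pool.Agent.MSup.Four

/-!
Functions on the product of a line and a two-dimensional torus, linearity of the modes, existence
of a nonzero mode.
-/

set_option autoImplicit false

open Filter Topology Set MeasureTheory intervalIntegral

namespace Pool.Agent.MSup

/-- A function on `ℝ × T²` with continuous first derivatives. -/
structure TorusFn where
  c : ℝ × ℝ × ℝ → ℝ
  cx : ℝ × ℝ × ℝ → ℝ
  ct : ℝ × ℝ × ℝ → ℝ
  cp : ℝ × ℝ × ℝ → ℝ
  hc : Continuous c
  hcx : Continuous cx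
  hct : Continuous ct
  hcp : Continuous cp
  dx : ∀ x θ φ, HasDerivAt (fun x => c (x, θ, φ)) (cx (x, θ, φ)) x
  dt : ∀ x θ φ, HasDerivAt (fun θ => c (x, θ, φ)) (ct (x, θ, φ)) θ
  dp : ∀ x θ φ, HasDerivAt (fun φ => c (x, θ, φ)) (cp (x, θ, φ)) φ
  per1 : ∀ x θ φ, c (x, θ + 2 * Real.pi, φ) = c (x, θ, φ)
  per2 : ∀ x θ φ, c (x, θ, φ + 2 * Real.pi) = c (x, θ, φ)

namespace TorusFn

theorem ct_per1 (f : TorusFn) (x θ φ : ℝ) : f.ct (x, θ + 2 * Real.pi, φ) = f.ct (x, θ, φ) := by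
  have h1 := f.dt x (θ + 2 * Real.pi) φ
  have h2 : HasDerivAt (fun t => f.c (x, t + 2 * Real.pi, φ)) (f.ct (x, θ + 2 * Real.pi, φ)) θ :=
    h1.comp_add_const θ (2 * Real.pi)
  simp only [f.per1] at h2
  exact h2.unique (f.dt x θ φ)

theorem ct_per2 (f : TorusFn) (x θ φ : ℝ) : f.ct (x, θ, φ + 2 * Real.pi) = f.ct (x, θ, φ) := by
  have h1 := f.dt x θ (φ + 2 * Real.pi)
  simp only [f.per2] at h1
  exact h1.unique (f.dt x θ φ)

theorem cp_per1 (f : TorusFn) (x θ φ : ℝ) : f.cp (x, θ + 2 * Real.pi, φ) = f.cp (x, θ, φ) := by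
  have h1 := f.dp x (θ + 2 * Real.pi) φ
  simp only [f.per1] at h1
  exact h1.unique (f.dp x θ φ)

theorem cp_per2 (f : TorusFn) (x θ φ : ℝ) : f.cp (x, θ, φ + 2 * Real.pi) = f.cp (x, θ, φ) := by
  have h1 := f.dp x θ (φ + 2 * Real.pi)
  have h2 : HasDerivAt (fun t => f.c (x, θ, t + 2 * Real.pi)) (f.cp (x, θ, φ + 2 * Real.pi)) φ :=
    h1.comp_add_const φ (2 * Real.pi)
  simp only [f.per2] at h2
  exact h2.unique (f.dp x θ φ)

/-- A `C¹` function on `ℝ³`, periodic in the last two variables. -/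
noncomputable def ofContDiff (c : ℝ × ℝ × ℝ → ℝ) (hc : ContDiff ℝ 1 c)
    (per1 : ∀ x θ φ, c (x, θ + 2 * Real.pi, φ) = c (x, θ, φ))
    (per2 : ∀ x θ φ, c (x, θ, φ + 2 * Real.pi) = c (x, θ, φ)) : TorusFn where
  c := c
  cx := fun z => fderiv ℝ c z (1, 0, 0)
  ct := fun z => fderiv ℝ c z (0, 1, 0)
  cp := fun z => fderiv ℝ c z (0, 0, 1)
  hc := hc.continuous
  hcx := (hc.continuous_fderiv one_ne_zero).clm_apply continuous_const
  hct := (hc.continuous_fderiv one_ne_zero).clm_apply continuous_const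
  hcp := (hc.continuous_fderiv one_ne_zero).clm_apply continuous_const
  dx := by
    intro x θ φ
    have h1 := ((hc.differentiable one_ne_zero) (x, θ, φ)).hasFDerivAt
    have h2 : HasDerivAt (fun x : ℝ => (x, θ, φ)) ((1 : ℝ), (0 : ℝ), (0 : ℝ)) x :=
      (hasDerivAt_id x).prodMk ((hasDerivAt_const x θ).prodMk (hasDerivAt_const x φ))
    exact h1.comp_hasDerivAt x h2
  dt := by
    intro x θ φ
    have h1 := ((hc.differentiable one_ne_zero) (x, θ, φ)).hasFDerivAt
    have h2 : HasDerivAt (fun θ : ℝ => (x, θ, φ)) ((0 : ℝ), (1 : ℝ), (0 : ℝ)) θ :=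
      (hasDerivAt_const θ x).prodMk ((hasDerivAt_id θ).prodMk (hasDerivAt_const θ φ))
    exact h1.comp_hasDerivAt θ h2
  dp := by
    intro x θ φ
    have h1 := ((hc.differentiable one_ne_zero) (x, θ, φ)).hasFDerivAt
    have h2 : HasDerivAt (fun φ : ℝ => (x, θ, φ)) ((0 : ℝ), (0 : ℝ), (1 : ℝ)) φ :=
      (hasDerivAt_const φ x).prodMk ((hasDerivAt_const φ θ).prodMk (hasDerivAt_id φ))
    exact h1.comp_hasDerivAt φ h2
  per1 := per1
  per2 := per2

end TorusFn

theorem fc_add (m n : ℤ) {c d : ℝ × ℝ × ℝ → ℝ} (hc : Continuous c) (hd : Continuous d) (x : ℝ) :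
    fc m n (fun z => c z + d z) x = fc m n c x + fc m n d x := by
  unfold fc
  have h1 : ∀ e : ℝ × ℝ × ℝ → ℝ, Continuous e → Continuous (fun θ : ℝ =>
      ∫ φ in (0 : ℝ)..(2 * Real.pi),
        (e (x, θ, φ) : ℂ) * Complex.exp (-(Complex.I * (m * θ + n * φ)))) := by
    intro e he
    apply continuous_parametric_intervalIntegral_of_continuous'
    unfold Function.uncurry
    fun_prop
  rw [← intervalIntegral.integral_add ((h1 c hc).intervalIntegrable _ _)
    ((h1 d hd).intervalIntegrable _ _)]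
  refine integral_congr fun θ _ => ?_
  simp only
  rw [← intervalIntegral.integral_add]
  · refine integral_congr fun φ _ => ?_
    push_cast
    ring
  · apply Continuous.intervalIntegrable
    fun_prop
  · apply Continuous.intervalIntegrable
    fun_prop

theorem fc_const_mul (m n : ℤ) (a : ℝ) (c : ℝ × ℝ × ℝ → ℝ) (x : ℝ) :
    fc m n (fun z => a * c z) x = a * fc m n c x := by
  unfold fc
  rw [← intervalIntegral.integral_const_mul]
  refine integral_congr fun θ _ => ?_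
  simp only
  rw [← intervalIntegral.integral_const_mul]
  refine integral_congr fun φ _ => ?_
  push_cast
  ring

theorem fc_zero (m n : ℤ) {c : ℝ × ℝ × ℝ → ℝ} {x : ℝ} (h : ∀ θ φ, c (x, θ, φ) = 0) :
    fc m n c x = 0 := by
  unfold fc
  simp [h]

theorem fc_sum (m n : ℤ) {ι : Type} (s : Finset ι) (c : ι → ℝ × ℝ × ℝ → ℝ)
    (hc : ∀ i, Continuous (c i)) (x : ℝ) :
    fc m n (fun z => ∑ i ∈ s, c i z) x = ∑ i ∈ s, fc m n (c i) x := by
  classical
  induction s using Finset.induction_on with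
  | empty => simp only [Finset.sum_empty]; exact fc_zero m n fun _ _ => rfl
  | insert a s ha ih =>
    simp only [Finset.sum_insert ha]
    rw [fc_add m n (hc a) (continuous_finsetSum s fun i _ => hc i), ih]

/-- Passing to the mode `(m, n)` in a linear relation. -/
theorem mode_relation {ι : Type} [Fintype ι] (f : ι → TorusFn) (x : ℝ) (r s t q : ι → ℝ)
    (h : ∀ θ φ, ∑ i, (r i * (f i).c (x, θ, φ) + s i * (f i).cx (x, θ, φ) +
      t i * (f i).ct (x, θ, φ) + q i * (f i).cp (x, θ, φ)) = 0) (m n : ℤ) :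
    ∑ i, ((r i : ℂ) * fc m n (f i).c x + s i * fc m n (f i).cx x +
      t i * (Complex.I * m * fc m n (f i).c x) + q i * (Complex.I * n * fc m n (f i).c x)) = 0 := by
  have h1 := fc_zero m n (c := fun z => ∑ i, (r i * (f i).c z + s i * (f i).cx z +
      t i * (f i).ct z + q i * (f i).cp z)) (x := x) h
  rw [fc_sum] at h1
  · rw [← h1]
    refine Finset.sum_congr rfl fun i _ => ?_
    have e1 := (f i).hc
    have e2 := (f i).hcx
    have e3 := (f i).hct
    have e4 := (f i).hcp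
    rw [fc_add m n (by fun_prop) (by fun_prop), fc_add m n (by fun_prop) (by fun_prop),
      fc_add m n (by fun_prop) (by fun_prop), fc_const_mul, fc_const_mul, fc_const_mul,
      fc_const_mul, fc_theta m n e1 e3 (f i).dt (f i).per1, fc_phi m n e1 e4 (f i).dp (f i).per2]
  · intro i
    have e1 := (f i).hc
    have e2 := (f i).hcx
    have e3 := (f i).hct
    have e4 := (f i).hcp
    fun_prop

/-- If `a ∂_θ F + b ∂_φ F` does not vanish at a point, some mode `(m, n)` with `a m + b n ≠ 0` is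
not zero. -/
theorem exists_mode {ι : Type} [Fintype ι] (f : ι → TorusFn) (x θ₀ φ₀ a b : ℝ) (τ : ι → ℝ)
    (h : ∑ i, τ i * (a * (f i).ct (x, θ₀, φ₀) + b * (f i).cp (x, θ₀, φ₀)) ≠ 0) :
    ∃ m n : ℤ, a * m + b * n ≠ 0 ∧ ∑ i, (τ i : ℂ) * fc m n (f i).c x ≠ 0 := by
  let C : ℝ × ℝ × ℝ → ℝ := fun z => ∑ i, τ i * (a * (f i).ct z + b * (f i).cp z)
  have hcont : ∀ i, Continuous fun z => τ i * (a * (f i).ct z + b * (f i).cp z) := by
    intro i
    have e3 := (f i).hct
    have e4 := (f i).hcp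
    fun_prop
  have hC : Continuous C := continuous_finsetSum _ fun i _ => hcont i
  have hp1 : ∀ x θ φ, C (x, θ + 2 * Real.pi, φ) = C (x, θ, φ) := by
    intro x θ φ
    simp only [C, TorusFn.ct_per1, TorusFn.cp_per1]
  have hp2 : ∀ x θ φ, C (x, θ, φ + 2 * Real.pi) = C (x, θ, φ) := by
    intro x θ φ
    simp only [C, TorusFn.ct_per2, TorusFn.cp_per2]
  obtain ⟨m, n, hmn⟩ : ∃ m n : ℤ, fc m n C x ≠ 0 := by
    by_contra hcon
    push Not at hcon
    exact h (fc_unique hC hp1 hp2 x hcon θ₀ φ₀)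
  have h1 : fc m n C x = Complex.I * (a * m + b * n) * ∑ i, (τ i : ℂ) * fc m n (f i).c x := by
    simp only [C]
    rw [fc_sum m n _ _ hcont, Finset.mul_sum]
    refine Finset.sum_congr rfl fun i _ => ?_
    have e1 := (f i).hc
    have e3 := (f i).hct
    have e4 := (f i).hcp
    rw [fc_const_mul, fc_add m n (by fun_prop) (by fun_prop), fc_const_mul, fc_const_mul,
      fc_theta m n e1 e3 (f i).dt (f i).per1, fc_phi m n e1 e4 (f i).dp (f i).per2]
    ring
  rw [h1] at hmn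
  refine ⟨m, n, fun h2 => hmn ?_, fun h2 => hmn ?_⟩
  · have h3 : (a : ℂ) * m + b * n = 0 := by exact_mod_cast h2
    rw [h3]
    ring
  · rw [h2, mul_zero]

end Pool.Agent.MSup
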