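import Mathlib
import Pool.Agent.MSup.Psi
import Pool.Agent.MSup.Torus
import Pool.Agent.MSup.Mode

/-!
Expansion of polynomial functions in the coordinates of an invariant three-sphere.
-/

set_option autoImplicit false

open Filter Topology Set
open scoped ContDiff

namespace Pool.Agent.MSup

variable {a b : ℕ}

/-- coefficients of the three momenta `p`, `L / sin ψ`, `K / cos ψ` in the covector -/
noncomputable def coef (R : Frame a b) (τ : Fin 3) (x : ℝ × ℝ × ℝ) : (Fin a ⊕ Fin b) → ℝ :=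
  match τ with
  | 0 => Sum.elim (fun j => Real.cos x.1 * R.er x.2.1 j) (fun j => -Real.sin x.1 * R.fr x.2.2 j)
  | 1 => Sum.elim (fun j => R.et x.2.1 j) (fun _ => 0)
  | 2 => Sum.elim (fun _ => 0) (fun j => R.ft x.2.2 j)

noncomputable def mom (ψ p L K : ℝ) (τ : Fin 3) : ℝ :=
  match τ with
  | 0 => p
  | 1 => L / Real.sin ψ
  | 2 => K / Real.cos ψ

theorem Pm_eq (R : Frame a b) (ψ θ φ p L K : ℝ) (i : Fin a ⊕ Fin b) :
    R.Pm ψ θ φ p L K i = ∑ τ : Fin 3, mom ψ p L K τ * coef R τ (ψ, θ, φ) i := by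
  rw [Fin.sum_univ_three]
  rcases i with j | j
  · simp only [Frame.Pm, coef, mom, Sum.elim_inl, mul_zero, add_zero]
  · simp only [Frame.Pm, coef, mom, Sum.elim_inr, mul_zero, add_zero]

theorem contDiff_coef (R : Frame a b) (τ : Fin 3) (i : Fin a ⊕ Fin b) :
    ContDiff ℝ ∞ fun x => coef R τ x i := by
  fin_cases τ <;> rcases i with j | j <;>
    simp only [coef, Sum.elim_inl, Sum.elim_inr, Frame.er, Frame.et, Frame.fr, Frame.ft] <;>
    fun_prop

theorem contDiff_X (R : Frame a b) : ContDiff ℝ ∞ fun x : ℝ × ℝ × ℝ => R.X x.1 x.2.1 x.2.2 := by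
  rw [contDiff_pi]
  rintro (j | j)
  · simp only [Frame.X, Sum.elim_inl, Frame.er]
    fun_prop
  · simp only [Frame.X, Sum.elim_inr, Frame.fr]
    fun_prop

theorem coef_per1 (R : Frame a b) (τ : Fin 3) (i : Fin a ⊕ Fin b) (x θ φ : ℝ) :
    coef R τ (x, θ + 2 * Real.pi, φ) i = coef R τ (x, θ, φ) i := by
  fin_cases τ <;> rcases i with j | j <;>
    simp [coef, Frame.er, Frame.et, Frame.fr, Frame.ft]

theorem coef_per2 (R : Frame a b) (τ : Fin 3) (i : Fin a ⊕ Fin b) (x θ φ : ℝ) :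
    coef R τ (x, θ, φ + 2 * Real.pi) i = coef R τ (x, θ, φ) i := by
  fin_cases τ <;> rcases i with j | j <;>
    simp [coef, Frame.er, Frame.et, Frame.fr, Frame.ft]

theorem X_per1 (R : Frame a b) (x θ φ : ℝ) : R.X x (θ + 2 * Real.pi) φ = R.X x θ φ := by
  funext i
  rcases i with j | j <;> simp [Frame.X, Frame.er, Frame.fr]

theorem X_per2 (R : Frame a b) (x θ φ : ℝ) : R.X x θ (φ + 2 * Real.pi) = R.X x θ φ := by
  funext i
  rcases i with j | j <;> simp [Frame.X, Frame.er, Frame.fr]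

/-- An expansion of `F` in the coordinates. -/
structure Expn (R : Frame a b) (F : Ph a b → ℝ) where
  ι : Type
  [fin : Fintype ι]
  e1 : ι → ℕ
  e2 : ι → ℕ
  e3 : ι → ℕ
  c : ι → ℝ × ℝ × ℝ → ℝ
  hc : ∀ i, ContDiff ℝ ∞ (c i)
  per1 : ∀ i x θ φ, c i (x, θ + 2 * Real.pi, φ) = c i (x, θ, φ)
  per2 : ∀ i x θ φ, c i (x, θ, φ + 2 * Real.pi) = c i (x, θ, φ)
  eq : ∀ ψ θ φ p L K : ℝ, F (R.Psi ψ θ φ p L K) =
    ∑ i, c i (ψ, θ, φ) * (p ^ e1 i * (L / Real.sin ψ) ^ e2 i * (K / Real.cos ψ) ^ e3 i)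

attribute [instance] Expn.fin

theorem prod_mom {k : ℕ} (σ : Fin k → Fin 3) (g : Fin 3 → ℝ) :
    ∏ j, g (σ j) = g 0 ^ (Finset.univ.filter fun j => σ j = 0).card *
      g 1 ^ (Finset.univ.filter fun j => σ j = 1).card *
      g 2 ^ (Finset.univ.filter fun j => σ j = 2).card := by
  have h1 := Finset.prod_fiberwise Finset.univ σ (fun j => g (σ j))
  rw [← h1, Fin.prod_univ_three]
  congr 1
  · congr 1
    · rw [Finset.prod_congr rfl (g := fun _ => g 0) (fun j hj => by
        rw [(Finset.mem_filter.1 hj).2]), Finset.prod_const]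
    · rw [Finset.prod_congr rfl (g := fun _ => g 1) (fun j hj => by
        rw [(Finset.mem_filter.1 hj).2]), Finset.prod_const]
  · rw [Finset.prod_congr rfl (g := fun _ => g 2) (fun j hj => by
        rw [(Finset.mem_filter.1 hj).2]), Finset.prod_const]

theorem exists_expn (R : Frame a b) {F : Ph a b → ℝ} (hF : PolyInMomenta F) :
    Nonempty (Expn R F) := by
  classical
  obtain ⟨d, K, hK, hFK⟩ := hF
  refine ⟨{
    ι := Σ k : Fin (d + 1), (Fin k → Fin a ⊕ Fin b) × (Fin k → Fin 3)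
    e1 := fun i => (Finset.univ.filter fun j => i.2.2 j = 0).card
    e2 := fun i => (Finset.univ.filter fun j => i.2.2 j = 1).card
    e3 := fun i => (Finset.univ.filter fun j => i.2.2 j = 2).card
    c := fun i x => K i.1 i.2.1 (R.X x.1 x.2.1 x.2.2) * ∏ j, coef R (i.2.2 j) x (i.2.1 j)
    hc := ?_
    per1 := ?_
    per2 := ?_
    eq := ?_ }⟩
  · intro i
    exact ((hK _ _).comp (contDiff_X R)).mul (contDiff_prod fun j _ => contDiff_coef R _ _)
  · intro i x θ φ
    simp only [X_per1, coef_per1]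
  · intro i x θ φ
    simp only [X_per2, coef_per2]
  · intro ψ θ φ p L Km
    rw [hFK _ (R.Psi_mem ψ θ φ p L Km)]
    simp only [Frame.Psi]
    rw [Finset.sum_range, Fintype.sum_sigma]
    refine Finset.sum_congr rfl fun k _ => ?_
    rw [Fintype.sum_prod_type]
    refine Finset.sum_congr rfl fun i _ => ?_
    simp only [Pm_eq]
    rw [Finset.prod_univ_sum, Finset.mul_sum, Fintype.piFinset_univ]
    refine Finset.sum_congr rfl fun σ _ => ?_
    rw [Finset.prod_mul_distrib, prod_mom σ (mom ψ p L Km)]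
    simp only [mom]
    ring

end Pool.Agent.MSup
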