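import Mathlib
import Pool.Agent.MSup.Mode

/-!
From the resonance property at circular orbits to the explicit form of the reduced Hamiltonian.
-/

set_option autoImplicit false

open Filter Topology Set

namespace Pool.Agent.MSup

/-- A continuous function on an interval which takes integer values off a finite set is
constant. -/
theorem const_of_int_values {s F : Set ℝ} (hs : IsPreconnected s) (hso : IsOpen s)
    (hF : F.Finite) {f : ℝ → ℝ} (hf : ContinuousOn f s)
    (hint : ∀ x ∈ s, x ∉ F → ∃ k : ℤ, f x = k) : ∀ x ∈ s, ∀ y ∈ s, f x = f y := by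
  have hall : ∀ x ∈ s, ∃ k : ℤ, f x = k := by
    intro x hx
    have hcl : IsClosed (range ((↑) : ℤ → ℝ)) := Int.isClosedEmbedding_coe_real.isClosed_range
    have hd : Dense Fᶜ := hF.countable.dense_compl ℝ
    have h1 : x ∈ closure (s ∩ Fᶜ) := hso.inter_closure ⟨hx, hd x⟩
    have h2 : f x ∈ closure (f '' (s ∩ Fᶜ)) := by
      have h3 : ContinuousWithinAt f (s ∩ Fᶜ) x := (hf x hx).mono inter_subset_left
      exact h3.mem_closure_image h1
    have h4 : f '' (s ∩ Fᶜ) ⊆ range ((↑) : ℤ → ℝ) := by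
      rintro _ ⟨y, ⟨hy1, hy2⟩, rfl⟩
      obtain ⟨k, hk⟩ := hint y hy1 hy2
      exact ⟨k, hk.symm⟩
    obtain ⟨k, hk⟩ := (closure_minimal h4 hcl) h2
    exact ⟨k, hk.symm⟩
  intro x hx y hy
  by_contra hne
  wlog hlt : f x < f y generalizing x y
  · exact this y hy x hx (Ne.symm hne) (lt_of_le_of_ne (not_lt.1 hlt) (Ne.symm hne))
  obtain ⟨k, hk⟩ := hall x hx
  obtain ⟨l, hl⟩ := hall y hy
  have hkl : k < l := by
    have : (k : ℝ) < l := by rw [← hk, ← hl]; exact hlt
    exact_mod_cast this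
  have h5 : (k : ℝ) + 1 ≤ l := by exact_mod_cast hkl
  have h6 : (k : ℝ) + 1 / 2 ∈ Icc (f x) (f y) := by
    rw [hk, hl]
    constructor <;> linarith
  obtain ⟨z, hz, hfz⟩ := hs.intermediate_value hx hy hf h6
  obtain ⟨j, hj⟩ := hall z hz
  rw [hj] at hfz
  have h7 : (2 * j : ℤ) = 2 * k + 1 := by
    have : (2 * (j : ℝ)) = 2 * k + 1 := by linarith
    exact_mod_cast this
  omega

variable {I : Set ℝ} (D : Red I)

/-- The resonance property at circular orbits. -/
def ResProp (E : Set ℝ) (m n : ℤ) : Prop :=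
  ∀ κ ∉ E, ∀ x ∈ I, D.u1 x + κ ^ 2 * D.v1 x = 0 →
    (D.u2 x + κ ^ 2 * D.v2 x ≠ 0) ∧
    (0 < D.u2 x + κ ^ 2 * D.v2 x →
      (∃ k : ℤ, 2 * m * D.u x = k * √(D.w x * (D.u2 x + κ ^ 2 * D.v2 x) / 2)) ∧
      (∃ k : ℤ, 2 * n * (κ * D.v x) = k * √(D.w x * (D.u2 x + κ ^ 2 * D.v2 x) / 2)))

/-- The explicit relations. -/
def Rel (α ρ C x : ℝ) : Prop :=
  1 / D.v x + ρ ^ 2 / D.u x = C ∧
  D.v1 x * D.u x ^ 2 + ρ ^ 2 * (D.u1 x * D.v x ^ 2) = 0 ∧
  α ^ 2 * C * D.w x * D.u1 x ^ 2 * D.v x = D.u x ^ 3 ∧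
  2 * D.u x ^ 2 * D.v1 x = α ^ 2 * D.w x * (D.u2 x * D.v1 x - D.u1 x * D.v2 x)

namespace Red

variable {D}

theorem continuousOn_w : ContinuousOn D.w I :=
  fun x hx => (D.dw x hx).continuousAt.continuousWithinAt
theorem continuousOn_u : ContinuousOn D.u I :=
  fun x hx => (D.du x hx).continuousAt.continuousWithinAt
theorem continuousOn_v : ContinuousOn D.v I :=
  fun x hx => (D.dv x hx).continuousAt.continuousWithinAt
theorem continuousOn_u1 : ContinuousOn D.u1 I :=
  fun x hx => (D.du1 x hx).continuousAt.continuousWithinAt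
theorem continuousOn_v1 : ContinuousOn D.v1 I :=
  fun x hx => (D.dv1 x hx).continuousAt.continuousWithinAt

end Red

/-- stiffness at the circular orbit of radius `x` -/
noncomputable def stiff (x : ℝ) : ℝ := D.u2 x - D.u1 x / D.v1 x * D.v2 x

/-- radii of nondegenerate stable circular orbits with both momenta nonzero -/
def J : Set ℝ := {x | x ∈ I ∧ D.u1 x * D.v1 x < 0 ∧ 0 < stiff D x}

variable {D}

theorem J_v1_ne {x : ℝ} (hx : x ∈ J D) : D.v1 x ≠ 0 := by
  intro h
  have := hx.2.1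
  rw [h, mul_zero] at this
  exact lt_irrefl _ this

theorem J_u1_ne {x : ℝ} (hx : x ∈ J D) : D.u1 x ≠ 0 := by
  intro h
  have := hx.2.1
  rw [h, zero_mul] at this
  exact lt_irrefl _ this

theorem isOpen_J (hI : IsOpen I) : IsOpen (J D) := by
  rw [isOpen_iff_mem_nhds]
  intro x hx
  have hxI := hx.1
  have cu1 := (D.du1 x hxI).continuousAt
  have cv1 := (D.dv1 x hxI).continuousAt
  have cu2 := D.cu2.continuousAt (hI.mem_nhds hxI)
  have cv2 := D.cv2.continuousAt (hI.mem_nhds hxI)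
  have h1 : ContinuousAt (fun x => D.u1 x * D.v1 x) x := cu1.mul cv1
  have h2 : ContinuousAt (stiff D) x := cu2.sub ((cu1.div cv1 (J_v1_ne hx)).mul cv2)
  filter_upwards [hI.mem_nhds hxI, h1.eventually (gt_mem_nhds hx.2.1),
    h2.eventually (lt_mem_nhds hx.2.2)] with y hy1 hy2 hy3
  exact ⟨hy1, hy2, hy3⟩

/-- `K/L` on the circular orbit -/
noncomputable def kap (D : Red I) (x : ℝ) : ℝ := √(-(D.u1 x / D.v1 x))

theorem neg_div_pos {x : ℝ} (hx : x ∈ J D) : 0 < -(D.u1 x / D.v1 x) := by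
  have h1 := J_v1_ne hx
  have h2 : -(D.u1 x / D.v1 x) = -(D.u1 x * D.v1 x) / D.v1 x ^ 2 := by
    field_simp
  rw [h2]
  have h3 := hx.2.1
  have h4 : 0 < D.v1 x ^ 2 := by positivity
  exact div_pos (by linarith) h4

theorem kap_sq {x : ℝ} (hx : x ∈ J D) : kap D x ^ 2 = -(D.u1 x / D.v1 x) :=
  Real.sq_sqrt (neg_div_pos hx).le

theorem kap_pos {x : ℝ} (hx : x ∈ J D) : 0 < kap D x := Real.sqrt_pos.2 (neg_div_pos hx)

theorem kap_crit {x : ℝ} (hx : x ∈ J D) : D.u1 x + kap D x ^ 2 * D.v1 x = 0 := by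
  rw [kap_sq hx]
  have h1 := J_v1_ne hx
  field_simp
  ring

theorem kap_stiff {x : ℝ} (hx : x ∈ J D) : D.u2 x + kap D x ^ 2 * D.v2 x = stiff D x := by
  rw [kap_sq hx, stiff]
  ring

/-- the frequency of small oscillations (for `L = 1`) -/
noncomputable def om (D : Red I) (x : ℝ) : ℝ := √(D.w x * stiff D x / 2)

theorem om_pos {x : ℝ} (hx : x ∈ J D) : 0 < om D x := by
  apply Real.sqrt_pos.2
  have h1 := D.w_pos x hx.1
  have h2 := hx.2.2
  positivity

theorem om_sq {x : ℝ} (hx : x ∈ J D) : om D x ^ 2 = D.w x * stiff D x / 2 := by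
  apply Real.sq_sqrt
  have h1 := D.w_pos x hx.1
  have h2 := hx.2.2
  positivity

theorem continuousOn_kap : ContinuousOn (kap D) (J D) := by
  intro x hx
  have h1 := (D.du1 x hx.1).continuousAt
  have h2 := (D.dv1 x hx.1).continuousAt
  exact ((h1.div h2 (J_v1_ne hx)).neg.sqrt).continuousWithinAt

theorem continuousOn_om (hI : IsOpen I) : ContinuousOn (om D) (J D) := by
  intro x hx
  have cu1 := (D.du1 x hx.1).continuousAt
  have cv1 := (D.dv1 x hx.1).continuousAt
  have cu2 := D.cu2.continuousAt (hI.mem_nhds hx.1)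
  have cv2 := D.cv2.continuousAt (hI.mem_nhds hx.1)
  have cw := (D.dw x hx.1).continuousAt
  have h2 : ContinuousAt (stiff D) x := cu2.sub ((cu1.div cv1 (J_v1_ne hx)).mul cv2)
  exact (((cw.mul h2).div_const 2).sqrt).continuousWithinAt

theorem injOn_kap {s : Set ℝ} (hs : s ⊆ J D) (hc : s.OrdConnected) : InjOn (kap D) s := by
  -- the function `-(u1/v1)` has nonvanishing derivative
  have hder : ∀ x ∈ J D, HasDerivAt (fun x => -(D.u1 x / D.v1 x))
      (-(stiff D x / D.v1 x)) x := by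
    intro x hx
    have h1 := J_v1_ne hx
    have h2 := ((D.du1 x hx.1).fun_div (D.dv1 x hx.1) h1).fun_neg
    refine h2.congr_deriv ?_
    rw [stiff]
    field_simp
  have key : ∀ x ∈ s, ∀ y ∈ s, x < y → kap D x ≠ kap D y := by
    intro x hx y hy hxy heq
    have hsub : Icc x y ⊆ s := hc.out hx hy
    have h1 : -(D.u1 x / D.v1 x) = -(D.u1 y / D.v1 y) := by
      rw [← kap_sq (hs hx), ← kap_sq (hs hy), heq]
    obtain ⟨z, hz, hz0⟩ := exists_hasDerivAt_eq_zero hxy
      (fun z hz => ((hder z (hs (hsub hz))).continuousAt).continuousWithinAt) h1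
      (fun z hz => hder z (hs (hsub (Ioo_subset_Icc_self hz))))
    have hzJ := hs (hsub (Ioo_subset_Icc_self hz))
    have h2 := J_v1_ne hzJ
    have h3 := hzJ.2.2
    rw [neg_eq_zero, div_eq_zero_iff] at hz0
    rcases hz0 with h | h
    · exact absurd h h3.ne'
    · exact h2 h
  intro x hx y hy heq
  rcases lt_trichotomy x y with h | h | h
  · exact absurd heq (key x hx y hy h)
  · exact h
  · exact absurd heq.symm (key y hy x hx h)

theorem local_const (hI : IsOpen I) {E : Set ℝ} (hE : E.Finite) {m n : ℤ} (hm : m ≠ 0) (hn : n ≠ 0)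
    (hR : ResProp D E m n) {s : Set ℝ} (hs : s ⊆ J D) (hso : IsOpen s) (hsc : s.OrdConnected) :
    (∀ x ∈ s, ∀ y ∈ s, D.u x / om D x = D.u y / om D y) ∧
    (∀ x ∈ s, ∀ y ∈ s, kap D x * D.v x / om D x = kap D y * D.v y / om D y) := by
  have hfin : (s ∩ kap D ⁻¹' E).Finite := by
    refine Set.Finite.of_finite_image (f := kap D) (hE.subset ?_) ?_
    · rintro _ ⟨x, ⟨_, hx⟩, rfl⟩
      exact hx
    · exact (injOn_kap hs hsc).mono inter_subset_left
  have hpre : IsPreconnected s := hsc.isPreconnected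
  have hmR : (2 * (m : ℝ)) ≠ 0 := mul_ne_zero two_ne_zero (by exact_mod_cast hm)
  have hnR : (2 * (n : ℝ)) ≠ 0 := mul_ne_zero two_ne_zero (by exact_mod_cast hn)
  have hu : ContinuousOn D.u s := Red.continuousOn_u.mono fun x hx => (hs hx).1
  have hv : ContinuousOn D.v s := Red.continuousOn_v.mono fun x hx => (hs hx).1
  have hom : ContinuousOn (om D) s := (continuousOn_om hI).mono hs
  have hkap : ContinuousOn (kap D) s := continuousOn_kap.mono hs
  have hne : ∀ x ∈ s, om D x ≠ 0 := fun x hx => (om_pos (hs hx)).ne'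
  have hval : ∀ x ∈ s, x ∉ s ∩ kap D ⁻¹' E →
      (∃ k : ℤ, 2 * m * D.u x = k * om D x) ∧
      (∃ k : ℤ, 2 * n * (kap D x * D.v x) = k * om D x) := by
    intro x hx hx2
    have hxE : kap D x ∉ E := fun h => hx2 ⟨hx, h⟩
    have h1 := (hR (kap D x) hxE x (hs hx).1 (kap_crit (hs hx))).2
    rw [kap_stiff (hs hx)] at h1
    exact h1 (hs hx).2.2
  constructor
  · intro x hx y hy
    have h1 := const_of_int_values hpre hso hfin (f := fun x => 2 * m * (D.u x / om D x))
      (continuousOn_const.mul (hu.div hom hne)) (fun x hx hx2 => by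
        obtain ⟨k, hk⟩ := (hval x hx hx2).1
        refine ⟨k, ?_⟩
        have := hne x hx
        field_simp
        linarith) x hx y hy
    exact mul_left_cancel₀ hmR h1
  · intro x hx y hy
    have h1 := const_of_int_values hpre hso hfin (f := fun x => 2 * n * (kap D x * D.v x / om D x))
      (continuousOn_const.mul ((hkap.mul hv).div hom hne)) (fun x hx hx2 => by
        obtain ⟨k, hk⟩ := (hval x hx hx2).2
        refine ⟨k, ?_⟩
        have := hne x hx
        field_simp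
        linarith) x hx y hy
    exact mul_left_cancel₀ hnR h1

end Pool.Agent.MSup
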