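import Mathlib
import Pool.Agent.MSup.Core

/-!
The closed-open argument.
-/

set_option autoImplicit false

open Filter Topology Set

namespace Pool.Agent.MSup

variable {I : Set ℝ} {D : Red I}

/-- the last relation in terms of `om` -/
theorem rel4_iff {x α : ℝ} (hx : x ∈ J D) (hα : 0 < α) :
    2 * D.u x ^ 2 * D.v1 x = α ^ 2 * D.w x * (D.u2 x * D.v1 x - D.u1 x * D.v2 x) ↔
      D.u x / om D x = α := by
  have h1 := J_v1_ne hx
  have h2 := om_pos hx
  have h3 := om_sq hx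
  have hu := D.u_pos x hx.1
  have e1 : D.u2 x * D.v1 x - D.u1 x * D.v2 x = stiff D x * D.v1 x := by
    rw [stiff]
    field_simp
  rw [e1, div_eq_iff h2.ne']
  constructor
  · intro h
    have h4 : 2 * D.u x ^ 2 = α ^ 2 * D.w x * stiff D x := by
      apply mul_right_cancel₀ h1
      linarith
    have h5 : D.u x ^ 2 = (α * om D x) ^ 2 := by
      rw [mul_pow, h3]
      linarith
    have h6 : 0 < α * om D x := by positivity
    exact (pow_left_inj₀ hu.le h6.le two_ne_zero).1 h5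
  · intro h
    rw [h, mul_pow, h3]
    ring

theorem rel2_iff {x ρ : ℝ} (hx : x ∈ J D) (hρ : 0 < ρ) :
    D.v1 x * D.u x ^ 2 + ρ ^ 2 * (D.u1 x * D.v x ^ 2) = 0 ↔
      D.u x = ρ * (kap D x * D.v x) := by
  have h1 := J_v1_ne hx
  have h2 := kap_pos hx
  have h3 := kap_sq hx
  have hu := D.u_pos x hx.1
  have hv := D.v_pos x hx.1
  constructor
  · intro h
    have h4 : D.u x ^ 2 = (ρ * (kap D x * D.v x)) ^ 2 := by
      rw [mul_pow, mul_pow, h3]
      apply mul_right_cancel₀ h1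
      field_simp
      linarith
    have h5 : 0 < ρ * (kap D x * D.v x) := by positivity
    exact (pow_left_inj₀ hu.le h5.le two_ne_zero).1 h4
  · intro h
    rw [h, mul_pow, mul_pow, h3]
    field_simp
    ring

theorem rel_local (hI : IsOpen I) {E : Set ℝ} (hE : E.Finite) {m n : ℤ} (hm : m ≠ 0) (hn : n ≠ 0)
    (hR : ResProp D E m n) {α ρ C x₁ : ℝ} (hα : 0 < α) (hρ : 0 < ρ) (hx₁ : x₁ ∈ J D)
    (h1 : 1 / D.v x₁ + ρ ^ 2 / D.u x₁ = C)
    (h2 : D.v1 x₁ * D.u x₁ ^ 2 + ρ ^ 2 * (D.u1 x₁ * D.v x₁ ^ 2) = 0)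
    (h4 : 2 * D.u x₁ ^ 2 * D.v1 x₁ = α ^ 2 * D.w x₁ * (D.u2 x₁ * D.v1 x₁ - D.u1 x₁ * D.v2 x₁)) :
    ∀ᶠ x in 𝓝 x₁, Rel D α ρ C x := by
  obtain ⟨ε, hε, hball⟩ := Metric.isOpen_iff.1 (isOpen_J hI) x₁ hx₁
  rw [Real.ball_eq_Ioo] at hball
  set s : Set ℝ := Ioo (x₁ - ε) (x₁ + ε) with hs
  have hx₁s : x₁ ∈ s := ⟨by linarith, by linarith⟩
  have hso : IsOpen s := isOpen_Ioo
  obtain ⟨c1, c2⟩ := local_const hI hE hm hn hR hball hso ordConnected_Ioo
  have hα₁ := (rel4_iff hx₁ hα).1 h4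
  have hρ₁ := (rel2_iff hx₁ hρ).1 h2
  have r4 : ∀ x ∈ s, D.u x / om D x = α := fun x hx => by rw [c1 x hx x₁ hx₁s, hα₁]
  have r2 : ∀ x ∈ s, D.u x = ρ * (kap D x * D.v x) := by
    intro x hx
    have h5 := c2 x hx x₁ hx₁s
    have h6 : kap D x₁ * D.v x₁ / om D x₁ = α / ρ := by
      rw [← hα₁, hρ₁]
      have := hρ.ne'
      field_simp
    rw [h6, div_eq_iff (om_pos (hball hx)).ne'] at h5
    have h7 := r4 x hx
    rw [div_eq_iff (om_pos (hball hx)).ne'] at h7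
    rw [h5, h7]
    field_simp
  have R4 : ∀ x ∈ s, 2 * D.u x ^ 2 * D.v1 x =
      α ^ 2 * D.w x * (D.u2 x * D.v1 x - D.u1 x * D.v2 x) := fun x hx =>
    (rel4_iff (hball hx) hα).2 (r4 x hx)
  have R2 : ∀ x ∈ s, D.v1 x * D.u x ^ 2 + ρ ^ 2 * (D.u1 x * D.v x ^ 2) = 0 := fun x hx =>
    (rel2_iff (hball hx) hρ).2 (r2 x hx)
  have R1 : ∀ x ∈ s, 1 / D.v x + ρ ^ 2 / D.u x = C := by
    intro x hx
    have hder : ∀ z ∈ s, HasDerivWithinAt (fun z => 1 / D.v z + ρ ^ 2 / D.u z) 0 s z := by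
      intro z hz
      have hzI := (hball hz).1
      have hu := (D.u_pos z hzI).ne'
      have hv := (D.v_pos z hzI).ne'
      have h5 := ((hasDerivAt_const z (1 : ℝ)).fun_div (D.dv z hzI) hv).fun_add
        ((hasDerivAt_const z (ρ ^ 2)).fun_div (D.du z hzI) hu)
      refine (h5.congr_deriv ?_).hasDerivWithinAt
      have h6 := R2 z hz
      field_simp
      linarith
    have h7 := (convex_Ioo (x₁ - ε) (x₁ + ε)).norm_image_sub_le_of_norm_hasDerivWithin_le (C := 0)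
      hder (fun z _ => by simp) hx₁s hx
    rw [zero_mul] at h7
    rw [← h1]
    exact sub_eq_zero.1 (norm_le_zero_iff.1 h7)
  filter_upwards [hso.mem_nhds hx₁s] with x hx
  have hxJ := hball hx
  have hxI := hxJ.1
  refine ⟨R1 x hx, R2 x hx, ?_, R4 x hx⟩
  have hu := D.u_pos x hxI
  have hv := D.v_pos x hxI
  have hv1 := J_v1_ne hxJ
  -- differentiate `R2`
  have h5 : HasDerivAt (fun z => D.v1 z * D.u z ^ 2 + ρ ^ 2 * (D.u1 z * D.v z ^ 2))
      (D.v2 x * D.u x ^ 2 + D.v1 x * (2 * D.u x * D.u1 x) +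
        ρ ^ 2 * (D.u2 x * D.v x ^ 2 + D.u1 x * (2 * D.v x * D.v1 x))) x := by
    have h6 := ((D.dv1 x hxI).fun_mul ((D.du x hxI).fun_pow 2)).fun_add
      (((D.du1 x hxI).fun_mul ((D.dv x hxI).fun_pow 2)).const_mul (ρ ^ 2))
    refine h6.congr_deriv ?_
    push_cast
    ring
  have h6 : HasDerivAt (fun z => D.v1 z * D.u z ^ 2 + ρ ^ 2 * (D.u1 z * D.v z ^ 2)) 0 x := by
    refine (hasDerivAt_const x (0 : ℝ)).congr_of_eventuallyEq ?_
    filter_upwards [hso.mem_nhds hx] with z hz using R2 z hz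
  have h7 := h5.unique h6
  have e1 : D.u x + ρ ^ 2 * D.v x = C * D.u x * D.v x := by
    rw [← R1 x hx]
    field_simp
  have e2 : D.u x ^ 2 * (D.u2 x * D.v1 x - D.u1 x * D.v2 x) =
      2 * D.v1 x * D.u1 x ^ 2 * (C * D.u x * D.v x) := by
    rw [← e1]
    linear_combination (-D.u1 x) * h7 + D.u2 x * R2 x hx
  have e3 : 2 * D.v1 x * D.u x * (α ^ 2 * C * D.w x * D.u1 x ^ 2 * D.v x) =
      2 * D.v1 x * D.u x * D.u x ^ 3 := by
    linear_combination (-(α ^ 2 * D.w x)) * e2 - D.u x ^ 2 * R4 x hx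
  exact mul_left_cancel₀ (mul_ne_zero (mul_ne_zero two_ne_zero hv1) hu.ne') e3

theorem rel_mem_J {α ρ C x : ℝ} (hα : 0 < α) (hρ : 0 < ρ) (hx : x ∈ I) (h : Rel D α ρ C x) :
    x ∈ J D := by
  obtain ⟨_, h2, h3, h4⟩ := h
  have hw := D.w_pos x hx
  have hu := D.u_pos x hx
  have hv := D.v_pos x hx
  have hu1 : D.u1 x ≠ 0 := by
    intro h0
    rw [h0] at h3
    have : D.u x ^ 3 ≠ 0 := by positivity
    apply this
    rw [← h3]
    ring
  have h5 : D.u1 x * D.v1 x * D.u x ^ 2 = -(ρ ^ 2 * D.u1 x ^ 2 * D.v x ^ 2) := by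
    linear_combination D.u1 x * h2
  have h6 : D.u1 x * D.v1 x < 0 := by
    have h7 : 0 < ρ ^ 2 * D.u1 x ^ 2 * D.v x ^ 2 := by positivity
    have h8 : 0 < D.u x ^ 2 := by positivity
    by_contra hcon
    push Not at hcon
    have := mul_nonneg hcon h8.le
    linarith
  have hv1 : D.v1 x ≠ 0 := by
    intro h0
    rw [h0, mul_zero] at h6
    exact lt_irrefl _ h6
  refine ⟨hx, h6, ?_⟩
  have e1 : D.u2 x * D.v1 x - D.u1 x * D.v2 x = stiff D x * D.v1 x := by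
    rw [stiff]
    field_simp
  rw [e1] at h4
  have h9 : 2 * D.u x ^ 2 = α ^ 2 * D.w x * stiff D x := by
    apply mul_right_cancel₀ hv1
    linarith
  have h10 : 0 < α ^ 2 * D.w x := by positivity
  have h11 : 0 < 2 * D.u x ^ 2 := by positivity
  rw [h9] at h11
  exact (mul_pos_iff_of_pos_left h10).1 h11

theorem rel_all (hI : IsOpen I) (hIc : IsPreconnected I) {E : Set ℝ} (hE : E.Finite) {m n : ℤ}
    (hm : m ≠ 0) (hn : n ≠ 0) (hR : ResProp D E m n) {α ρ C x₁ : ℝ} (hα : 0 < α) (hρ : 0 < ρ)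
    (hx₁ : x₁ ∈ I) (h : Rel D α ρ C x₁) : ∀ x ∈ I, Rel D α ρ C x := by
  set S : Set ℝ := {x | x ∈ I ∧ Rel D α ρ C x} with hS
  have hSo : IsOpen S := by
    rw [isOpen_iff_mem_nhds]
    intro x hx
    have h1 := rel_local hI hE hm hn hR hα hρ (rel_mem_J hα hρ hx.1 hx.2) hx.2.1 hx.2.2.1 hx.2.2.2.2
    filter_upwards [h1, hI.mem_nhds hx.1] with y hy1 hy2
    exact ⟨hy2, hy1⟩
  have hsub : I ⊆ S := by
    refine hIc.subset_of_closure_inter_subset hSo ⟨x₁, hx₁, hx₁, h⟩ ?_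
    rintro x ⟨hx, hxI⟩
    refine ⟨hxI, ?_⟩
    have hw := (D.dw x hxI).continuousAt
    have hu := (D.du x hxI).continuousAt
    have hv := (D.dv x hxI).continuousAt
    have hu1 := (D.du1 x hxI).continuousAt
    have hv1 := (D.dv1 x hxI).continuousAt
    have hu2 := D.cu2.continuousAt (hI.mem_nhds hxI)
    have hv2 := D.cv2.continuousAt (hI.mem_nhds hxI)
    have hu0 := (D.u_pos x hxI).ne'
    have hv0 := (D.v_pos x hxI).ne'
    have : NeBot (𝓝[S] x) := mem_closure_iff_nhdsWithin_neBot.1 hx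
    have key : ∀ {f g : ℝ → ℝ}, ContinuousAt f x → ContinuousAt g x → (∀ y ∈ S, f y = g y) →
        f x = g x := by
      intro f g hf hg hfg
      have t1 : Tendsto f (𝓝[S] x) (𝓝 (f x)) := hf.mono_left nhdsWithin_le_nhds
      have t2 : Tendsto g (𝓝[S] x) (𝓝 (g x)) := hg.mono_left nhdsWithin_le_nhds
      refine tendsto_nhds_unique_of_eventuallyEq t1 t2 ?_
      filter_upwards [self_mem_nhdsWithin] with y hy using hfg y hy
    refine ⟨?_, ?_, ?_, ?_⟩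
    · refine key (f := fun x => 1 / D.v x + ρ ^ 2 / D.u x) (g := fun _ => C) ?_ continuousAt_const
        (fun y hy => hy.2.1)
      exact (continuousAt_const.div hv hv0).add (continuousAt_const.div hu hu0)
    · refine key (f := fun x => D.v1 x * D.u x ^ 2 + ρ ^ 2 * (D.u1 x * D.v x ^ 2))
        (g := fun _ => 0) ?_ continuousAt_const (fun y hy => hy.2.2.1)
      exact (hv1.mul (hu.pow 2)).add (continuousAt_const.mul (hu1.mul (hv.pow 2)))
    · refine key (f := fun x => α ^ 2 * C * D.w x * D.u1 x ^ 2 * D.v x)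
        (g := fun x => D.u x ^ 3) ?_ (hu.pow 3) (fun y hy => hy.2.2.2.1)
      exact ((continuousAt_const.mul hw).mul (hu1.pow 2)).mul hv
    · refine key (f := fun x => 2 * D.u x ^ 2 * D.v1 x)
        (g := fun x => α ^ 2 * D.w x * (D.u2 x * D.v1 x - D.u1 x * D.v2 x)) ?_ ?_
        (fun y hy => hy.2.2.2.2)
      · exact (continuousAt_const.mul (hu.pow 2)).mul hv1
      · exact (continuousAt_const.mul hw).mul ((hu2.mul hv1).sub (hu1.mul hv2))
  exact fun x hx => (hsub hx).2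

/-- From a point of `J` to all of `I`. -/
theorem rel_of_J (hI : IsOpen I) (hIc : IsPreconnected I) {E : Set ℝ} (hE : E.Finite) {m n : ℤ}
    (hm : m ≠ 0) (hn : n ≠ 0) (hR : ResProp D E m n) {x₁ : ℝ} (hx₁ : x₁ ∈ J D) :
    ∃ α ρ C : ℝ, 0 < α ∧ 0 < ρ ∧ ∀ x ∈ I, Rel D α ρ C x := by
  have hu := D.u_pos x₁ hx₁.1
  have hv := D.v_pos x₁ hx₁.1
  have hom := om_pos hx₁
  have hk := kap_pos hx₁
  set α := D.u x₁ / om D x₁ with hα
  set ρ := D.u x₁ / (kap D x₁ * D.v x₁) with hρ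
  have hα0 : 0 < α := by positivity
  have hρ0 : 0 < ρ := by positivity
  have h1 := rel_local hI hE hm hn hR hα0 hρ0 hx₁ rfl
    ((rel2_iff hx₁ hρ0).2 (by rw [hρ]; field_simp)) ((rel4_iff hx₁ hα0).2 rfl)
  exact ⟨α, ρ, _, hα0, hρ0, rel_all hI hIc hE hm hn hR hα0 hρ0 hx₁.1 h1.self_of_nhds⟩

end Pool.Agent.MSup
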