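import Mathlib
import Pool.Agent.MSup.Mode

/-!
Resonance of a mode at circular orbits of all but finitely many directions.
-/

set_option autoImplicit false

open Filter Topology Asymptotics Finset Polynomial

namespace Pool.Agent.MSup

namespace Mode

variable {I : Set ℝ} {D : Red I} {m n : ℤ} (M : Mode D m n)

theorem exists_direction (hI : Convex ℝ I) : ∃ L₀ : ℝ, L₀ ≠ 0 ∧ ∃ E : Set ℝ, E.Finite ∧
    ∀ κ ∉ E, ∀ x ∈ I, ∃ j, M.g L₀ (L₀ * κ) j x ≠ 0 := by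
  classical
  let S : Set ℕ := {j | ∃ x ∈ I, ∃ L K, M.g L K j x ≠ 0}
  have hSfin : S.Finite := by
    refine (Set.finite_range M.e1).subset ?_
    rintro j ⟨x, _, L, K, h⟩
    rw [g_eq] at h
    obtain ⟨i, _, hi⟩ := exists_ne_zero_of_sum_ne_zero h
    by_contra hj
    exact hi (if_neg fun hh => hj ⟨i, hh⟩)
  have hSne : S.Nonempty := by
    have h1 : M.pol M.L₁ M.K₁ M.x₁ ≠ 0 := by
      intro h
      apply M.ne
      have h2 := congrArg (eval (M.p₁ : ℂ)) h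
      simp only [pol, eval_finsetSum, eval_monomial, eval_zero] at h2
      rw [← h2]
      exact sum_congr rfl fun i _ => by ring
    obtain ⟨j, hj⟩ : ∃ j, (M.pol M.L₁ M.K₁ M.x₁).coeff j ≠ 0 := by
      by_contra hcon
      push Not at hcon
      exact h1 (Polynomial.ext fun j => by rw [hcon j, coeff_zero])
    exact ⟨j, M.x₁, M.hx₁, M.L₁, M.K₁, hj⟩
  obtain ⟨j₀, ⟨x₂, hx₂, L₂, K₂, h2⟩, hmax⟩ := Set.exists_max_image S id hSfin hSne
  have hz : ∀ j, j₀ < j → ∀ x ∈ I, ∀ L K, M.g L K j x = 0 := by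
    intro j hj x hx L K
    by_contra hcon
    have := hmax j ⟨x, hx, L, K, hcon⟩
    simp only [id] at this
    omega
  have hconst : ∀ L K, ∀ x ∈ I, ∀ y ∈ I, M.gh L K j₀ x = M.gh L K j₀ y := by
    intro L K x hx y hy
    have h1 : ∀ z ∈ I, HasDerivWithinAt (M.gh L K j₀) 0 I z := by
      intro z hz'
      have h3 := (M.hasDerivAt_gh L K j₀ hz').hasDerivWithinAt (s := I)
      have h4 : M.gh L K (j₀ + 2) z = 0 := (M.gh_ne_iff L K _ hz').2 (hz _ (by omega) z hz' L K)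
      have h5 : M.gh L K (j₀ + 1) z = 0 := (M.gh_ne_iff L K _ hz').2 (hz _ (by omega) z hz' L K)
      rw [h4, h5] at h3
      simpa using h3
    have h6 := hI.norm_image_sub_le_of_norm_hasDerivWithin_le (C := 0) h1
      (fun z _ => by simp) hy hx
    rw [zero_mul] at h6
    exact sub_eq_zero.1 (norm_le_zero_iff.1 h6)
  -- choose `L₀ ≠ 0`
  obtain ⟨L₀, hL₀, hL₀ne⟩ : ∃ L₀ : ℝ, M.g L₀ K₂ j₀ x₂ ≠ 0 ∧ L₀ ≠ 0 := by
    have hc : Continuous fun L : ℝ => M.g L K₂ j₀ x₂ := by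
      have : (fun L : ℝ => M.g L K₂ j₀ x₂) = fun L : ℝ => ∑ i, if M.e1 i = j₀ then
          M.c i x₂ * (L : ℂ) ^ M.e2 i * (K₂ : ℂ) ^ M.e3 i else 0 :=
        funext fun L => M.g_eq L K₂ j₀ x₂
      rw [this]
      refine continuous_finsetSum _ fun i _ => ?_
      by_cases h : M.e1 i = j₀
      · simp only [h, if_true]
        exact (continuous_const.mul (Complex.continuous_ofReal.pow _)).mul continuous_const
      · simp only [h, if_false]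
        exact continuous_const
    have hopen : IsOpen {L : ℝ | M.g L K₂ j₀ x₂ ≠ 0} := isOpen_ne.preimage hc
    obtain ⟨L₀, h1, h3⟩ := (dense_compl_singleton (0 : ℝ)).inter_open_nonempty _ hopen ⟨L₂, h2⟩
    exact ⟨L₀, h1, h3⟩
  let Q : ℂ[X] := ∑ i, if M.e1 i = j₀ then
    monomial (M.e3 i) (M.c i x₂ * (L₀ : ℂ) ^ M.e2 i * (L₀ : ℂ) ^ M.e3 i) else 0
  have hQ : ∀ κ : ℝ, Q.eval (κ : ℂ) = M.g L₀ (L₀ * κ) j₀ x₂ := by
    intro κ
    rw [g_eq]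
    simp only [Q, eval_finsetSum]
    refine sum_congr rfl fun i _ => ?_
    split_ifs with h
    · rw [eval_monomial]
      push_cast
      rw [mul_pow]
      ring
    · simp
  have hQne : Q ≠ 0 := by
    intro h
    apply hL₀
    have h3 := hQ (K₂ / L₀)
    rw [h, eval_zero, mul_div_cancel₀ _ hL₀ne] at h3
    exact h3.symm
  refine ⟨L₀, hL₀ne, {κ : ℝ | Q.eval (κ : ℂ) = 0}, ?_, ?_⟩
  · have h3 : {κ : ℝ | Q.eval (κ : ℂ) = 0} = ((↑) : ℝ → ℂ) ⁻¹' (Q.rootSet ℂ) := by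
      ext κ
      rw [Set.mem_preimage, mem_rootSet]
      simp only [aeval_def, eval₂_id, Algebra.algebraMap_self]
      exact ⟨fun h => ⟨hQne, h⟩, fun h => h.2⟩
    rw [h3]
    exact (rootSet_finite Q ℂ).preimage Complex.ofReal_injective.injOn
  · intro κ hκ x hx
    refine ⟨j₀, ?_⟩
    intro h
    apply hκ
    change Q.eval (κ : ℂ) = 0
    rw [hQ, ← M.gh_ne_iff _ _ _ hx₂, hconst _ _ x₂ hx₂ x hx, M.gh_ne_iff _ _ _ hx]
    exact h

theorem reson (hIo : IsOpen I) {L₀ κ x₀ : ℝ} (hL₀ : L₀ ≠ 0) (hx₀ : x₀ ∈ I)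
    (hne : ∃ j, M.g L₀ (L₀ * κ) j x₀ ≠ 0) (hcrit : D.u1 x₀ + κ ^ 2 * D.v1 x₀ = 0) :
    (D.u2 x₀ + κ ^ 2 * D.v2 x₀ = 0 → m * D.u x₀ + n * (κ * D.v x₀) = 0) ∧
    (0 < D.u2 x₀ + κ ^ 2 * D.v2 x₀ → ∃ k : ℤ, m * D.u x₀ + n * (κ * D.v x₀) =
      k * √(D.w x₀ * (D.u2 x₀ + κ ^ 2 * D.v2 x₀) / 2)) := by
  have hw := D.w_pos x₀ hx₀
  have hr : 0 < √(D.w x₀) := Real.sqrt_pos.2 hw
  have hev : ∀ᶠ x in 𝓝 x₀, x ∈ I := hIo.mem_nhds hx₀
  set A : ℝ → ℝ := fun x => (D.u1 x * L₀ ^ 2 + D.v1 x * (L₀ * κ) ^ 2) / 2 with hA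
  set B : ℝ → ℝ := fun x => (m * D.u x * L₀ + n * D.v x * (L₀ * κ)) / √(D.w x) with hB
  have h1 : ∀ j, ∀ᶠ x in 𝓝 x₀, HasDerivAt (M.gh L₀ (L₀ * κ) j)
      (((j : ℂ) + 2) * (A x * M.gh L₀ (L₀ * κ) (j + 2) x) -
        Complex.I * (B x * M.gh L₀ (L₀ * κ) (j + 1) x)) x := by
    intro j
    filter_upwards [hev] with x hx
    exact M.hasDerivAt_gh L₀ (L₀ * κ) j hx
  have h2 : ∀ᶠ x in 𝓝 x₀, (A x : ℂ) * M.gh L₀ (L₀ * κ) 1 x =
      Complex.I * (B x * M.gh L₀ (L₀ * κ) 0 x) := by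
    filter_upwards [hev] with x hx
    have h3 := M.ode_zero L₀ (L₀ * κ) hx
    have h4 : (A x : ℂ) * M.g L₀ (L₀ * κ) 1 x = Complex.I *
      (((m * D.u x * L₀ + n * D.v x * (L₀ * κ) : ℝ) : ℂ) * M.g L₀ (L₀ * κ) 0 x) := by
      rw [hA]
      push_cast at h3 ⊢
      linear_combination h3
    simp only [gh, hB, pow_one, pow_zero, one_mul]
    rw [div_eq_mul_inv]
    push_cast at h4 ⊢
    linear_combination ((√(D.w x) : ℝ) : ℂ)⁻¹ * h4
  have h3 : A x₀ = 0 := by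
    rw [hA]
    have : D.u1 x₀ * L₀ ^ 2 + D.v1 x₀ * (L₀ * κ) ^ 2 = L₀ ^ 2 * (D.u1 x₀ + κ ^ 2 * D.v1 x₀) := by
      ring
    simp only
    rw [this, hcrit]
    ring
  have h4 : HasDerivAt A (L₀ ^ 2 * (D.u2 x₀ + κ ^ 2 * D.v2 x₀) / 2) x₀ := by
    have h5 := (((D.du1 x₀ hx₀).mul_const (L₀ ^ 2)).fun_add
      ((D.dv1 x₀ hx₀).mul_const ((L₀ * κ) ^ 2))).div_const 2
    refine h5.congr_deriv ?_
    ring
  have h5 : ContinuousAt B x₀ := by
    refine ContinuousAt.div ?_ ?_ hr.ne'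
    · exact ((continuousAt_const.mul (D.du x₀ hx₀).continuousAt).mul continuousAt_const).add
        ((continuousAt_const.mul (D.dv x₀ hx₀).continuousAt).mul continuousAt_const)
    · exact (D.dw x₀ hx₀).continuousAt.sqrt
  have h6 : ∃ j, M.gh L₀ (L₀ * κ) j x₀ ≠ 0 := by
    obtain ⟨j, hj⟩ := hne
    exact ⟨j, fun h => hj ((M.gh_ne_iff _ _ _ hx₀).1 h)⟩
  obtain ⟨r1, r2⟩ := resonance h1 h2 h3 h4 h5 h6
  have hBx : B x₀ = L₀ * (m * D.u x₀ + n * (κ * D.v x₀)) / √(D.w x₀) := by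
    simp only [hB]
    ring
  constructor
  · intro h
    have h7 := r1 (by rw [h]; ring)
    rw [hBx, div_eq_zero_iff] at h7
    rcases h7 with h7 | h7
    · exact (mul_eq_zero.1 h7).resolve_left hL₀
    · exact absurd h7 hr.ne'
  · intro h
    obtain ⟨k, hk⟩ := r2 (by positivity)
    rw [hBx, div_eq_iff hr.ne'] at hk
    have e1 : √(L₀ ^ 2 * (D.u2 x₀ + κ ^ 2 * D.v2 x₀) / 2) * √(D.w x₀) =
        |L₀| * √(D.w x₀ * (D.u2 x₀ + κ ^ 2 * D.v2 x₀) / 2) := by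
      rw [← Real.sqrt_sq_eq_abs, ← Real.sqrt_mul (by positivity), ← Real.sqrt_mul (by positivity)]
      congr 1
      ring
    rw [mul_assoc, e1] at hk
    rcases le_or_gt 0 L₀ with hL | hL
    · refine ⟨k, ?_⟩
      rw [abs_of_nonneg hL] at hk
      apply mul_left_cancel₀ hL₀
      rw [hk]
      ring
    · refine ⟨-k, ?_⟩
      rw [abs_of_neg hL] at hk
      apply mul_left_cancel₀ hL₀
      rw [hk]
      push_cast
      ring

include M in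
/-- For all but finitely many directions: at every circular orbit of positive stiffness
`2mu` and `2nκv` are integer multiples of `√(w D₂ / 2)`, and the stiffness is not zero
if `m ≠ 0`. -/
theorem exists_exc (hI : Convex ℝ I) (hIo : IsOpen I) : ∃ E : Set ℝ, E.Finite ∧ ∀ κ ∉ E,
    ∀ x₀ ∈ I, D.u1 x₀ + κ ^ 2 * D.v1 x₀ = 0 →
    (D.u2 x₀ + κ ^ 2 * D.v2 x₀ = 0 → m * D.u x₀ = 0) ∧
    (0 < D.u2 x₀ + κ ^ 2 * D.v2 x₀ →
      (∃ k : ℤ, 2 * m * D.u x₀ = k * √(D.w x₀ * (D.u2 x₀ + κ ^ 2 * D.v2 x₀) / 2)) ∧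
      (∃ k : ℤ, 2 * n * (κ * D.v x₀) = k * √(D.w x₀ * (D.u2 x₀ + κ ^ 2 * D.v2 x₀) / 2))) := by
  obtain ⟨L₀, hL₀, E, hE, hdir⟩ := M.exists_direction hI
  refine ⟨E ∪ (fun x => -x) ⁻¹' E, hE.union (hE.preimage neg_injective.injOn), ?_⟩
  intro κ hκ x₀ hx₀ hcrit
  have hκ1 : κ ∉ E := fun h => hκ (Or.inl h)
  have hκ2 : -κ ∉ E := fun h => hκ (Or.inr h)
  have e : (-κ) ^ 2 = κ ^ 2 := by ring
  obtain ⟨a1, a2⟩ := M.reson hIo hL₀ hx₀ (hdir κ hκ1 x₀ hx₀) hcrit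
  obtain ⟨b1, b2⟩ := M.reson hIo hL₀ hx₀ (hdir (-κ) hκ2 x₀ hx₀) (by rw [e]; exact hcrit)
  rw [e] at b1 b2
  constructor
  · intro h
    have h1 := a1 h
    have h2 := b1 h
    linarith
  · intro h
    obtain ⟨k1, h1⟩ := a2 h
    obtain ⟨k2, h2⟩ := b2 h
    constructor
    · refine ⟨k1 + k2, ?_⟩
      push_cast
      linarith
    · refine ⟨k1 - k2, ?_⟩
      push_cast
      linarith

end Mode

end Pool.Agent.MSup
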