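import Mathlib
import Pool.Agent.MSup.Core2
import Pool.Agent.MSup.Direc

/-!
Existence of a nondegenerate stable circular orbit, and the explicit relations from two modes.
-/

set_option autoImplicit false

open Filter Topology Set

namespace Pool.Agent.MSup

variable {I : Set ℝ} {D : Red I}

theorem exists_J (hI : IsOpen I) {E : Set ℝ} (hE : E.Finite) {m n : ℤ}
    (hm : m ≠ 0) (hn : n ≠ 0) (hR : ResProp D E m n)
    (hmin : ∀ κ : ℝ, 0 < κ → ∃ x ∈ I, ∀ y ∈ I, D.u x + κ ^ 2 * D.v x ≤ D.u y + κ ^ 2 * D.v y) :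
    ∃ x, x ∈ J D := by
  obtain ⟨κ₀, hκ₀, hκE⟩ := (hE.countable.dense_compl ℝ).inter_open_nonempty (Ioo 0 1) isOpen_Ioo
    (nonempty_Ioo.2 zero_lt_one)
  obtain ⟨x₀, hx₀, hx₀min⟩ := hmin κ₀ hκ₀.1
  have hloc : IsLocalMin (fun x => D.u x + κ₀ ^ 2 * D.v x) x₀ := by
    filter_upwards [hI.mem_nhds hx₀] with y hy using hx₀min y hy
  have hder : ∀ x ∈ I, HasDerivAt (fun x => D.u x + κ₀ ^ 2 * D.v x)
      (D.u1 x + κ₀ ^ 2 * D.v1 x) x := fun x hx =>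
    (D.du x hx).fun_add ((D.dv x hx).const_mul _)
  have hder2 : HasDerivAt (fun x => D.u1 x + κ₀ ^ 2 * D.v1 x) (D.u2 x₀ + κ₀ ^ 2 * D.v2 x₀) x₀ :=
    (D.du1 x₀ hx₀).fun_add ((D.dv1 x₀ hx₀).const_mul _)
  have hcrit : D.u1 x₀ + κ₀ ^ 2 * D.v1 x₀ = 0 := hloc.hasDerivAt_eq_zero (hder x₀ hx₀)
  obtain ⟨hne, hres⟩ := hR κ₀ hκE x₀ hx₀ hcrit
  have hD2 : 0 < D.u2 x₀ + κ₀ ^ 2 * D.v2 x₀ := by
    by_contra hcon
    have hlt : D.u2 x₀ + κ₀ ^ 2 * D.v2 x₀ < 0 := lt_of_le_of_ne (not_lt.1 hcon) hne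
    have hd1 : deriv (fun x => D.u x + κ₀ ^ 2 * D.v x) =ᶠ[𝓝 x₀]
        fun x => D.u1 x + κ₀ ^ 2 * D.v1 x := by
      filter_upwards [hI.mem_nhds hx₀] with y hy using (hder y hy).deriv
    have hd2 : deriv (deriv (fun x => D.u x + κ₀ ^ 2 * D.v x)) x₀ =
        D.u2 x₀ + κ₀ ^ 2 * D.v2 x₀ := (hder2.congr_of_eventuallyEq hd1).deriv
    have hmax : IsLocalMax (fun x => D.u x + κ₀ ^ 2 * D.v x) x₀ :=
      isLocalMax_of_deriv_deriv_neg (by rw [hd2]; exact hlt)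
        (by rw [(hder x₀ hx₀).deriv]; exact hcrit) (hder x₀ hx₀).continuousAt
    have hconst : (fun x => D.u x + κ₀ ^ 2 * D.v x) =ᶠ[𝓝 x₀]
        fun _ => D.u x₀ + κ₀ ^ 2 * D.v x₀ := by
      filter_upwards [hmax, hloc] with y hy1 hy2 using le_antisymm hy1 hy2
    have hd3 : (fun x => D.u1 x + κ₀ ^ 2 * D.v1 x) =ᶠ[𝓝 x₀] fun _ => 0 := by
      have h1 := hconst.eventuallyEq_nhds
      filter_upwards [h1, hI.mem_nhds hx₀] with y hy1 hy2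
      exact (hder y hy2).unique ((hasDerivAt_const y _).congr_of_eventuallyEq hy1)
    have h2 := hder2.unique ((hasDerivAt_const x₀ (0 : ℝ)).congr_of_eventuallyEq hd3)
    exact hne h2
  by_cases hv1 : D.v1 x₀ = 0
  · exfalso
    have hu1 : D.u1 x₀ = 0 := by
      rw [hv1, mul_zero, add_zero] at hcrit
      exact hcrit
    have hw := D.w_pos x₀ hx₀
    have hu := D.u_pos x₀ hx₀
    have hv := D.v_pos x₀ hx₀
    set q : ℝ → ℝ := fun κ => √(D.w x₀ * (D.u2 x₀ + κ ^ 2 * D.v2 x₀) / 2) with hq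
    have hcq : Continuous fun κ : ℝ => D.u2 x₀ + κ ^ 2 * D.v2 x₀ := by fun_prop
    have hopen : IsOpen {κ : ℝ | 0 < κ ∧ 0 < D.u2 x₀ + κ ^ 2 * D.v2 x₀} :=
      (isOpen_lt continuous_const continuous_id).inter (isOpen_lt continuous_const hcq)
    obtain ⟨ε, hε, hball⟩ := Metric.isOpen_iff.1 hopen κ₀ ⟨hκ₀.1, hD2⟩
    rw [Real.ball_eq_Ioo] at hball
    set s : Set ℝ := Ioo (κ₀ - ε) (κ₀ + ε) with hs
    have hqpos : ∀ κ ∈ s, 0 < q κ := by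
      intro κ hκ
      have := (hball hκ).2
      exact Real.sqrt_pos.2 (by positivity)
    have hqc : ContinuousOn q s := by
      apply Continuous.continuousOn
      fun_prop
    have hval : ∀ κ ∈ s, κ ∉ E → (∃ k : ℤ, 2 * m * D.u x₀ = k * q κ) ∧
        (∃ k : ℤ, 2 * n * (κ * D.v x₀) = k * q κ) := by
      intro κ hκ hκE
      exact (hR κ hκE x₀ hx₀ (by rw [hu1, hv1]; ring)).2 (hball hκ).2
    have h1 := const_of_int_values (isPreconnected_Ioo : IsPreconnected s) isOpen_Ioo hE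
      (f := fun κ => 2 * m * D.u x₀ / q κ)
      (continuousOn_const.div hqc fun κ hκ => (hqpos κ hκ).ne')
      (fun κ hκ hκE => by
        obtain ⟨k, hk⟩ := (hval κ hκ hκE).1
        refine ⟨k, ?_⟩
        rw [hk, mul_div_cancel_right₀ _ (hqpos κ hκ).ne'])
    have h2 := const_of_int_values (isPreconnected_Ioo : IsPreconnected s) isOpen_Ioo hE
      (f := fun κ => 2 * n * (κ * D.v x₀) / q κ)
      (ContinuousOn.div (by fun_prop) hqc fun κ hκ => (hqpos κ hκ).ne')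
      (fun κ hκ hκE => by
        obtain ⟨k, hk⟩ := (hval κ hκ hκE).2
        refine ⟨k, ?_⟩
        rw [hk, mul_div_cancel_right₀ _ (hqpos κ hκ).ne'])
    have hmR : (2 * (m : ℝ) * D.u x₀) ≠ 0 :=
      mul_ne_zero (mul_ne_zero two_ne_zero (by exact_mod_cast hm)) hu.ne'
    have hnR : (2 * (n : ℝ)) ≠ 0 := mul_ne_zero two_ne_zero (by exact_mod_cast hn)
    have k0 : κ₀ ∈ s := ⟨by linarith, by linarith⟩
    have k1 : κ₀ + ε / 2 ∈ s := ⟨by linarith, by linarith⟩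
    have e1 := h1 κ₀ k0 _ k1
    have e2 := h2 κ₀ k0 _ k1
    have p0 := hqpos κ₀ k0
    have p1 := hqpos _ k1
    rw [div_eq_div_iff p0.ne' p1.ne'] at e1 e2
    have e3 : q (κ₀ + ε / 2) = q κ₀ := mul_left_cancel₀ hmR e1
    rw [e3] at e2
    have e4 := mul_left_cancel₀ hnR (by
      have := mul_right_cancel₀ p0.ne' e2
      exact this)
    have e5 := mul_right_cancel₀ hv.ne' e4
    linarith
  · refine ⟨x₀, hx₀, ?_, ?_⟩
    · have h1 : D.u1 x₀ = -(κ₀ ^ 2 * D.v1 x₀) := by linarith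
      rw [h1]
      have h2 : 0 < κ₀ ^ 2 * D.v1 x₀ ^ 2 := by
        have := hκ₀.1
        positivity
      linarith
    · have h1 : D.u1 x₀ = -(κ₀ ^ 2 * D.v1 x₀) := by linarith
      rw [stiff, h1]
      have h2 : D.u2 x₀ - -(κ₀ ^ 2 * D.v1 x₀) / D.v1 x₀ * D.v2 x₀ =
          D.u2 x₀ + κ₀ ^ 2 * D.v2 x₀ := by
        field_simp
        ring
      rw [h2]
      exact hD2

/-- Two modes, one with `m ≠ 0` and one with `n ≠ 0`, force the explicit relations. -/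
theorem rel_of_modes (hI : IsOpen I) (hIc : Convex ℝ I) {m₁ n₁ m₂ n₂ : ℤ} (M₁ : Mode D m₁ n₁)
    (M₂ : Mode D m₂ n₂) (hm : m₁ ≠ 0) (hn : n₂ ≠ 0)
    (hmin : ∀ κ : ℝ, 0 < κ → ∃ x ∈ I, ∀ y ∈ I, D.u x + κ ^ 2 * D.v x ≤ D.u y + κ ^ 2 * D.v y) :
    ∃ α ρ C : ℝ, 0 < α ∧ 0 < ρ ∧ ∀ x ∈ I, Rel D α ρ C x := by
  obtain ⟨E₁, hE₁, h1⟩ := M₁.exists_exc hIc hI
  obtain ⟨E₂, hE₂, h2⟩ := M₂.exists_exc hIc hI
  have hR : ResProp D (E₁ ∪ E₂) m₁ n₂ := by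
    intro κ hκ x hx hcrit
    have a := h1 κ (fun h => hκ (Or.inl h)) x hx hcrit
    have b := h2 κ (fun h => hκ (Or.inr h)) x hx hcrit
    refine ⟨fun h0 => ?_, fun h0 => ⟨(a.2 h0).1, (b.2 h0).2⟩⟩
    have h3 := a.1 h0
    have hmR : (m₁ : ℝ) ≠ 0 := by exact_mod_cast hm
    exact (mul_ne_zero hmR (D.u_pos x hx).ne') h3
  obtain ⟨x₁, hx₁⟩ := exists_J hI (hE₁.union hE₂) hm hn hR hmin
  exact rel_of_J hI hIc.isPreconnected (hE₁.union hE₂) hm hn hR hx₁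

end Pool.Agent.MSup
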