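import Mathlib
import Pool.Agent.MSup.Expand
import Pool.Agent.MSup.Start

/-!
From integrals on the cotangent bundle of the sphere to modes of the reduced Hamiltonian.
-/

set_option autoImplicit false

open Filter Topology Set
open scoped ContDiff

namespace Pool.Agent.MSup

variable {a b : ℕ}

/-- the factor `sin^(-e2) cos^(-e3)` -/
noncomputable def rho (e2 e3 : ℕ) (ψ : ℝ) : ℝ := (Real.sin ψ)⁻¹ ^ e2 * (Real.cos ψ)⁻¹ ^ e3

theorem hasDerivAt_rho (e2 e3 : ℕ) {ψ : ℝ} (hs : Real.sin ψ ≠ 0) (hc : Real.cos ψ ≠ 0) :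
    HasDerivAt (rho e2 e3) (deriv (rho e2 e3) ψ) ψ := by
  have h1 : DifferentiableAt ℝ (rho e2 e3) ψ := by
    unfold rho
    exact ((Real.differentiableAt_sin.inv hs).pow _).mul ((Real.differentiableAt_cos.inv hc).pow _)
  exact h1.hasDerivAt

/-- the torus function of a coefficient -/
noncomputable def Expn.tf {R : Frame a b} {F : Ph a b → ℝ} (X : Expn R F) (i : X.ι) : TorusFn :=
  TorusFn.ofContDiff (X.c i) ((X.hc i).of_le (by simp)) (X.per1 i) (X.per2 i)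

theorem fderiv_dPsi {R : Frame a b} {F : Ph a b → ℝ} (X : Expn R F) (hF : PolyInMomenta F)
    {ψ : ℝ} (hs : Real.sin ψ ≠ 0) (hc : Real.cos ψ ≠ 0) (θ φ p L K dψ dθ dφ dp : ℝ) :
    fderiv ℝ (lift F) (R.Psi ψ θ φ p L K) (R.dPsi ψ θ φ p L K dψ dθ dφ dp) =
      ∑ i, (((deriv (rho (X.e2 i) (X.e3 i)) ψ * dψ * (X.tf i).c (ψ, θ, φ) +
        rho (X.e2 i) (X.e3 i) ψ * (dψ * (X.tf i).cx (ψ, θ, φ) + dθ * (X.tf i).ct (ψ, θ, φ) +
          dφ * (X.tf i).cp (ψ, θ, φ))) * p ^ X.e1 i +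
        rho (X.e2 i) (X.e3 i) ψ * (X.tf i).c (ψ, θ, φ) * (X.e1 i * p ^ (X.e1 i - 1) * dp)) *
        (L ^ X.e2 i * K ^ X.e3 i)) := by
  have hz := R.Psi_mem ψ θ φ p L K
  have hd : DifferentiableAt ℝ (lift F) (R.Psi ψ θ φ p L K) :=
    (contDiffAt_lift hF (TS_pos hz)).differentiableAt (by simp)
  have h0 : ∀ x dx : ℝ, x + (0 : ℝ) * dx = x := fun x dx => by ring
  have hlin : ∀ x dx : ℝ, HasDerivAt (fun t : ℝ => x + t * dx) dx 0 := by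
    intro x dx
    simpa using ((hasDerivAt_id (0 : ℝ)).mul_const dx).const_add x
  have h1 : HasDerivAt (fun t : ℝ => lift F (R.Psi (ψ + t * dψ) (θ + t * dθ) (φ + t * dφ)
      (p + t * dp) L K))
      (fderiv ℝ (lift F) (R.Psi ψ θ φ p L K) (R.dPsi ψ θ φ p L K dψ dθ dφ dp)) 0 := by
    have h4 : HasFDerivAt (lift F) (fderiv ℝ (lift F) (R.Psi ψ θ φ p L K))
        (R.Psi (ψ + 0 * dψ) (θ + 0 * dθ) (φ + 0 * dφ) (p + 0 * dp) L K) := by
      rw [h0, h0, h0, h0]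
      exact hd.hasFDerivAt
    exact HasFDerivAt.comp_hasDerivAt (l := lift F) (0 : ℝ) h4
      (R.hasDerivAt_Psi hs hc θ φ p L K dψ dθ dφ dp)
  have h2 : (fun t : ℝ => lift F (R.Psi (ψ + t * dψ) (θ + t * dθ) (φ + t * dφ)
      (p + t * dp) L K)) = fun t => ∑ i, rho (X.e2 i) (X.e3 i) (ψ + t * dψ) *
        X.c i (ψ + t * dψ, θ + t * dθ, φ + t * dφ) * (p + t * dp) ^ X.e1 i *
        (L ^ X.e2 i * K ^ X.e3 i) := by
    funext t
    rw [lift_eq (R.Psi_mem _ _ _ _ _ _), X.eq]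
    refine Finset.sum_congr rfl fun i _ => ?_
    rw [rho, div_eq_mul_inv, div_eq_mul_inv, mul_pow, mul_pow]
    ring
  have h3 : HasDerivAt (fun t : ℝ => ∑ i, rho (X.e2 i) (X.e3 i) (ψ + t * dψ) *
        X.c i (ψ + t * dψ, θ + t * dθ, φ + t * dφ) * (p + t * dp) ^ X.e1 i *
        (L ^ X.e2 i * K ^ X.e3 i))
      (∑ i, (((deriv (rho (X.e2 i) (X.e3 i)) ψ * dψ * (X.tf i).c (ψ, θ, φ) +
        rho (X.e2 i) (X.e3 i) ψ * (dψ * (X.tf i).cx (ψ, θ, φ) + dθ * (X.tf i).ct (ψ, θ, φ) +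
          dφ * (X.tf i).cp (ψ, θ, φ))) * p ^ X.e1 i +
        rho (X.e2 i) (X.e3 i) ψ * (X.tf i).c (ψ, θ, φ) * (X.e1 i * p ^ (X.e1 i - 1) * dp)) *
        (L ^ X.e2 i * K ^ X.e3 i))) 0 := by
    refine HasDerivAt.fun_sum fun i _ => ?_
    have g1 : HasDerivAt (fun t : ℝ => rho (X.e2 i) (X.e3 i) (ψ + t * dψ))
        (deriv (rho (X.e2 i) (X.e3 i)) ψ * dψ) 0 := by
      have h5 : HasDerivAt (rho (X.e2 i) (X.e3 i)) (deriv (rho (X.e2 i) (X.e3 i)) ψ)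
          (ψ + 0 * dψ) := by
        rw [h0]
        exact hasDerivAt_rho _ _ hs hc
      exact HasDerivAt.comp (h₂ := rho (X.e2 i) (X.e3 i)) (0 : ℝ) h5 (hlin ψ dψ)
    have g2 : HasDerivAt (fun t : ℝ => X.c i (ψ + t * dψ, θ + t * dθ, φ + t * dφ))
        (dψ * (X.tf i).cx (ψ, θ, φ) + dθ * (X.tf i).ct (ψ, θ, φ) + dφ * (X.tf i).cp (ψ, θ, φ))
        0 := by
      have h5 : HasFDerivAt (X.c i) (fderiv ℝ (X.c i) (ψ, θ, φ))
          (ψ + 0 * dψ, θ + 0 * dθ, φ + 0 * dφ) := by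
        rw [h0, h0, h0]
        exact ((X.hc i).differentiable (by simp) _).hasFDerivAt
      have h6 := HasFDerivAt.comp_hasDerivAt (l := X.c i) (0 : ℝ) h5
        ((hlin ψ dψ).prodMk ((hlin θ dθ).prodMk (hlin φ dφ)))
      refine h6.congr_deriv ?_
      have h7 : (dψ, dθ, dφ) = dψ • ((1 : ℝ), (0 : ℝ), (0 : ℝ)) +
          (dθ • ((0 : ℝ), (1 : ℝ), (0 : ℝ)) + dφ • ((0 : ℝ), (0 : ℝ), (1 : ℝ))) := by
        simp
      rw [h7, map_add, map_add, map_smul, map_smul, map_smul, smul_eq_mul, smul_eq_mul,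
        smul_eq_mul, ← add_assoc]
      rfl
    have g3 := ((g1.fun_mul g2).fun_mul ((hlin p dp).fun_pow (X.e1 i))).mul_const
      (L ^ X.e2 i * K ^ X.e3 i)
    refine g3.congr_deriv ?_
    simp only [h0]
    have g4 : (X.tf i).c = X.c i := rfl
    rw [g4]
  rw [h2] at h1
  exact h1.unique h3

/-- The open interval of the radial coordinate. -/
abbrev I0 : Set ℝ := Ioo 0 (Real.pi / 2)

theorem sin_pos' {ψ : ℝ} (h : ψ ∈ I0) : 0 < Real.sin ψ :=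
  Real.sin_pos_of_pos_of_lt_pi h.1 (by linarith [h.2, Real.pi_pos])

theorem cos_pos' {ψ : ℝ} (h : ψ ∈ I0) : 0 < Real.cos ψ :=
  Real.cos_pos_of_mem_Ioo ⟨by linarith [h.1, Real.pi_pos], h.2⟩

theorem sin_sq_mem {ψ : ℝ} : Real.sin ψ ^ 2 ∈ Icc (0 : ℝ) 1 :=
  ⟨by positivity, Real.sin_sq_le_one ψ⟩

theorem dsin2 (ψ : ℝ) : HasDerivAt (fun x => Real.sin x ^ 2) (2 * Real.sin ψ * Real.cos ψ) ψ := by
  have := (Real.hasDerivAt_sin ψ).fun_pow 2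
  refine this.congr_deriv ?_
  push_cast
  ring

theorem dcos2 (ψ : ℝ) :
    HasDerivAt (fun x => Real.cos x ^ 2) (-(2 * Real.sin ψ * Real.cos ψ)) ψ := by
  have := (Real.hasDerivAt_cos ψ).fun_pow 2
  refine this.congr_deriv ?_
  push_cast
  ring

/-- The conditions on `P, Q, S`: smooth, positive metric. -/
structure Good (P Q S : ℝ → ℝ) : Prop where
  hP : ContDiff ℝ ∞ P
  hQ : ContDiff ℝ ∞ Q
  hS : ContDiff ℝ ∞ S
  posP : ∀ t ∈ Icc (0 : ℝ) 1, 0 < P t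
  posQ : ∀ t ∈ Icc (0 : ℝ) 1, 0 < Q t
  posW : ∀ t ∈ Icc (0 : ℝ) 1, 0 < (1 - t) * P t + t * Q t + t * (1 - t) * S t

namespace Good

variable {P Q S : ℝ → ℝ} (G : Good P Q S)

include G

theorem dP (t : ℝ) : HasDerivAt P (deriv P t) t := (G.hP.differentiable (by simp) _).hasDerivAt
theorem dQ (t : ℝ) : HasDerivAt Q (deriv Q t) t := (G.hQ.differentiable (by simp) _).hasDerivAt
theorem dS (t : ℝ) : HasDerivAt S (deriv S t) t := (G.hS.differentiable (by simp) _).hasDerivAt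

theorem cdP : ContDiff ℝ ∞ (deriv P) := (contDiff_infty_iff_deriv.1 G.hP).2
theorem cdQ : ContDiff ℝ ∞ (deriv Q) := (contDiff_infty_iff_deriv.1 G.hQ).2

theorem dPs (ψ : ℝ) : HasDerivAt (fun x => P (Real.sin x ^ 2))
    (deriv P (Real.sin ψ ^ 2) * (2 * Real.sin ψ * Real.cos ψ)) ψ :=
  HasDerivAt.comp (h₂ := P) ψ (G.dP _) (dsin2 ψ)

theorem dQs (ψ : ℝ) : HasDerivAt (fun x => Q (Real.sin x ^ 2))
    (deriv Q (Real.sin ψ ^ 2) * (2 * Real.sin ψ * Real.cos ψ)) ψ :=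
  HasDerivAt.comp (h₂ := Q) ψ (G.dQ _) (dsin2 ψ)

theorem dSs (ψ : ℝ) : HasDerivAt (fun x => S (Real.sin x ^ 2))
    (deriv S (Real.sin ψ ^ 2) * (2 * Real.sin ψ * Real.cos ψ)) ψ :=
  HasDerivAt.comp (h₂ := S) ψ (G.dS _) (dsin2 ψ)

theorem hw (ψ : ℝ) : HasDerivAt (wF P Q S) (w1F P Q S ψ) ψ := by
  have h := (((G.dPs ψ).fun_mul (dcos2 ψ)).fun_add ((G.dQs ψ).fun_mul (dsin2 ψ))).fun_add
    ((G.dSs ψ).fun_mul ((dsin2 ψ).fun_mul (dcos2 ψ)))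
  refine h.congr_deriv ?_
  unfold w1F
  ring

theorem hu {ψ : ℝ} (hs : Real.sin ψ ≠ 0) : HasDerivAt (uF P) (u1F P ψ) ψ := by
  have h := (G.dPs ψ).fun_div (dsin2 ψ) (pow_ne_zero 2 hs)
  refine h.congr_deriv ?_
  unfold u1F
  field_simp

theorem hv {ψ : ℝ} (hc : Real.cos ψ ≠ 0) : HasDerivAt (vF Q) (v1F Q ψ) ψ := by
  have h := (G.dQs ψ).fun_div (dcos2 ψ) (pow_ne_zero 2 hc)
  refine h.congr_deriv ?_
  unfold v1F
  field_simp
  ring

theorem cu1 : ContDiffOn ℝ ∞ (u1F P) I0 := by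
  intro ψ hψ
  have hs := (sin_pos' hψ).ne'
  have h1 := G.cdP
  have h2 := G.hP
  unfold u1F
  refine ContDiffAt.contDiffWithinAt ?_
  refine ContDiffAt.div ?_ ?_ (pow_ne_zero 3 hs)
  · apply ContDiff.contDiffAt
    fun_prop
  · apply ContDiff.contDiffAt
    fun_prop

theorem cv1 : ContDiffOn ℝ ∞ (v1F Q) I0 := by
  intro ψ hψ
  have hc := (cos_pos' hψ).ne'
  have h1 := G.cdQ
  have h2 := G.hQ
  unfold v1F
  refine ContDiffAt.contDiffWithinAt ?_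
  refine ContDiffAt.div ?_ ?_ (pow_ne_zero 3 hc)
  · apply ContDiff.contDiffAt
    fun_prop
  · apply ContDiff.contDiffAt
    fun_prop

/-- The reduced Hamiltonian. -/
noncomputable def red : Red I0 where
  w := wF P Q S
  u := uF P
  v := vF Q
  w1 := w1F P Q S
  u1 := u1F P
  v1 := v1F Q
  u2 := deriv (u1F P)
  v2 := deriv (v1F Q)
  w_pos := by
    intro ψ _
    have h := G.posW _ (sin_sq_mem (ψ := ψ))
    unfold wF
    rw [Real.cos_sq']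
    linarith
  u_pos := fun ψ h => div_pos (G.posP _ sin_sq_mem) (pow_pos (sin_pos' h) 2)
  v_pos := fun ψ h => div_pos (G.posQ _ sin_sq_mem) (pow_pos (cos_pos' h) 2)
  dw := fun ψ _ => G.hw ψ
  du := fun ψ h => G.hu (sin_pos' h).ne'
  dv := fun ψ h => G.hv (cos_pos' h).ne'
  du1 := fun ψ h => ((G.cu1.differentiableOn (by simp) ψ h).differentiableAt
    (isOpen_Ioo.mem_nhds h)).hasDerivAt
  dv1 := fun ψ h => ((G.cv1.differentiableOn (by simp) ψ h).differentiableAt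
    (isOpen_Ioo.mem_nhds h)).hasDerivAt
  cu2 := G.cu1.continuousOn_deriv_of_isOpen isOpen_Ioo (by simp)
  cv2 := G.cv1.continuousOn_deriv_of_isOpen isOpen_Ioo (by simp)

/-- A mode of an integral. -/
noncomputable def mode {a b : ℕ} {R : Frame a b} {F : Ph a b → ℝ} (X : Expn R F)
    (hF : PolyInMomenta F) (hI : IsIntegral (blockHam P Q S) F) (m n : ℤ) {x₁ p₁ L₁ K₁ : ℝ}
    (hx₁ : x₁ ∈ I0)
    (hne : ∑ i, ((rho (X.e2 i) (X.e3 i) x₁ * (p₁ ^ X.e1 i * L₁ ^ X.e2 i * K₁ ^ X.e3 i) : ℝ) : ℂ) *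
      fc m n (X.tf i).c x₁ ≠ 0) : Mode G.red m n where
  ι := X.ι
  e1 := X.e1
  e2 := X.e2
  e3 := X.e3
  c := fun i ψ => ((rho (X.e2 i) (X.e3 i) ψ : ℝ) : ℂ) * fc m n (X.tf i).c ψ
  c' := fun i ψ => ((deriv (rho (X.e2 i) (X.e3 i)) ψ : ℝ) : ℂ) * fc m n (X.tf i).c ψ +
    ((rho (X.e2 i) (X.e3 i) ψ : ℝ) : ℂ) * fc m n (X.tf i).cx ψ
  dc := by
    intro i ψ hψ
    exact ((hasDerivAt_rho _ _ (sin_pos' hψ).ne' (cos_pos' hψ).ne').ofReal_comp).fun_mul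
      (hasDerivAt_fc m n (X.tf i).hc (X.tf i).hcx (X.tf i).dx ψ)
  pde := by
    intro ψ hψ p L K
    have hs := (sin_pos' hψ).ne'
    have hc := (cos_pos' hψ).ne'
    have key : ∀ θ φ, ∑ i, (((deriv (rho (X.e2 i) (X.e3 i)) ψ * (wF P Q S ψ * p)) *
          p ^ X.e1 i * (L ^ X.e2 i * K ^ X.e3 i) + rho (X.e2 i) (X.e3 i) ψ *
          (X.e1 i * p ^ (X.e1 i - 1) * (-(w1F P Q S ψ * p ^ 2 +
            (u1F P ψ * L ^ 2 + v1F Q ψ * K ^ 2)) / 2)) * (L ^ X.e2 i * K ^ X.e3 i)) *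
            (X.tf i).c (ψ, θ, φ) +
        (rho (X.e2 i) (X.e3 i) ψ * (wF P Q S ψ * p) * p ^ X.e1 i * (L ^ X.e2 i * K ^ X.e3 i)) *
            (X.tf i).cx (ψ, θ, φ) +
        (rho (X.e2 i) (X.e3 i) ψ * (uF P ψ * L) * p ^ X.e1 i * (L ^ X.e2 i * K ^ X.e3 i)) *
            (X.tf i).ct (ψ, θ, φ) +
        (rho (X.e2 i) (X.e3 i) ψ * (vF Q ψ * K) * p ^ X.e1 i * (L ^ X.e2 i * K ^ X.e3 i)) *
            (X.tf i).cp (ψ, θ, φ)) = 0 := by
      intro θ φ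
      have h1 := fderiv_XH hI (R.Psi_mem ψ θ φ p L K)
      rw [← dPsi_eq_XH R G.hP G.hQ G.hS hs hc, fderiv_dPsi X hF hs hc] at h1
      rw [← h1]
      refine Finset.sum_congr rfl fun i _ => ?_
      ring
    have h2 := mode_relation X.tf ψ _ _ _ _ key m n
    rw [Finset.mul_sum, Finset.mul_sum, Finset.mul_sum, ← Finset.sum_sub_distrib,
      ← Finset.sum_add_distrib, ← h2]
    refine Finset.sum_congr rfl fun i _ => ?_
    simp only [red]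
    push_cast
    ring
  x₁ := x₁
  hx₁ := hx₁
  p₁ := p₁
  L₁ := L₁
  K₁ := K₁
  ne := by
    intro h
    apply hne
    rw [← h]
    refine Finset.sum_congr rfl fun i _ => ?_
    push_cast
    ring

end Good

end Pool.Agent.MSup
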