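import Mathlib
import Pool.Agent.MSup.Rank
import Pool.Agent.MSup.Wrap

/-!
Generic points of the cotangent bundle and the two modes.
-/

set_option autoImplicit false

open Filter Topology Set
open scoped ContDiff

namespace Pool.Agent.MSup

variable {a b : ℕ}

/-- Generic points. -/
def gen (a b : ℕ) : Set (Ph a b) := {z | 0 < sA z ∧ 0 < sB z ∧ se z ≠ 0 ∧
  0 < sA z * sa z - se z ^ 2 ∧ 0 < sB z * sb z - sf z ^ 2}

theorem cont_sA : Continuous (sA : Ph a b → ℝ) := by unfold sA; fun_prop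
theorem cont_sB : Continuous (sB : Ph a b → ℝ) := by unfold sB; fun_prop
theorem cont_sa : Continuous (sa : Ph a b → ℝ) := by unfold sa; fun_prop
theorem cont_sb : Continuous (sb : Ph a b → ℝ) := by unfold sb; fun_prop
theorem cont_se : Continuous (se : Ph a b → ℝ) := by unfold se; fun_prop
theorem cont_sf : Continuous (sf : Ph a b → ℝ) := by unfold sf; fun_prop

theorem isOpen_gen : IsOpen (gen a b) := by
  unfold gen
  have h1 := cont_sA (a := a) (b := b)
  have h2 := cont_sB (a := a) (b := b)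
  have h3 := cont_sa (a := a) (b := b)
  have h4 := cont_sb (a := a) (b := b)
  have h5 := cont_se (a := a) (b := b)
  have h6 := cont_sf (a := a) (b := b)
  refine (isOpen_lt continuous_const h1).inter ((isOpen_lt continuous_const h2).inter
    ((isOpen_ne_fun h5 continuous_const).inter
    ((isOpen_lt continuous_const ((h1.mul h3).sub (h5.pow 2))).inter
      (isOpen_lt continuous_const ((h2.mul h4).sub (h6.pow 2))))))

/-- A standard frame. -/
def stdFrame (ha : 2 ≤ a) (hb : 2 ≤ b) : Frame a b where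
  e1 := Pi.single ⟨0, by omega⟩ 1
  e2 := Pi.single ⟨1, by omega⟩ 1
  f1 := Pi.single ⟨0, by omega⟩ 1
  f2 := Pi.single ⟨1, by omega⟩ 1
  he11 := by simp [Pi.single_apply]
  he22 := by simp [Pi.single_apply]
  he12 := by simp [Pi.single_apply]
  hf11 := by simp [Pi.single_apply]
  hf22 := by simp [Pi.single_apply]
  hf12 := by simp [Pi.single_apply]

theorem exists_gen (ha : 2 ≤ a) (hb : 2 ≤ b) : ∃ z ∈ TS (Fin a ⊕ Fin b), z ∈ gen a b := by
  set R := stdFrame ha hb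
  have hs : 0 < Real.sin (Real.pi / 4) :=
    Real.sin_pos_of_pos_of_lt_pi (by positivity) (by linarith [Real.pi_pos])
  have hc : 0 < Real.cos (Real.pi / 4) :=
    Real.cos_pos_of_mem_Ioo ⟨by linarith [Real.pi_pos], by linarith [Real.pi_pos]⟩
  refine ⟨R.Psi (Real.pi / 4) 0 0 1 1 1, R.Psi_mem _ _ _ _ _ _, ?_, ?_, ?_, ?_, ?_⟩
  · rw [R.sA_Psi]; positivity
  · rw [R.sB_Psi]; positivity
  · rw [R.se_Psi]; positivity
  · rw [R.sA_Psi, R.sa_Psi, R.se_Psi]
    have : Real.sin (Real.pi / 4) ^ 2 * (1 ^ 2 * Real.cos (Real.pi / 4) ^ 2 +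
        (1 / Real.sin (Real.pi / 4)) ^ 2) -
        (1 * Real.sin (Real.pi / 4) * Real.cos (Real.pi / 4)) ^ 2 = 1 := by
      field_simp
      ring
    rw [this]
    exact one_pos
  · rw [R.sB_Psi, R.sb_Psi, R.sf_Psi]
    have : Real.cos (Real.pi / 4) ^ 2 * (1 ^ 2 * Real.sin (Real.pi / 4) ^ 2 +
        (1 / Real.cos (Real.pi / 4)) ^ 2) -
        (-(1 * Real.sin (Real.pi / 4) * Real.cos (Real.pi / 4))) ^ 2 = 1 := by
      field_simp
      ring
    rw [this]
    exact one_pos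

/-- unit vector and normal part in one block -/
theorem split_block {n : ℕ} (y η : Fin n → ℝ) {s : ℝ} (hs : 0 < s) (hy : ∑ i, y i ^ 2 = s ^ 2)
    (hpos : 0 < s ^ 2 * ∑ i, η i ^ 2 - (∑ i, y i * η i) ^ 2) :
    ∃ (e1 e2 : Fin n → ℝ) (l : ℝ), ∑ i, e1 i * e1 i = 1 ∧ ∑ i, e2 i * e2 i = 1 ∧
      ∑ i, e1 i * e2 i = 0 ∧ (∀ i, y i = s * e1 i) ∧
      ∀ i, η i = (∑ i, y i * η i) / s * e1 i + l * e2 i := by
  set e := ∑ i, y i * η i with he
  set r : ℝ := ∑ i, η i ^ 2 - e ^ 2 / s ^ 2 with hr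
  have hr0 : 0 < r := by
    have : s ^ 2 * r = s ^ 2 * ∑ i, η i ^ 2 - e ^ 2 := by
      rw [hr]
      field_simp
    rw [← this] at hpos
    exact (pos_iff_pos_of_mul_pos hpos).1 (by positivity)
  set l := √r with hl
  have hl0 : 0 < l := Real.sqrt_pos.2 hr0
  have hl2 : l ^ 2 = r := Real.sq_sqrt hr0.le
  refine ⟨fun i => y i / s, fun i => (η i - e / s ^ 2 * y i) / l, l, ?_, ?_, ?_, ?_, ?_⟩
  · have h : ∀ i, y i / s * (y i / s) = (s ^ 2)⁻¹ * y i ^ 2 := fun i => by field_simp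
    simp only [h, ← Finset.mul_sum, hy]
    field_simp
  · have h : ∀ i, (η i - e / s ^ 2 * y i) / l * ((η i - e / s ^ 2 * y i) / l) =
        (l ^ 2)⁻¹ * (η i ^ 2 - 2 * (e / s ^ 2) * (y i * η i) + (e / s ^ 2) ^ 2 * y i ^ 2) :=
      fun i => by field_simp; ring
    simp only [h, ← Finset.mul_sum, Finset.sum_add_distrib, Finset.sum_sub_distrib, hy, ← he, hl2]
    have h2 : ∑ i, η i ^ 2 - 2 * (e / s ^ 2) * e + (e / s ^ 2) ^ 2 * s ^ 2 = r := by
      rw [hr]
      field_simp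
      ring
    rw [h2, inv_mul_cancel₀ hr0.ne']
  · have h : ∀ i, y i / s * ((η i - e / s ^ 2 * y i) / l) =
        (s * l)⁻¹ * (y i * η i - e / s ^ 2 * y i ^ 2) := fun i => by field_simp
    simp only [h, ← Finset.mul_sum, Finset.sum_sub_distrib, hy, ← he]
    field_simp
    ring
  · intro i
    field_simp
  · intro i
    field_simp
    ring

theorem exists_frame {z : Ph a b} (hz : z ∈ TS (Fin a ⊕ Fin b)) (hg : z ∈ gen a b) :
    ∃ (R : Frame a b) (ψ p L K : ℝ), ψ ∈ I0 ∧ p ≠ 0 ∧ z = R.Psi ψ 0 0 p L K := by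
  obtain ⟨g1, g2, g3, g4, g5⟩ := hg
  have hAB : sA z + sB z = 1 := by rw [← ip11]; exact hz.1
  have hef : se z + sf z = 0 := by rw [← ip12]; exact hz.2
  set s := √(sA z) with hs
  have hs0 : 0 < s := Real.sqrt_pos.2 g1
  have hs2 : s ^ 2 = sA z := Real.sq_sqrt g1.le
  have hs1 : s < 1 := by
    rw [hs, Real.sqrt_lt' one_pos]
    linarith
  set ψ := Real.arcsin s with hψ
  have hsin : Real.sin ψ = s := Real.sin_arcsin (by linarith) hs1.le
  have hψ0 : 0 < ψ := Real.arcsin_pos.2 hs0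
  have hψ1 : ψ < Real.pi / 2 := Real.arcsin_lt_pi_div_two.2 hs1
  have hψI : ψ ∈ I0 := ⟨hψ0, hψ1⟩
  have hc0 : 0 < Real.cos ψ := cos_pos' hψI
  have hc2 : Real.cos ψ ^ 2 = sB z := by
    rw [Real.cos_sq', hsin, hs2]
    linarith
  obtain ⟨e1, e2, l, k1, k2, k3, k4, k5⟩ := split_block (fun i => z.1 (Sum.inl i))
    (fun i => z.2 (Sum.inl i)) hs0 (by rw [hs2]; rfl) (by rw [hs2]; exact g4)
  obtain ⟨f1, f2, k, m1, m2, m3, m4, m5⟩ := split_block (fun i => z.1 (Sum.inr i))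
    (fun i => z.2 (Sum.inr i)) hc0 (by rw [hc2]; rfl) (by rw [hc2]; exact g5)
  have k5' : ∀ i, z.2 (Sum.inl i) = se z / s * e1 i + l * e2 i := k5
  have m5' : ∀ i, z.2 (Sum.inr i) = sf z / Real.cos ψ * f1 i + k * f2 i := m5
  refine ⟨⟨e1, e2, f1, f2, k1, k2, k3, m1, m2, m3⟩, ψ, se z / (s * Real.cos ψ), l * s,
    k * Real.cos ψ, hψI, div_ne_zero g3 (by positivity), ?_⟩
  refine Prod.ext (funext ?_) (funext ?_) <;> rintro (j | j)
  · simp only [Frame.Psi, Frame.X, Frame.er, Sum.elim_inl, Real.cos_zero, Real.sin_zero, hsin]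
    rw [k4 j]
    ring
  · simp only [Frame.Psi, Frame.X, Frame.fr, Sum.elim_inr, Real.cos_zero, Real.sin_zero]
    rw [m4 j]
    ring
  · simp only [Frame.Psi, Frame.Pm, Frame.er, Frame.et, Sum.elim_inl, Real.cos_zero,
      Real.sin_zero, hsin]
    rw [k5' j]
    field_simp
    ring
  · simp only [Frame.Psi, Frame.Pm, Frame.fr, Frame.ft, Sum.elim_inr, Real.cos_zero,
      Real.sin_zero, hsin]
    rw [m5' j]
    have : sf z = -se z := by linarith
    rw [this]
    field_simp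
    ring

end Pool.Agent.MSup
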