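import Mathlib
import Pool.Agent.MSup.Gen

/-!
Maximal superintegrability gives two independent modes, and thus the explicit relations.
-/

set_option autoImplicit false

open Filter Topology Set
open scoped ContDiff

namespace Pool.Agent.MSup

variable {a b : ℕ}

theorem exists_direction_ne {P Q S : ℝ → ℝ} (G : Good P Q S) (R : Frame a b) {ψ p L K : ℝ}
    (hψ : ψ ∈ I0) (hp : p ≠ 0) {N : ℕ} (hN : 2 * (a + b) < N + 4) (F : Fin N → Ph a b → ℝ)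
    (hF : ∀ i, PolyInMomenta (F i)) (hI : ∀ i, IsIntegral (blockHam P Q S) (F i))
    (hLI : LinearIndependent ℝ (fun i => fderiv ℝ (lift (F i)) (R.Psi ψ 0 0 p L K)))
    {dθ dφ : ℝ} (hd : dθ ≠ 0 ∨ dφ ≠ 0) :
    ∃ i, fderiv ℝ (lift (F i)) (R.Psi ψ 0 0 p L K) (R.dPsi ψ 0 0 p L K 0 dθ dφ 0) ≠ 0 := by
  have hs := (sin_pos' hψ).ne'
  have hc := (cos_pos' hψ).ne'
  have hz := R.Psi_mem ψ 0 0 p L K
  by_contra hcon
  push Not at hcon
  set z := R.Psi ψ 0 0 p L K with hzdef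
  have hwp : wF P Q S ψ * p ≠ 0 := mul_ne_zero (G.red.w_pos ψ hψ).ne' hp
  refine rank_contra (N := N) (M := 4) (fun i => fderiv ℝ (lift (F i)) z) hLI
    ![(z.1, -z.2), (0, z.1), XH (blockHam P Q S) z, R.dPsi ψ 0 0 p L K 0 dθ dφ 0] ?_ ?_ ?_
  · rw [Fintype.linearIndependent_iff]
    intro g hg
    rw [Fin.sum_univ_four] at hg
    simp only [Matrix.cons_val_zero, Matrix.cons_val_one, Matrix.cons_val] at hg
    rw [add_assoc, hzdef, ← dPsi_eq_XH R G.hP G.hQ G.hS hs hc, R.dPsi_comb] at hg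
    obtain ⟨h0, h1, h2, h3, h4⟩ := R.dPsi_indep hs hc _ _ _ _ _ _ _ _ _ _ _ hg
    have g2 : g 2 = 0 := by
      rw [mul_zero, add_zero] at h2
      exact (mul_eq_zero.1 h2).resolve_right hwp
    rw [g2, zero_mul, zero_add] at h3 h4
    have g3 : g 3 = 0 := by
      rcases hd with h | h
      · exact (mul_eq_zero.1 h3).resolve_right h
      · exact (mul_eq_zero.1 h4).resolve_right h
    intro i
    fin_cases i
    · exact h0
    · exact h1
    · exact g2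
    · exact g3
  · have : Module.finrank ℝ (Ph a b) = 2 * (a + b) := by
      rw [Module.finrank_prod, Module.finrank_fintype_fun_eq_card, Fintype.card_sum,
        Fintype.card_fin, Fintype.card_fin]
      ring
    rw [this]
    exact hN
  · intro i j
    have hdi : DifferentiableAt ℝ (lift (F i)) z :=
      (contDiffAt_lift (hF i) (TS_pos hz)).differentiableAt (by simp)
    fin_cases j
    · exact fderiv_lift_scale (TS_pos hz) hdi
    · exact fderiv_lift_shift (TS_pos hz) hdi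
    · exact fderiv_XH (hI i) hz
    · exact hcon i

theorem mode_of_ne {P Q S : ℝ → ℝ} (G : Good P Q S) (R : Frame a b) {ψ p L K : ℝ}
    (hψ : ψ ∈ I0) {F : Ph a b → ℝ} (hF : PolyInMomenta F) (hI : IsIntegral (blockHam P Q S) F)
    {dθ dφ : ℝ}
    (h : fderiv ℝ (lift F) (R.Psi ψ 0 0 p L K) (R.dPsi ψ 0 0 p L K 0 dθ dφ 0) ≠ 0) :
    ∃ m n : ℤ, dθ * m + dφ * n ≠ 0 ∧ Nonempty (Mode G.red m n) := by
  have hs := (sin_pos' hψ).ne'
  have hc := (cos_pos' hψ).ne'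
  obtain ⟨X⟩ := exists_expn R hF
  rw [fderiv_dPsi X hF hs hc] at h
  have h2 : ∑ i, (rho (X.e2 i) (X.e3 i) ψ * (p ^ X.e1 i * L ^ X.e2 i * K ^ X.e3 i)) *
      (dθ * (X.tf i).ct (ψ, 0, 0) + dφ * (X.tf i).cp (ψ, 0, 0)) ≠ 0 := by
    intro h3
    apply h
    refine Eq.trans (Finset.sum_congr rfl fun i _ => ?_) h3
    ring
  obtain ⟨m, n, hmn, hne⟩ := exists_mode X.tf ψ 0 0 dθ dφ _ h2
  exact ⟨m, n, hmn, ⟨G.mode X hF hI m n hψ hne⟩⟩

theorem exists_modes {P Q S : ℝ → ℝ} (G : Good P Q S) (ha : 2 ≤ a) (hb : 2 ≤ b)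
    (h : MaxSuperintegrable (blockHam P Q S : Ph a b → ℝ)) :
    ∃ m₁ n₁ m₂ n₂ : ℤ, m₁ ≠ 0 ∧ n₂ ≠ 0 ∧ Nonempty (Mode G.red m₁ n₁) ∧
      Nonempty (Mode G.red m₂ n₂) := by
  obtain ⟨F, hF, hI, U, hU, hUd, hLI⟩ := h
  obtain ⟨z₁, hz₁, hg₁⟩ := exists_gen ha hb
  obtain ⟨z, hzg, hzU, hzT⟩ := mem_closure_iff.1 (hUd hz₁) (gen a b) isOpen_gen hg₁
  obtain ⟨R, ψ, p, L, K, hψ, hp, rfl⟩ := exists_frame hzT hzg
  have hL := hLI _ ⟨hzU, hzT⟩
  have hN : 2 * (a + b) < 2 * (Fintype.card (Fin a ⊕ Fin b) - 1) - 1 + 4 := by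
    rw [Fintype.card_sum, Fintype.card_fin, Fintype.card_fin]
    omega
  obtain ⟨i, hi⟩ := exists_direction_ne G R hψ hp hN F hF hI hL (dθ := 1) (dφ := 0)
    (Or.inl one_ne_zero)
  obtain ⟨j, hj⟩ := exists_direction_ne G R hψ hp hN F hF hI hL (dθ := 0) (dφ := 1)
    (Or.inr one_ne_zero)
  obtain ⟨m₁, n₁, h1, M1⟩ := mode_of_ne G R hψ (hF i) (hI i) hi
  obtain ⟨m₂, n₂, h2, M2⟩ := mode_of_ne G R hψ (hF j) (hI j) hj
  refine ⟨m₁, n₁, m₂, n₂, ?_, ?_, M1, M2⟩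
  · intro h0
    apply h1
    rw [h0]
    simp
  · intro h0
    apply h2
    rw [h0]
    simp

/-- The potential `u + κ² v` has a minimum. -/
theorem exists_min {P Q S : ℝ → ℝ} (G : Good P Q S) {κ : ℝ} (hκ : 0 < κ) :
    ∃ x ∈ I0, ∀ y ∈ I0, uF P x + κ ^ 2 * vF Q x ≤ uF P y + κ ^ 2 * vF Q y := by
  set f : ℝ → ℝ := fun ψ => (Real.sin ψ ^ 2 * Real.cos ψ ^ 2) /
    (P (Real.sin ψ ^ 2) * Real.cos ψ ^ 2 + κ ^ 2 * (Q (Real.sin ψ ^ 2) * Real.sin ψ ^ 2)) with hf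
  have hden : ∀ ψ, 0 < P (Real.sin ψ ^ 2) * Real.cos ψ ^ 2 +
      κ ^ 2 * (Q (Real.sin ψ ^ 2) * Real.sin ψ ^ 2) := by
    intro ψ
    have hP := G.posP _ (sin_sq_mem (ψ := ψ))
    have hQ := G.posQ _ (sin_sq_mem (ψ := ψ))
    have hsc := Real.sin_sq_add_cos_sq ψ
    rcases eq_or_ne (Real.sin ψ) 0 with h | h
    · have hc : Real.cos ψ ^ 2 = 1 := by rw [← hsc, h]; ring
      have h0 : Real.sin ψ ^ 2 = 0 := by rw [h]; ring
      rw [hc, mul_one, h0, mul_zero, mul_zero, add_zero]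
      rwa [h0] at hP
    · have h1 : 0 < κ ^ 2 * (Q (Real.sin ψ ^ 2) * Real.sin ψ ^ 2) := by positivity
      have h2 : 0 ≤ P (Real.sin ψ ^ 2) * Real.cos ψ ^ 2 := by positivity
      linarith
  have hcont : Continuous f := by
    have h1 := G.hP.continuous
    have h2 := G.hQ.continuous
    refine Continuous.div (by fun_prop) (by fun_prop) fun ψ => (hden ψ).ne'
  obtain ⟨x, hx, hmax⟩ := (isCompact_Icc : IsCompact (Icc (0 : ℝ) (Real.pi / 2))).exists_isMaxOn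
    (nonempty_Icc.2 (by positivity)) hcont.continuousOn
  have h4 : (Real.pi / 4) ∈ I0 := ⟨by positivity, by linarith [Real.pi_pos]⟩
  have hfpos : 0 < f (Real.pi / 4) := by
    have := sin_pos' h4
    have := cos_pos' h4
    exact div_pos (by positivity) (hden _)
  have hfx : 0 < f x := lt_of_lt_of_le hfpos (hmax ⟨h4.1.le, h4.2.le⟩)
  have hxI : x ∈ I0 := by
    refine ⟨lt_of_le_of_ne hx.1 ?_, lt_of_le_of_ne hx.2 ?_⟩
    · rintro rfl
      simp [hf] at hfx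
    · rintro rfl
      simp [hf] at hfx
  have hinv : ∀ y ∈ I0, uF P y + κ ^ 2 * vF Q y = (f y)⁻¹ := by
    intro y hy
    have h1 := (sin_pos' hy).ne'
    have h2 := (cos_pos' hy).ne'
    have h3 := (hden y).ne'
    simp only [hf, uF, vF]
    rw [inv_div]
    field_simp
  refine ⟨x, hxI, fun y hy => ?_⟩
  rw [hinv x hxI, hinv y hy]
  have hfy : 0 < f y := by
    have := sin_pos' hy
    have := cos_pos' hy
    exact div_pos (by positivity) (hden _)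
  exact inv_anti₀ hfy (hmax ⟨hy.1.le, hy.2.le⟩)

theorem rel_of_superintegrable {P Q S : ℝ → ℝ} (G : Good P Q S) (ha : 2 ≤ a) (hb : 2 ≤ b)
    (h : MaxSuperintegrable (blockHam P Q S : Ph a b → ℝ)) :
    ∃ α ρ C : ℝ, 0 < α ∧ 0 < ρ ∧ ∀ x ∈ I0, Rel G.red α ρ C x := by
  obtain ⟨m₁, n₁, m₂, n₂, hm, hn, ⟨M₁⟩, ⟨M₂⟩⟩ := exists_modes G ha hb h
  exact rel_of_modes isOpen_Ioo (convex_Ioo _ _) M₁ M₂ hm hn fun κ hκ => exists_min G hκ

end Pool.Agent.MSup
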