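import Mathlib
import Pool.Agent.MSup.Two

/-!
The relations in terms of the coefficients of the metric, and the values of the two constants.
-/

set_option autoImplicit false

open Filter Topology Set
open scoped ContDiff

namespace Pool.Agent.MSup

theorem zero_on_Icc {f : ℝ → ℝ} (hf : Continuous f) (h : ∀ t ∈ Ioo (0 : ℝ) 1, f t = 0) :
    ∀ t ∈ Icc (0 : ℝ) 1, f t = 0 := by
  have h1 : closure (Ioo (0 : ℝ) 1) ⊆ {t | f t = 0} :=
    closure_minimal h (isClosed_eq hf continuous_const)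
  rw [closure_Ioo (by norm_num)] at h1
  exact h1

theorem exists_psi {t : ℝ} (ht : t ∈ Ioo (0 : ℝ) 1) :
    ∃ ψ ∈ I0, Real.sin ψ ^ 2 = t ∧ Real.cos ψ ^ 2 = 1 - t := by
  have h0 : 0 < √t := Real.sqrt_pos.2 ht.1
  have h1 : √t < 1 := by rw [Real.sqrt_lt' one_pos]; linarith [ht.2]
  have hsin : Real.sin (Real.arcsin √t) ^ 2 = t := by
    rw [Real.sin_arcsin (by linarith) h1.le, Real.sq_sqrt ht.1.le]
  refine ⟨Real.arcsin √t, ⟨Real.arcsin_pos.2 h0, Real.arcsin_lt_pi_div_two.2 h1⟩, hsin, ?_⟩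
  rw [Real.cos_sq', hsin]

theorem close {P Q S : ℝ → ℝ} (G : Good P Q S) {α ρ C : ℝ}
    (h : ∀ x ∈ I0, Rel G.red α ρ C x) :
    0 < C ∧ ∀ t ∈ Icc (0 : ℝ) 1, (1 - t) * P t + t * Q t = C * P t * Q t ∧
      (deriv Q t * (1 - t) + Q t) * P t ^ 2 = (P t - t * deriv P t) * Q t ^ 2 ∧
      C * ((1 - t) * P t + t * Q t + t * (1 - t) * S t) * Q t * (P t - t * deriv P t) ^ 2 =
        P t ^ 3 := by
  have cP := G.hP.continuous
  have cQ := G.hQ.continuous
  have cS := G.hS.continuous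
  have cP1 := G.cdP.continuous
  have cQ1 := G.cdQ.continuous
  have key : ∀ t ∈ Ioo (0 : ℝ) 1, ((1 - t) * P t + ρ ^ 2 * (t * Q t) - C * P t * Q t = 0) ∧
      ((deriv Q t * (1 - t) + Q t) * P t ^ 2 - ρ ^ 2 * ((P t - t * deriv P t) * Q t ^ 2) = 0) ∧
      (4 * α ^ 2 * (C * ((1 - t) * P t + t * Q t + t * (1 - t) * S t) * Q t *
        (P t - t * deriv P t) ^ 2) - P t ^ 3 = 0) := by
    intro t ht
    obtain ⟨ψ, hψ, hs2, hc2⟩ := exists_psi ht
    obtain ⟨r1, r2, r3, -⟩ := h ψ hψ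
    have hs := (sin_pos' hψ).ne'
    have hc := (cos_pos' hψ).ne'
    have hPt := (G.posP t ⟨ht.1.le, ht.2.le⟩).ne'
    have hQt := (G.posQ t ⟨ht.1.le, ht.2.le⟩).ne'
    simp only [Good.red, wF, uF, vF, u1F, v1F, hs2, hc2] at r1 r2 r3
    have ht0 : t ≠ 0 := ht.1.ne'
    have ht1 : (1 - t) ≠ 0 := by linarith [ht.2]
    have htt : t * (1 - t) ≠ 0 := mul_ne_zero ht0 ht1
    refine ⟨?_, ?_, ?_⟩
    · field_simp at r1
      linear_combination r1
    · have h3 : Real.sin ψ ^ 3 = Real.sin ψ * t := by rw [← hs2]; ring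
      have h4 : Real.cos ψ ^ 3 = Real.cos ψ * (1 - t) := by rw [← hc2]; ring
      rw [h3, h4] at r2
      field_simp at r2
      simp only [hs2, hc2] at r2
      refine (mul_eq_zero.1 ?_).resolve_left htt
      linear_combination r2 / 2
    · have h3 : Real.sin ψ ^ 3 = Real.sin ψ * t := by rw [← hs2]; ring
      rw [h3] at r3
      field_simp at r3
      simp only [hs2, hc2] at r3
      refine (mul_eq_zero.1 ?_).resolve_left htt
      linear_combination r3
  have k1 := zero_on_Icc (f := fun t => (1 - t) * P t + ρ ^ 2 * (t * Q t) - C * P t * Q t)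
    (by fun_prop) fun t ht => (key t ht).1
  have k2 := zero_on_Icc (f := fun t => (deriv Q t * (1 - t) + Q t) * P t ^ 2 -
    ρ ^ 2 * ((P t - t * deriv P t) * Q t ^ 2)) (by fun_prop) fun t ht => (key t ht).2.1
  have k3 := zero_on_Icc (f := fun t => 4 * α ^ 2 * (C * ((1 - t) * P t + t * Q t +
    t * (1 - t) * S t) * Q t * (P t - t * deriv P t) ^ 2) - P t ^ 3) (by fun_prop)
    fun t ht => (key t ht).2.2
  have m0 : (0 : ℝ) ∈ Icc (0 : ℝ) 1 := ⟨le_rfl, zero_le_one⟩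
  have m1 : (1 : ℝ) ∈ Icc (0 : ℝ) 1 := ⟨zero_le_one, le_rfl⟩
  have P0 := G.posP 0 m0
  have Q0 := G.posQ 0 m0
  have P1 := G.posP 1 m1
  have Q1 := G.posQ 1 m1
  have a1 : C * Q 0 = 1 := by
    have := k1 0 m0
    simp only [sub_zero, one_mul, zero_mul, mul_zero, add_zero] at this
    refine mul_left_cancel₀ P0.ne' ?_
    linear_combination -this
  have hC : 0 < C := (pos_iff_pos_of_mul_pos (by rw [a1]; exact one_pos)).2 Q0
  have a2 : 4 * α ^ 2 = 1 := by
    have := k3 0 m0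
    simp only [sub_zero, one_mul, zero_mul, add_zero] at this
    refine mul_right_cancel₀ (pow_ne_zero 3 P0.ne') ?_
    linear_combination this - 4 * α ^ 2 * P 0 ^ 3 * a1
  have b1 := k1 1 m1
  have b2 := k2 1 m1
  have b3 := k3 1 m1
  simp only [sub_self, one_mul, zero_mul, mul_zero, zero_add, add_zero] at b1 b2 b3
  have c1 : ρ ^ 2 = C * P 1 := by
    refine mul_right_cancel₀ Q1.ne' ?_
    linear_combination b1
  have c2 : P 1 ^ 2 = ρ ^ 2 * ((P 1 - deriv P 1) * Q 1) := by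
    refine mul_right_cancel₀ Q1.ne' ?_
    linear_combination b2
  have c3 : C * Q 1 ^ 2 * (P 1 - deriv P 1) ^ 2 = P 1 ^ 3 := by
    rw [a2] at b3
    linear_combination b3
  have c4 : C * P 1 = ρ ^ 4 := by
    refine mul_right_cancel₀ (pow_ne_zero 3 P1.ne') ?_
    have h1 : C * P 1 * P 1 ^ 3 = C * (P 1 ^ 2) ^ 2 := by ring
    rw [h1, c2, ← c3]
    ring
  have c5 : ρ ^ 2 = 1 := by
    have hρ2 : 0 < ρ ^ 2 := by rw [c1]; positivity
    refine mul_right_cancel₀ hρ2.ne' ?_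
    rw [one_mul]
    nth_rewrite 3 [c1]
    rw [c4]
    ring
  refine ⟨hC, fun t ht => ⟨?_, ?_, ?_⟩⟩
  · have := k1 t ht
    simp only [c5, one_mul] at this
    linarith
  · have := k2 t ht
    simp only [c5, one_mul] at this
    linarith
  · have := k3 t ht
    simp only [a2, one_mul] at this
    linarith

end Pool.Agent.MSup
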