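import Mathlib
import Pool.Agent.MSup.Close

/-!
The explicit isometry onto a round sphere.
-/

set_option autoImplicit false

open Filter Topology Set
open scoped ContDiff

namespace Pool.Agent.MSup

/-- The Riemannian metric on the unit sphere `S` of `ℝ^ι` with Hamiltonian `H` (half the square of
the dual norm) is isometric to the round sphere of some radius `√C`: there is a smooth bijection
`Φ` of `S` such that the pull-back of covectors by `Φ` carries the dual norm of the round sphere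
to the one of `H`. -/
def IsRoundSphere {ι : Type} [Fintype ι] [DecidableEq ι] (H : (ι → ℝ) × (ι → ℝ) → ℝ) : Prop :=
  ∃ C : ℝ, 0 < C ∧ ∃ Φ : (ι → ℝ) → (ι → ℝ), BijOn Φ {x | ip x x = 1} {x | ip x x = 1} ∧
    ∀ x, ip x x = 1 → ContDiffAt ℝ ∞ Φ x ∧ ∀ π, ip (Φ x) π = 0 →
      H (x, tproj x (fun i => ip (fderiv ℝ Φ x (Pi.single i 1)) π)) = ip π π / C / 2

variable {a b : ℕ}

def bA (x : (Fin a ⊕ Fin b) → ℝ) : ℝ := ∑ i, x (Sum.inl i) ^ 2
def bB (x : (Fin a ⊕ Fin b) → ℝ) : ℝ := ∑ i, x (Sum.inr i) ^ 2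

theorem ip_self_eq (x : (Fin a ⊕ Fin b) → ℝ) : ip x x = bA x + bB x := by
  simp only [ip, Fintype.sum_sum_type, bA, bB, pow_two]

theorem ip_eq (x y : (Fin a ⊕ Fin b) → ℝ) :
    ip x y = ∑ i, x (Sum.inl i) * y (Sum.inl i) + ∑ i, x (Sum.inr i) * y (Sum.inr i) := by
  simp only [ip, Fintype.sum_sum_type]

theorem bA_mem {x : (Fin a ⊕ Fin b) → ℝ} (h : ip x x = 1) : bA x ∈ Icc (0 : ℝ) 1 := by
  rw [ip_self_eq] at h
  have h1 : 0 ≤ bA x := Finset.sum_nonneg fun i _ => sq_nonneg _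
  have h2 : 0 ≤ bB x := Finset.sum_nonneg fun i _ => sq_nonneg _
  exact ⟨h1, by linarith⟩

/-- the factor `(C P)^(-1/2)` -/
noncomputable def fac (C : ℝ) (P : ℝ → ℝ) (t : ℝ) : ℝ := (√(C * P t))⁻¹

/-- the isometry -/
noncomputable def isom (C : ℝ) (P Q : ℝ → ℝ) (x : (Fin a ⊕ Fin b) → ℝ) : (Fin a ⊕ Fin b) → ℝ :=
  Sum.elim (fun j => fac C P (bA x) * x (Sum.inl j)) (fun j => fac C Q (bA x) * x (Sum.inr j))

section fac

variable {C : ℝ} {P : ℝ → ℝ} {t : ℝ}

theorem fac_pos (hC : 0 < C) (hP : 0 < P t) : 0 < fac C P t :=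
  inv_pos.2 (Real.sqrt_pos.2 (mul_pos hC hP))

theorem fac_sq (hC : 0 < C) (hP : 0 < P t) : P t * fac C P t ^ 2 = 1 / C := by
  rw [fac, inv_pow, Real.sq_sqrt (mul_pos hC hP).le]
  field_simp

theorem hasDerivAt_fac (hC : 0 < C) (hP : 0 < P t) {P' : ℝ} (h : HasDerivAt P P' t) :
    HasDerivAt (fac C P) (-(fac C P t * P' / (2 * P t))) t := by
  have h0 : 0 < √(C * P t) := Real.sqrt_pos.2 (mul_pos hC hP)
  have h0s : √(C * P t) ^ 2 = C * P t := Real.sq_sqrt (mul_pos hC hP).le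
  have h1 : HasDerivAt (fun s => C * P s) (C * P') t := h.const_mul C
  have h2 := (h1.sqrt (mul_pos hC hP).ne').fun_inv h0.ne'
  refine h2.congr_deriv ?_
  rw [fac, h0s]
  field_simp

theorem contDiffAt_fac (hC : 0 < C) (hP : 0 < P t) (h : ContDiff ℝ ∞ P) :
    ContDiffAt ℝ ∞ (fac C P) t := by
  have h0 : 0 < √(C * P t) := Real.sqrt_pos.2 (mul_pos hC hP)
  have h1 : ContDiffAt ℝ ∞ (fun s => C * P s) t := (contDiff_const.mul h).contDiffAt
  exact (h1.sqrt (mul_pos hC hP).ne').inv h0.ne'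

end fac

theorem contDiff_bA : ContDiff ℝ ∞ (bA : ((Fin a ⊕ Fin b) → ℝ) → ℝ) := by
  unfold bA
  fun_prop

theorem contDiffAt_isom {C : ℝ} {P Q : ℝ → ℝ} (hC : 0 < C) {x : (Fin a ⊕ Fin b) → ℝ}
    (hP : 0 < P (bA x)) (hQ : 0 < Q (bA x)) (cP : ContDiff ℝ ∞ P) (cQ : ContDiff ℝ ∞ Q) :
    ContDiffAt ℝ ∞ (isom C P Q) x := by
  have h1 : ContDiffAt ℝ ∞ (fun x : (Fin a ⊕ Fin b) → ℝ => fac C P (bA x)) x :=
    (contDiffAt_fac hC hP cP).comp x contDiff_bA.contDiffAt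
  have h2 : ContDiffAt ℝ ∞ (fun x : (Fin a ⊕ Fin b) → ℝ => fac C Q (bA x)) x :=
    (contDiffAt_fac hC hQ cQ).comp x contDiff_bA.contDiffAt
  rw [contDiffAt_pi]
  rintro (j | j)
  · exact h1.mul (contDiff_apply ℝ ℝ (Sum.inl j)).contDiffAt
  · exact h2.mul (contDiff_apply ℝ ℝ (Sum.inr j)).contDiffAt

theorem fderiv_isom {C : ℝ} {P Q : ℝ → ℝ} (hC : 0 < C) {x : (Fin a ⊕ Fin b) → ℝ}
    (hP : 0 < P (bA x)) (hQ : 0 < Q (bA x)) (cP : ContDiff ℝ ∞ P) (cQ : ContDiff ℝ ∞ Q)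
    (v : (Fin a ⊕ Fin b) → ℝ) :
    fderiv ℝ (isom C P Q) x v = Sum.elim
      (fun j => -(fac C P (bA x) * deriv P (bA x) / (2 * P (bA x))) *
        (∑ i, 2 * x (Sum.inl i) * v (Sum.inl i)) * x (Sum.inl j) + fac C P (bA x) * v (Sum.inl j))
      (fun j => -(fac C Q (bA x) * deriv Q (bA x) / (2 * Q (bA x))) *
        (∑ i, 2 * x (Sum.inl i) * v (Sum.inl i)) * x (Sum.inr j) + fac C Q (bA x) *
          v (Sum.inr j)) := by
  have hd : DifferentiableAt ℝ (isom C P Q) x :=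
    (contDiffAt_isom hC hP hQ cP cQ).differentiableAt (by simp)
  have hl : HasDerivAt (fun t : ℝ => x + t • v) v 0 := by
    simpa using ((hasDerivAt_id (0 : ℝ)).smul_const v).const_add x
  have z0 : x + (0 : ℝ) • v = x := by rw [zero_smul, add_zero]
  have h1 : HasDerivAt (fun t : ℝ => isom C P Q (x + t • v)) (fderiv ℝ (isom C P Q) x v) 0 := by
    have h4 : HasFDerivAt (isom C P Q) (fderiv ℝ (isom C P Q) x) (x + (0 : ℝ) • v) := by
      rw [z0]
      exact hd.hasFDerivAt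
    exact HasFDerivAt.comp_hasDerivAt (l := isom C P Q) (0 : ℝ) h4 hl
  have hc : ∀ i, HasDerivAt (fun t : ℝ => (x + t • v) i) (v i) 0 := by
    intro i
    have := ((hasDerivAt_id (0 : ℝ)).mul_const (v i)).const_add (x i)
    simpa using this
  have dA : HasDerivAt (fun t : ℝ => bA (x + t • v))
      (∑ i, 2 * x (Sum.inl i) * v (Sum.inl i)) 0 := by
    have := HasDerivAt.fun_sum (u := Finset.univ)
      fun i _ => (hc (Sum.inl i : Fin a ⊕ Fin b)).fun_pow 2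
    refine this.congr_deriv (Finset.sum_congr rfl fun i _ => ?_)
    rw [z0]; push_cast; ring
  have dP : HasDerivAt (fun t : ℝ => fac C P (bA (x + t • v)))
      (-(fac C P (bA x) * deriv P (bA x) / (2 * P (bA x))) *
        (∑ i, 2 * x (Sum.inl i) * v (Sum.inl i))) 0 := by
    have h2 : HasDerivAt (fac C P) (-(fac C P (bA x) * deriv P (bA x) / (2 * P (bA x))))
        (bA (x + (0 : ℝ) • v)) := by
      rw [z0]
      exact hasDerivAt_fac hC hP (cP.differentiable (by simp) _).hasDerivAt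
    exact HasDerivAt.comp (h₂ := fac C P) (0 : ℝ) h2 dA
  have dQ : HasDerivAt (fun t : ℝ => fac C Q (bA (x + t • v)))
      (-(fac C Q (bA x) * deriv Q (bA x) / (2 * Q (bA x))) *
        (∑ i, 2 * x (Sum.inl i) * v (Sum.inl i))) 0 := by
    have h2 : HasDerivAt (fac C Q) (-(fac C Q (bA x) * deriv Q (bA x) / (2 * Q (bA x))))
        (bA (x + (0 : ℝ) • v)) := by
      rw [z0]
      exact hasDerivAt_fac hC hQ (cQ.differentiable (by simp) _).hasDerivAt
    exact HasDerivAt.comp (h₂ := fac C Q) (0 : ℝ) h2 dA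
  refine h1.unique ?_
  rw [hasDerivAt_pi]
  rintro (j | j)
  · have h3 := dP.fun_mul (hc (Sum.inl j))
    refine h3.congr_deriv ?_
    simp only [Sum.elim_inl]
    rw [z0]
  · have h3 := dQ.fun_mul (hc (Sum.inr j))
    refine h3.congr_deriv ?_
    simp only [Sum.elim_inr]
    rw [z0]

/-- the value of the Hamiltonian on a covector of a special form -/
theorem blockHam_tproj (P Q S : ℝ → ℝ) {x ξ π : (Fin a ⊕ Fin b) → ℝ} (hx : ip x x = 1)
    {μ ν g : ℝ} (h1 : ∀ j, ξ (Sum.inl j) = μ * π (Sum.inl j) + g * x (Sum.inl j))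
    (h2 : ∀ j, ξ (Sum.inr j) = ν * π (Sum.inr j))
    (h0 : μ * ∑ i, x (Sum.inl i) * π (Sum.inl i) + ν * ∑ i, x (Sum.inr i) * π (Sum.inr i) = 0) :
    blockHam P Q S (x, tproj x ξ) =
      (P (bA x) * (μ ^ 2 * ∑ i, π (Sum.inl i) ^ 2 +
          2 * μ * g * (1 - bA x) * ∑ i, x (Sum.inl i) * π (Sum.inl i) +
          g ^ 2 * (1 - bA x) ^ 2 * bA x) +
        Q (bA x) * (ν ^ 2 * ∑ i, π (Sum.inr i) ^ 2 -
          2 * ν * g * bA x * ∑ i, x (Sum.inr i) * π (Sum.inr i) +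
          g ^ 2 * bA x ^ 2 * (1 - bA x)) +
        S (bA x) * (μ * (∑ i, x (Sum.inl i) * π (Sum.inl i)) + g * (1 - bA x) * bA x) ^ 2) / 2 := by
  have hB : bB x = 1 - bA x := by rw [← hx, ip_self_eq]; ring
  have hxξ : ip x ξ = g * bA x := by
    rw [ip_eq]
    have e1 : ∑ i, x (Sum.inl i) * ξ (Sum.inl i) =
        μ * (∑ i, x (Sum.inl i) * π (Sum.inl i)) + g * bA x := by
      rw [bA, Finset.mul_sum, Finset.mul_sum, ← Finset.sum_add_distrib]
      exact Finset.sum_congr rfl fun i _ => by rw [h1]; ring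
    have e2 : ∑ i, x (Sum.inr i) * ξ (Sum.inr i) =
        ν * (∑ i, x (Sum.inr i) * π (Sum.inr i)) := by
      rw [Finset.mul_sum]
      exact Finset.sum_congr rfl fun i _ => by rw [h2]; ring
    rw [e1, e2]
    linarith
  have t1 : ∀ j, tproj x ξ (Sum.inl j) = μ * π (Sum.inl j) + g * (1 - bA x) * x (Sum.inl j) := by
    intro j
    simp only [tproj, Pi.sub_apply, Pi.smul_apply, smul_eq_mul, hx, hxξ, div_one, h1]
    ring
  have t2 : ∀ j, tproj x ξ (Sum.inr j) = ν * π (Sum.inr j) - g * bA x * x (Sum.inr j) := by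
    intro j
    simp only [tproj, Pi.sub_apply, Pi.smul_apply, smul_eq_mul, hx, hxξ, div_one, h2]
  have s1 : ∑ i, tproj x ξ (Sum.inl i) ^ 2 = μ ^ 2 * ∑ i, π (Sum.inl i) ^ 2 +
      2 * μ * g * (1 - bA x) * ∑ i, x (Sum.inl i) * π (Sum.inl i) +
      g ^ 2 * (1 - bA x) ^ 2 * bA x := by
    have e : g ^ 2 * (1 - bA x) ^ 2 * bA x =
        ∑ i, g ^ 2 * (1 - bA x) ^ 2 * x (Sum.inl i) ^ 2 := by
      rw [← Finset.mul_sum]; rfl
    rw [e, Finset.mul_sum, Finset.mul_sum, ← Finset.sum_add_distrib,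
      ← Finset.sum_add_distrib]
    exact Finset.sum_congr rfl fun i _ => by rw [t1]; ring
  have s2 : ∑ i, tproj x ξ (Sum.inr i) ^ 2 = ν ^ 2 * ∑ i, π (Sum.inr i) ^ 2 -
      2 * ν * g * bA x * ∑ i, x (Sum.inr i) * π (Sum.inr i) +
      g ^ 2 * bA x ^ 2 * (1 - bA x) := by
    rw [← hB, bB, Finset.mul_sum, Finset.mul_sum, Finset.mul_sum, ← Finset.sum_sub_distrib,
      ← Finset.sum_add_distrib]
    exact Finset.sum_congr rfl fun i _ => by rw [t2]; ring
  have s3 : ∑ i, x (Sum.inl i) * tproj x ξ (Sum.inl i) =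
      μ * (∑ i, x (Sum.inl i) * π (Sum.inl i)) + g * (1 - bA x) * bA x := by
    have e : g * (1 - bA x) * bA x = ∑ i, g * (1 - bA x) * x (Sum.inl i) ^ 2 := by
      rw [← Finset.mul_sum]; rfl
    rw [e, Finset.mul_sum, ← Finset.sum_add_distrib]
    exact Finset.sum_congr rfl fun i _ => by rw [t1]; ring
  simp only [blockHam, s1, s2, s3]
  rfl

/-- the relations between the coefficients -/
structure Rels (P Q S : ℝ → ℝ) (C : ℝ) : Prop where
  hC : 0 < C
  r1 : ∀ t ∈ Icc (0 : ℝ) 1, (1 - t) * P t + t * Q t = C * P t * Q t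
  r2 : ∀ t ∈ Icc (0 : ℝ) 1, (deriv Q t * (1 - t) + Q t) * P t ^ 2 =
    (P t - t * deriv P t) * Q t ^ 2
  r3 : ∀ t ∈ Icc (0 : ℝ) 1, C * ((1 - t) * P t + t * Q t + t * (1 - t) * S t) * Q t *
    (P t - t * deriv P t) ^ 2 = P t ^ 3

namespace Rels

variable {P Q S : ℝ → ℝ} {C : ℝ} (G : Good P Q S) (R : Rels P Q S C)

include G R

theorem bracket_zero : ∀ t ∈ Icc (0 : ℝ) 1, ((1 - t) * P t + t * Q t) *
    (2 * (deriv Q t * P t - deriv P t * Q t) * (P t * Q t) +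
      (deriv Q t * P t - deriv P t * Q t) ^ 2 * (t * (1 - t))) +
    S t * (P t * Q t + (deriv Q t * P t - deriv P t * Q t) * (t * (1 - t))) ^ 2 = 0 := by
  have cP := G.hP.continuous
  have cQ := G.hQ.continuous
  have cS := G.hS.continuous
  have cP1 := G.cdP.continuous
  have cQ1 := G.cdQ.continuous
  refine zero_on_Icc (by fun_prop) fun t ht => ?_
  have htI : t ∈ Icc (0 : ℝ) 1 := ⟨ht.1.le, ht.2.le⟩
  have hPt := (G.posP t htI).ne'
  have e1 := R.r1 t htI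
  have e2 := R.r2 t htI
  have e3 := R.r3 t htI
  have htt : t * (1 - t) ≠ 0 := mul_ne_zero ht.1.ne' (by linarith [ht.2])
  have k : P t * Q t + (deriv Q t * P t - deriv P t * Q t) * (t * (1 - t)) =
      (P t - t * deriv P t) * C * Q t ^ 2 := by
    refine mul_left_cancel₀ hPt ?_
    linear_combination t * e2 + (P t - t * deriv P t) * Q t * e1
  refine (mul_eq_zero.1 ?_).resolve_left htt
  have k2 : t * (1 - t) * (((1 - t) * P t + t * Q t) *
      (2 * (deriv Q t * P t - deriv P t * Q t) * (P t * Q t) +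
        (deriv Q t * P t - deriv P t * Q t) ^ 2 * (t * (1 - t))) +
      S t * (P t * Q t + (deriv Q t * P t - deriv P t * Q t) * (t * (1 - t))) ^ 2) =
      ((1 - t) * P t + t * Q t + t * (1 - t) * S t) *
        (P t * Q t + (deriv Q t * P t - deriv P t * Q t) * (t * (1 - t))) ^ 2 -
      ((1 - t) * P t + t * Q t) * (P t * Q t) ^ 2 := by ring
  rw [k2, k]
  linear_combination C * Q t ^ 3 * e3 - (P t * Q t) ^ 2 * e1

theorem pos_aux : ∀ t ∈ Icc (0 : ℝ) 1, 0 < P t - t * deriv P t := by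
  have cP := G.hP.continuous
  have cP1 := G.cdP.continuous
  have hne : ∀ t ∈ Icc (0 : ℝ) 1, P t - t * deriv P t ≠ 0 := by
    intro t ht h
    have e3 := R.r3 t ht
    rw [h] at e3
    have := pow_pos (G.posP t ht) 3
    rw [← e3] at this
    simp at this
  intro t ht
  by_contra hcon
  push Not at hcon
  have h0 : (0 : ℝ) ∈ Icc (P t - t * deriv P t) (P 0 - 0 * deriv P 0) := by
    refine ⟨hcon, ?_⟩
    rw [zero_mul, sub_zero]
    exact (G.posP 0 ⟨le_rfl, zero_le_one⟩).le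
  obtain ⟨s, hs, hs0⟩ := intermediate_value_Icc' (f := fun t => P t - t * deriv P t) ht.1
    (by fun_prop) h0
  exact hne s ⟨hs.1, hs.2.trans ht.2⟩ hs0

theorem cP1 : C * P 1 = 1 := by
  have m1 : (1 : ℝ) ∈ Icc (0 : ℝ) 1 := ⟨zero_le_one, le_rfl⟩
  have := R.r1 1 m1
  refine mul_right_cancel₀ (G.posQ 1 m1).ne' ?_
  linear_combination -this

theorem mono : StrictMonoOn (fun t => t / (C * P t)) (Icc (0 : ℝ) 1) := by
  have hC := R.hC
  have hder : ∀ t ∈ Icc (0 : ℝ) 1, HasDerivAt (fun t => t / (C * P t))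
      ((1 * (C * P t) - t * (C * deriv P t)) / (C * P t) ^ 2) t := by
    intro t ht
    exact (hasDerivAt_id t).fun_div ((G.dP t).const_mul C) (mul_pos hC (G.posP t ht)).ne'
  refine strictMonoOn_of_deriv_pos (convex_Icc 0 1)
    (fun t ht => (hder t ht).continuousAt.continuousWithinAt) ?_
  intro t ht
  rw [interior_Icc] at ht
  have htI : t ∈ Icc (0 : ℝ) 1 := ⟨ht.1.le, ht.2.le⟩
  rw [(hder t htI).deriv]
  have h1 := pos_aux G R t htI
  have h2 := mul_pos hC (G.posP t htI)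
  refine div_pos ?_ (by positivity)
  have : 1 * (C * P t) - t * (C * deriv P t) = C * (P t - t * deriv P t) := by ring
  rw [this]
  positivity

theorem surj {y : ℝ} (hy : y ∈ Icc (0 : ℝ) 1) : ∃ t ∈ Icc (0 : ℝ) 1, t / (C * P t) = y := by
  have hC := R.hC
  have cP := G.hP.continuous
  have hcont : ContinuousOn (fun t => t / (C * P t)) (Icc (0 : ℝ) 1) :=
    ContinuousOn.div (by fun_prop) (by fun_prop) fun t ht => (mul_pos hC (G.posP t ht)).ne'
  have h1 := intermediate_value_Icc (zero_le_one : (0 : ℝ) ≤ 1) hcont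
  have h2 : y ∈ Icc ((fun t => t / (C * P t)) 0) ((fun t => t / (C * P t)) 1) := by
    simp only [zero_div, cP1 G R, div_one]
    exact hy
  obtain ⟨t, ht, h⟩ := h1 h2
  exact ⟨t, ht, h⟩

end Rels

end Pool.Agent.MSup
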