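import Mathlib
import Pool.Agent.MSup.Iso

/-!
The relations give a metric isometric to a round sphere.
-/

set_option autoImplicit false

open Filter Topology Set
open scoped ContDiff

namespace Pool.Agent.MSup

variable {a b : ℕ}

namespace Rels

variable {P Q S : ℝ → ℝ} {C : ℝ} (G : Good P Q S) (R : Rels P Q S C)

include G R

theorem bA_isom {x : (Fin a ⊕ Fin b) → ℝ} (hx : ip x x = 1) :
    bA (isom C P Q x) = bA x / (C * P (bA x)) := by
  have hC := R.hC
  have hP := G.posP _ (bA_mem hx)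
  have h1 : bA (isom C P Q x) = fac C P (bA x) ^ 2 * bA x := by
    have h2 : ∀ i, isom C P Q x (Sum.inl i) ^ 2 = fac C P (bA x) ^ 2 * x (Sum.inl i) ^ 2 := by
      intro i
      simp only [isom, Sum.elim_inl]
      ring
    have h3 : bA (isom C P Q x) = ∑ i, fac C P (bA x) ^ 2 * x (Sum.inl i) ^ 2 :=
      Finset.sum_congr rfl fun i _ => h2 i
    rw [h3, ← Finset.mul_sum]
    rfl
  have h4 := fac_sq hC hP
  rw [h1]
  field_simp
  field_simp at h4
  linear_combination bA x * h4

theorem bB_isom {x : (Fin a ⊕ Fin b) → ℝ} (hx : ip x x = 1) :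
    bB (isom C P Q x) = (1 - bA x) / (C * Q (bA x)) := by
  have hC := R.hC
  have hQ := G.posQ _ (bA_mem hx)
  have hB : bB x = 1 - bA x := by rw [← hx, ip_self_eq]; ring
  have h1 : bB (isom C P Q x) = fac C Q (bA x) ^ 2 * bB x := by
    have h2 : ∀ i, isom C P Q x (Sum.inr i) ^ 2 = fac C Q (bA x) ^ 2 * x (Sum.inr i) ^ 2 := by
      intro i
      simp only [isom, Sum.elim_inr]
      ring
    have h3 : bB (isom C P Q x) = ∑ i, fac C Q (bA x) ^ 2 * x (Sum.inr i) ^ 2 :=
      Finset.sum_congr rfl fun i _ => h2 i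
    rw [h3, ← Finset.mul_sum]
    rfl
  have h4 := fac_sq hC hQ
  rw [h1, hB]
  field_simp
  field_simp at h4
  linear_combination (1 - bA x) * h4

theorem mapsTo : MapsTo (isom C P Q : ((Fin a ⊕ Fin b) → ℝ) → _) {x | ip x x = 1}
    {x | ip x x = 1} := by
  intro x hx
  have hx' : ip x x = 1 := hx
  have hC := R.hC
  have hP := G.posP _ (bA_mem hx')
  have hQ := G.posQ _ (bA_mem hx')
  have h1 := R.r1 _ (bA_mem hx')
  change ip (isom C P Q x) (isom C P Q x) = 1
  rw [ip_self_eq, bA_isom G R hx', bB_isom G R hx']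
  field_simp
  linear_combination h1

theorem injOn : InjOn (isom C P Q : ((Fin a ⊕ Fin b) → ℝ) → _) {x | ip x x = 1} := by
  intro x hx x' hx' h
  have hx1 : ip x x = 1 := hx
  have hx2 : ip x' x' = 1 := hx'
  have hC := R.hC
  have hP := G.posP _ (bA_mem hx1)
  have hQ := G.posQ _ (bA_mem hx1)
  have h1 : bA x = bA x' := by
    refine (mono G R).injOn (bA_mem hx1) (bA_mem hx2) ?_
    rw [← bA_isom G R hx1, ← bA_isom G R hx2, h]
  funext k
  rcases k with j | j
  · have h2 := congrFun h (Sum.inl j)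
    simp only [isom, Sum.elim_inl, ← h1] at h2
    exact mul_left_cancel₀ (fac_pos hC hP).ne' h2
  · have h2 := congrFun h (Sum.inr j)
    simp only [isom, Sum.elim_inr, ← h1] at h2
    exact mul_left_cancel₀ (fac_pos hC hQ).ne' h2

theorem surjOn : SurjOn (isom C P Q : ((Fin a ⊕ Fin b) → ℝ) → _) {x | ip x x = 1}
    {x | ip x x = 1} := by
  intro y hy
  have hy1 : ip y y = 1 := hy
  have hC := R.hC
  obtain ⟨t, ht, hty⟩ := surj G R (bA_mem hy1)
  have hP := G.posP _ ht
  have hQ := G.posQ _ ht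
  have h1 := R.r1 _ ht
  have hB : bB y = 1 - bA y := by rw [← hy1, ip_self_eq]; ring
  have fP := fac_pos hC hP
  have fQ := fac_pos hC hQ
  have f1 := fac_sq hC hP
  have f2 := fac_sq hC hQ
  set x : (Fin a ⊕ Fin b) → ℝ := Sum.elim (fun j => y (Sum.inl j) / fac C P t)
    (fun j => y (Sum.inr j) / fac C Q t) with hxdef
  have eA : bA x = t := by
    have h2 : bA x = ∑ i, (fac C P t ^ 2)⁻¹ * y (Sum.inl i) ^ 2 :=
      Finset.sum_congr rfl fun i _ => by
        simp only [hxdef, Sum.elim_inl]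
        rw [div_pow, div_eq_inv_mul]
    have h3 : bA x = (fac C P t ^ 2)⁻¹ * bA y := by
      rw [h2, ← Finset.mul_sum]
      rfl
    have h4 : fac C P t ^ 2 = (C * P t)⁻¹ := by
      field_simp at f1 ⊢
      linear_combination f1
    rw [h3, ← hty, h4]
    field_simp
  have eB : bB x = 1 - t := by
    have h2 : bB x = ∑ i, (fac C Q t ^ 2)⁻¹ * y (Sum.inr i) ^ 2 :=
      Finset.sum_congr rfl fun i _ => by
        simp only [hxdef, Sum.elim_inr]
        rw [div_pow, div_eq_inv_mul]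
    have h3 : bB x = (fac C Q t ^ 2)⁻¹ * bB y := by
      rw [h2, ← Finset.mul_sum]
      rfl
    have h4 : fac C Q t ^ 2 = (C * Q t)⁻¹ := by
      field_simp at f2 ⊢
      linear_combination f2
    rw [h3, hB, ← hty, h4]
    field_simp
    linear_combination -h1
  refine ⟨x, ?_, ?_⟩
  · change ip x x = 1
    rw [ip_self_eq, eA, eB]
    ring
  · funext k
    rcases k with j | j
    · simp only [isom, Sum.elim_inl, eA]
      simp only [hxdef, Sum.elim_inl]
      field_simp
    · simp only [isom, Sum.elim_inr, eA]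
      simp only [hxdef, Sum.elim_inr]
      field_simp

theorem ham_eq {x : (Fin a ⊕ Fin b) → ℝ} (hx : ip x x = 1) {π : (Fin a ⊕ Fin b) → ℝ}
    (hπ : ip (isom C P Q x) π = 0) :
    blockHam P Q S (x, tproj x (fun i => ip (fderiv ℝ (isom C P Q) x (Pi.single i 1)) π)) =
      ip π π / C / 2 := by
  have hC := R.hC
  have hP := G.posP _ (bA_mem hx)
  have hQ := G.posQ _ (bA_mem hx)
  have f1 := fac_sq hC hP
  have f2 := fac_sq hC hQ
  set μ := fac C P (bA x) with hμ
  set ν := fac C Q (bA x) with hν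
  set A1 := ∑ i, x (Sum.inl i) * π (Sum.inl i) with hA1
  set B1 := ∑ i, x (Sum.inr i) * π (Sum.inr i) with hB1
  set μ' := -(μ * deriv P (bA x) / (2 * P (bA x))) with hμ'
  set ν' := -(ν * deriv Q (bA x) / (2 * Q (bA x))) with hν'
  have h0 : μ * A1 + ν * B1 = 0 := by
    have h1 : ip (isom C P Q x) π = μ * A1 + ν * B1 := by
      rw [ip_eq, hA1, hB1, Finset.mul_sum, Finset.mul_sum]
      congr 1
      · exact Finset.sum_congr rfl fun i _ => by simp only [isom, Sum.elim_inl]; ring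
      · exact Finset.sum_congr rfl fun i _ => by simp only [isom, Sum.elim_inr]; ring
    rw [← h1, hπ]
  set g := 2 * (μ' * A1 + ν' * B1) with hg
  have hfd := fderiv_isom (a := a) (b := b) hC hP hQ G.hP G.hQ
  have k1 : ∀ j : Fin a, ip (fderiv ℝ (isom C P Q) x (Pi.single (Sum.inl j) 1)) π =
      μ * π (Sum.inl j) + g * x (Sum.inl j) := by
    intro j
    rw [hfd, ip_eq]
    simp only [Sum.elim_inl, Sum.elim_inr, Pi.single_apply, Sum.inl.injEq, reduceCtorEq, if_false,
      mul_zero, mul_ite, mul_one, Finset.sum_ite_eq', Finset.mem_univ, if_true, add_zero]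
    have e1 : ∑ i, (μ' * (2 * x (Sum.inl j)) * x (Sum.inl i) + if i = j then μ else 0) *
        π (Sum.inl i) = μ' * (2 * x (Sum.inl j)) * A1 + μ * π (Sum.inl j) := by
      simp only [add_mul, ite_mul, zero_mul, Finset.sum_add_distrib, Finset.sum_ite_eq',
        Finset.mem_univ, if_true]
      congr 1
      rw [hA1, Finset.mul_sum]
      exact Finset.sum_congr rfl fun i _ => by ring
    have e2 : ∑ i, ν' * (2 * x (Sum.inl j)) * x (Sum.inr i) * π (Sum.inr i) =
        ν' * (2 * x (Sum.inl j)) * B1 := by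
      rw [hB1, Finset.mul_sum]
      exact Finset.sum_congr rfl fun i _ => by ring
    rw [e1, e2, hg]
    ring
  have k2 : ∀ j : Fin b, ip (fderiv ℝ (isom C P Q) x (Pi.single (Sum.inr j) 1)) π =
      ν * π (Sum.inr j) := by
    intro j
    rw [hfd, ip_eq]
    simp only [Sum.elim_inl, Sum.elim_inr, Pi.single_apply, Sum.inr.injEq, reduceCtorEq, if_false,
      mul_zero, mul_ite, mul_one, Finset.sum_const_zero, zero_mul, zero_add, add_zero, ite_mul,
      Finset.sum_ite_eq', Finset.mem_univ, if_true]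
    rfl
  rw [blockHam_tproj P Q S hx (μ := μ) (ν := ν) (g := g) k1 k2 h0]
  have hbr := bracket_zero G R _ (bA_mem hx)
  set t := bA x with ht
  set m := μ * A1 with hm
  have hgm : g = (deriv Q t * P t - deriv P t * Q t) / (P t * Q t) * m := by
    rw [hg, hμ', hν', hm]
    have : ν * B1 = -(μ * A1) := by linarith
    field_simp
    linear_combination (-(deriv Q t * P t)) * this
  have hsum : ip π π = ∑ i, π (Sum.inl i) ^ 2 + ∑ i, π (Sum.inr i) ^ 2 := by
    rw [ip_eq]
    simp only [pow_two]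
  have hB' : ν * B1 = -m := by rw [hm]; linarith
  have hbr' : ((1 - t) * P t + t * Q t) * (2 * g * m + g ^ 2 * (t * (1 - t))) +
      S t * (m + g * (1 - t) * t) ^ 2 = 0 := by
    have h3 : ((1 - t) * P t + t * Q t) * (2 * g * m + g ^ 2 * (t * (1 - t))) +
      S t * (m + g * (1 - t) * t) ^ 2 = m ^ 2 / (P t * Q t) ^ 2 *
      (((1 - t) * P t + t * Q t) *
      (2 * (deriv Q t * P t - deriv P t * Q t) * (P t * Q t) +
        (deriv Q t * P t - deriv P t * Q t) ^ 2 * (t * (1 - t))) +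
      S t * (P t * Q t + (deriv Q t * P t - deriv P t * Q t) * (t * (1 - t))) ^ 2) := by
      rw [hgm]
      field_simp
    rw [h3, hbr, mul_zero]
  rw [hsum]
  have h5 : (P t * (μ ^ 2 * ∑ i, π (Sum.inl i) ^ 2 + 2 * μ * g * (1 - t) * A1 +
      g ^ 2 * (1 - t) ^ 2 * t) + Q t * (ν ^ 2 * ∑ i, π (Sum.inr i) ^ 2 - 2 * ν * g * t * B1 +
      g ^ 2 * t ^ 2 * (1 - t)) + S t * (μ * A1 + g * (1 - t) * t) ^ 2) =
      P t * μ ^ 2 * ∑ i, π (Sum.inl i) ^ 2 + Q t * ν ^ 2 * ∑ i, π (Sum.inr i) ^ 2 +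
      (((1 - t) * P t + t * Q t) * (2 * g * m + g ^ 2 * (t * (1 - t))) +
      S t * (m + g * (1 - t) * t) ^ 2) := by
    rw [hm]
    linear_combination (-(2 * Q t * g * t)) * hB'
  rw [h5, hbr', f1, f2]
  ring

theorem round : IsRoundSphere (blockHam P Q S : Ph a b → ℝ) :=
  ⟨C, R.hC, isom C P Q, ⟨mapsTo G R, injOn G R, surjOn G R⟩, fun _ hx =>
    ⟨contDiffAt_isom R.hC (G.posP _ (bA_mem hx)) (G.posQ _ (bA_mem hx)) G.hP G.hQ,
      fun _ hπ => ham_eq G R hx hπ⟩⟩

end Rels

theorem round_of_superintegrable {P Q S : ℝ → ℝ} (G : Good P Q S) (ha : 2 ≤ a) (hb : 2 ≤ b)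
    (h : MaxSuperintegrable (blockHam P Q S : Ph a b → ℝ)) :
    IsRoundSphere (blockHam P Q S : Ph a b → ℝ) := by
  obtain ⟨α, ρ, C, -, -, hR⟩ := rel_of_superintegrable G ha hb h
  obtain ⟨hC, hr⟩ := close G hR
  exact Rels.round G ⟨hC, fun t ht => (hr t ht).1, fun t ht => (hr t ht).2.1,
    fun t ht => (hr t ht).2.2⟩

end Pool.Agent.MSup
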